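import Pool.Agent.Helper28.Tg.Defs

/-! # Dynamical localization: statements of the parts -/

set_option autoImplicit false

open MeasureTheory Filter Topology
open scoped BigOperators ENNReal NNReal InnerProductSpace ComplexConjugate

namespace Pool.Agent.Helper28.Tg

open Pool.Agent.H4R2.LO (Zd dd bx Hg L2f IsSpec PolyB IsGen)
open Pool.Agent.H5R2.NB (UG L2 dl IsGrp PP)

/-- polynomial decay at scale `2^n` -/
noncomputable def dec (q n : ℕ) : ℝ := ((2 : ℝ) ^ (q * n))⁻¹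

/-- STB: one step of the multiscale analysis at fixed energy, with better exponents.
`δ = 2^(-m n)` is the resonance parameter, `q, q'` the decay before and after, `π, π'` the
probability exponents before and after. -/
def St_STB : Prop :=
  ∀ (d : ℕ), 1 ≤ d → ∀ (C : ℝ≥0) (κ : ℝ), 0 < κ → κ ≤ 1 / 4 → ∀ m q q' : ℕ, d + 1 ≤ m →
    m + d + 1 ≤ q → ∃ n0 : ℕ,
    ∀ (ν : Measure ℝ) [IsProbabilityMeasure ν], ν ≤ C • volume → ∀ n s : ℕ, n0 ≤ n →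
    (s : ℝ) ≤ κ / (16 * d * m) * n → κ / (32 * d * m) * n ≤ s →
    ∀ π π' : ℝ, κ ≤ π → π' ≤ 5 / 4 * π → π' ≤ m - d - 1 / 2 →
    ∀ B : Zd d → Set ((Zd d → ℝ) × ℝ), Bf d ν (2 ^ n) (dec q n) (pro π n) B →
      ∃ B' : Zd d → Set ((Zd d → ℝ) × ℝ), Bf d ν (2 ^ (n + s)) (dec q' (n + s)) (pro π' (n + s)) B'

/-- the event that two boxes are both bad at a common energy -/
def Two {d : ℕ} (x y : Zd d) (l : ℕ) (η M : ℝ) : Set (Zd d → ℝ) :=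
  {V | ∃ E : ℝ, |E| ≤ M ∧ ¬ Dc x l η E V ∧ ¬ Dc y l η E V}

/-- VAR: from fixed energy to all energies, for pairs of boxes -/
def St_VAR : Prop :=
  ∀ (d : ℕ), 1 ≤ d → ∀ (C : ℝ≥0) (M : ℝ), 0 < M → ∀ P q : ℕ, ∃ (P' q' n0 : ℕ),
    ∀ (ν : Measure ℝ) [IsProbabilityMeasure ν], ν ≤ C • volume → ∀ n : ℕ, n0 ≤ n →
    ∀ B : Zd d → Set ((Zd d → ℝ) × ℝ), Bf d ν (2 ^ n) (dec q' n) (pro P' n) B →
      ∀ x y : Zd d, 4 * 2 ^ n < dd x y →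
        (PP d ν) (Two x y (2 ^ n) (dec q n) M) ≤ ENNReal.ofReal (pro P n)

/-- the eigenvectors of `-(sum over neighbours) + V` are total in `ℓ²` -/
def Tot {d : ℕ} (V : Zd d → ℝ) : Prop :=
  ∀ φ : L2 (Zd d), (∀ (E : ℝ) (ψ : L2 (Zd d)),
    (∀ x, Hg (-1) V (fun y => ψ y) x = (E : ℂ) * ψ x) → ⟪ψ, φ⟫_ℂ = 0) → φ = 0

/-- COR: the eigenfunction correlator (deterministic) -/
def St_COR : Prop :=
  ∀ (d : ℕ) (V : Zd d → ℝ) (K : ℝ), (∀ x, |V x| ≤ K) → Tot V →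
    ∀ W : UG (L2 (Zd d)), IsGrp (-1) V W → ∀ (x y : Zd d) (l : ℕ) (η : ℝ), 0 ≤ η →
    (∀ E : ℝ, |E| ≤ 2 * d + K → Dc x l η E V ∨ Dc y l η E V) →
    ∀ t : ℝ, ‖(W.U t (dl y)) x‖ ≤ 4 * η * (2 * l + 3 : ℝ) ^ d

/-- DYN: polynomial decay of the matrix elements, uniformly in time, from two-box estimates -/
def St_DYN : Prop :=
  ∀ (d : ℕ), 1 ≤ d → ∀ (ν : Measure ℝ) [IsProbabilityMeasure ν] (K : ℝ),
    ν (Set.Icc (-K) K)ᶜ = 0 → ∀ ev : (Zd d → ℝ) → UG (L2 (Zd d)), (∀ V, IsGrp (-1) V (ev V)) →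
    (∀ᵐ V ∂(PP d ν), Tot V) → ∀ (n : ℕ → ℕ), (∀ k, n k < n (k + 1)) →
    (∀ k, n (k + 1) ≤ 2 * n k) → ∀ P : ℕ,
    (∀ k, ∀ x y : Zd d, 4 * 2 ^ n k < dd x y →
      (PP d ν) (Two x y (2 ^ n k) (dec (P + d) (n k)) (2 * d + K)) ≤
        ENNReal.ofReal (pro P (n k))) →
    ∃ A : ℝ, 0 < A ∧ ∀ x : Zd d, ∫⁻ V, ⨆ t : ℝ, ‖((ev V).U t (dl 0)) x‖ₑ ∂(PP d ν) ≤
      ENNReal.ofReal (A * (1 + ‖x‖) ^ (-(P : ℝ) / 2))

end Pool.Agent.Helper28.Tg
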