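import Pool.Agent.Helper28.Tg.Defs
import Pool.Graph.R_seed8.H5R2.NB.CV
import Pool.Graph.R_seed8.H5R2.NB.OPS

/-! # The resolvent as a Laplace transform of the unitary group -/

set_option autoImplicit false

open MeasureTheory Filter Topology
open scoped BigOperators ENNReal NNReal InnerProductSpace ComplexConjugate

namespace Pool.Agent.Helper28.Tg

open Pool.Agent.H4R2.LO (Zd dd bx Hg L2f IsSpec PolyB IsGen)
open Pool.Agent.H5R2.NB (UG L2 dl IsGrp PP)

namespace Lap

/-- evaluation at a point -/
noncomputable def ev {d : ℕ} (x : Zd d) : L2 (Zd d) →L[ℂ] ℂ :=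
  LinearMap.mkContinuous
    { toFun := fun v => v x
      map_add' := fun a b => by simp
      map_smul' := fun a b => by simp } 1 (fun v => by
        have := lp.norm_apply_le_norm (by norm_num : (2 : ℝ≥0∞) ≠ 0) v x
        simpa using this)

theorem ev_apply {d : ℕ} (x : Zd d) (v : L2 (Zd d)) : ev x v = v x := rfl

theorem dl_norm {d : ℕ} (x : Zd d) : ‖(dl x : L2 (Zd d))‖ = 1 := by
  unfold dl
  rw [lp.norm_single (by norm_num)]
  simp

theorem l2f {d : ℕ} (v : L2 (Zd d)) : L2f (fun x => v x) := by
  have h := lp.memℓp v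
  rw [memℓp_gen_iff (by norm_num)] at h
  simpa [L2f] using h

theorem expn (z : ℂ) (t : ℝ) : ‖Complex.exp (Complex.I * z * t)‖ = Real.exp (-(z.im * t)) := by
  rw [Complex.norm_exp]
  congr 1
  simp

/-- integrand -/
noncomputable def fn {d : ℕ} (W : UG (L2 (Zd d))) (z : ℂ) (x : Zd d) (t : ℝ) : L2 (Zd d) :=
  Complex.exp (Complex.I * z * t) • W.U t (dl x)

theorem fn_norm {d : ℕ} (W : UG (L2 (Zd d))) (z : ℂ) (x : Zd d) (t : ℝ) :
    ‖fn W z x t‖ = Real.exp (-(z.im * t)) := by
  unfold fn
  rw [norm_smul, expn, W.norm', dl_norm, mul_one]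

theorem fn_cont {d : ℕ} (W : UG (L2 (Zd d))) (z : ℂ) (x : Zd d) : Continuous (fn W z x) := by
  have h1 : Continuous fun t : ℝ => Complex.exp (Complex.I * z * (t : ℂ)) := by fun_prop
  exact h1.smul (W.cont' _)

theorem exp_int {η : ℝ} (hη : 0 < η) :
    IntegrableOn (fun t : ℝ => Real.exp (-(η * t))) (Set.Ioi 0) := by
  have := integrableOn_exp_mul_Ioi (neg_lt_zero.2 hη) 0
  simpa using this

theorem fn_int {d : ℕ} (W : UG (L2 (Zd d))) (z : ℂ) (hz : 0 < z.im) (x : Zd d) :
    IntegrableOn (fn W z x) (Set.Ioi 0) := by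
  refine Integrable.mono' (exp_int hz) (fn_cont W z x).aestronglyMeasurable ?_
  exact Eventually.of_forall fun t => (fn_norm W z x t).le

theorem co_int {d : ℕ} (W : UG (L2 (Zd d))) (z : ℂ) (hz : 0 < z.im) (x y : Zd d) :
    IntegrableOn (fun t : ℝ => Complex.exp (Complex.I * z * t) * (W.U t (dl x)) y)
      (Set.Ioi 0) := by
  have h := (ev y).integrable_comp (fn_int W z hz x)
  refine h.congr (Eventually.of_forall fun t => ?_)
  simp [ev_apply, fn]

/-- the resolvent vector -/
noncomputable def rv {d : ℕ} (W : UG (L2 (Zd d))) (z : ℂ) (x : Zd d) : L2 (Zd d) :=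
  Complex.I • ∫ t in Set.Ioi (0 : ℝ), fn W z x t

theorem rv_apply {d : ℕ} (W : UG (L2 (Zd d))) (z : ℂ) (hz : 0 < z.im) (x y : Zd d) :
    (rv W z x) y = lap W z x y := by
  unfold rv lap
  have h := (ev y).integral_comp_comm (fn_int W z hz x)
  rw [lp.coeFn_smul, Pi.smul_apply, smul_eq_mul]
  congr 1
  rw [← ev_apply y, ← h]
  refine integral_congr_ae (Eventually.of_forall fun t => ?_)
  simp [ev_apply, fn]

end Lap

open Lap in
theorem t_LAP : St_LAP := by
  intro d c V W hW z hz x
  constructor
  · have h := l2f (rv W z x)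
    have e : (fun y => (rv W z x) y) = lap W z x := by
      funext y
      exact rv_apply W z hz x y
    rwa [e] at h
  · intro y
    set g : Zd d → ℝ → ℂ := fun w t => Complex.exp (Complex.I * z * t) * (W.U t (dl x)) w with hg
    set G : Zd d → ℂ := fun w => ∫ t in Set.Ioi (0 : ℝ), g w t with hG
    have hl : ∀ w, lap W z x w = Complex.I * G w := fun w => rfl
    have hgi : ∀ w, IntegrableOn (g w) (Set.Ioi 0) := fun w => co_int W z hz x w
    set F' : ℝ → ℂ := fun t => Complex.I * z * g y t - Complex.I *
      ((c : ℂ) * ∑ i : Fin d, (g (y + Pi.single i 1) t + g (y - Pi.single i 1) t) +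
        V y * g y t) with hF'
    have hd : ∀ t : ℝ, HasDerivAt (g y) (F' t) t := by
      intro t
      have h1 := (hW (dl x)).2 t y
      have h2 : HasDerivAt (fun s : ℝ => Complex.exp (Complex.I * z * s))
          (Complex.exp (Complex.I * z * t) * (Complex.I * z)) t := by
        have h3 : HasDerivAt (fun s : ℝ => Complex.I * z * (s : ℂ)) (Complex.I * z * 1) t :=
          (Complex.ofRealCLM.hasDerivAt (x := t)).const_mul (Complex.I * z)
        have h4 := h3.cexp
        simpa using h4
      have h5 := h2.mul h1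
      refine h5.congr_deriv ?_
      simp only [hF', hg, Pool.Agent.H5R2.NB.hopf]
      have e1 : ∑ i : Fin d, (Complex.exp (Complex.I * z * t) * (W.U t (dl x)) (y + Pi.single i 1) +
          Complex.exp (Complex.I * z * t) * (W.U t (dl x)) (y - Pi.single i 1)) =
          Complex.exp (Complex.I * z * t) * ∑ i : Fin d, ((W.U t (dl x)) (y + Pi.single i 1) +
            (W.U t (dl x)) (y - Pi.single i 1)) := by
        rw [Finset.mul_sum]
        refine Finset.sum_congr rfl fun i _ => ?_
        ring
      rw [e1]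
      have e2 : ((0 : L2 (Zd d)) : Zd d → ℂ) y = 0 := by simp
      rw [e2]
      ring
    have hsum : IntegrableOn (fun t => ∑ i : Fin d,
        (g (y + Pi.single i 1) t + g (y - Pi.single i 1) t)) (Set.Ioi 0) :=
      integrable_finsetSum _ fun i _ => (hgi _).add (hgi _)
    have hi : IntegrableOn F' (Set.Ioi 0) := by
      refine Integrable.sub ((hgi y).const_mul _) (Integrable.const_mul ?_ _)
      exact (hsum.const_mul _).add ((hgi y).const_mul _)
    have ht : Tendsto (g y) atTop (𝓝 0) := by
      rw [tendsto_zero_iff_norm_tendsto_zero]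
      have h1 : Tendsto (fun t : ℝ => Real.exp (-(z.im * t))) atTop (𝓝 0) := by
        have := (tendsto_id (α := ℝ) (x := atTop)).const_mul_atTop hz
        exact Real.tendsto_exp_neg_atTop_nhds_zero.comp this
      refine squeeze_zero (fun _ => norm_nonneg _) (fun t => ?_) h1
      rw [hg]
      simp only [norm_mul]
      rw [expn]
      have h2 := lp.norm_apply_le_norm (by norm_num : (2 : ℝ≥0∞) ≠ 0) (W.U t (dl x)) y
      rw [W.norm', dl_norm] at h2
      nlinarith [Real.exp_pos (-(z.im * t)), norm_nonneg ((W.U t (dl x)) y)]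
    have hint := integral_Ioi_of_hasDerivAt_of_tendsto (a := 0)
      (hd 0).continuousAt.continuousWithinAt (fun t _ => hd t) hi ht
    have hF0 : g y 0 = if y = x then 1 else 0 := by
      simp only [hg]
      rw [W.zero']
      unfold dl
      rw [lp.single_apply]
      by_cases h : y = x
      · subst h; simp
      · simp [h]
    have hval : ∫ t in Set.Ioi (0 : ℝ), F' t = Complex.I * z * G y - Complex.I *
        ((c : ℂ) * ∑ i : Fin d, (G (y + Pi.single i 1) + G (y - Pi.single i 1)) + V y * G y) := by
      have q1 : ∫ t in Set.Ioi (0 : ℝ), Complex.I * z * g y t = Complex.I * z * G y :=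
        integral_const_mul _ _
      have q2 : ∫ t in Set.Ioi (0 : ℝ), (c : ℂ) * ∑ i : Fin d, (g (y + Pi.single i 1) t +
          g (y - Pi.single i 1) t) =
          (c : ℂ) * ∑ i : Fin d, (G (y + Pi.single i 1) + G (y - Pi.single i 1)) := by
        have q0 := integral_finsetSum (μ := volume.restrict (Set.Ioi (0 : ℝ))) Finset.univ
          (f := fun (i : Fin d) (t : ℝ) => g (y + Pi.single i 1) t + g (y - Pi.single i 1) t)
          fun i _ => (hgi (y + Pi.single i 1)).add (hgi (y - Pi.single i 1))
        rw [integral_const_mul, q0]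
        congr 1
        refine Finset.sum_congr rfl fun i _ => ?_
        exact integral_add (hgi _) (hgi _)
      have q3 : ∫ t in Set.Ioi (0 : ℝ), (V y : ℂ) * g y t = V y * G y :=
        integral_const_mul _ _
      have q4 : ∫ t in Set.Ioi (0 : ℝ), ((c : ℂ) * ∑ i : Fin d, (g (y + Pi.single i 1) t +
          g (y - Pi.single i 1) t) + V y * g y t) = (c : ℂ) * ∑ i : Fin d,
            (G (y + Pi.single i 1) + G (y - Pi.single i 1)) + V y * G y := by
        rw [← q2, ← q3]
        exact integral_add (hsum.const_mul _) ((hgi y).const_mul _)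
      have q5 : ∫ t in Set.Ioi (0 : ℝ), Complex.I * ((c : ℂ) * ∑ i : Fin d,
          (g (y + Pi.single i 1) t + g (y - Pi.single i 1) t) + V y * g y t) =
          Complex.I * ((c : ℂ) * ∑ i : Fin d,
            (G (y + Pi.single i 1) + G (y - Pi.single i 1)) + V y * G y) := by
        rw [← q4]
        exact integral_const_mul _ _
      rw [← q1, ← q5]
      exact integral_sub ((hgi y).const_mul _)
        (Integrable.const_mul ((hsum.const_mul _).add ((hgi y).const_mul _)) _)
    rw [hval, hF0] at hint
    unfold Hg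
    simp only [hl]
    have e3 : ∑ i : Fin d, (Complex.I * G (y + Pi.single i 1) + Complex.I * G (y - Pi.single i 1)) =
        Complex.I * ∑ i : Fin d, (G (y + Pi.single i 1) + G (y - Pi.single i 1)) := by
      rw [Finset.mul_sum]
      refine Finset.sum_congr rfl fun i _ => ?_
      ring
    rw [e3]
    linear_combination -hint

namespace Lap

theorem ut_le {d : ℕ} (W : UG (L2 (Zd d))) (t : ℝ) (x y : Zd d) : ‖(W.U t (dl x)) y‖ ≤ 1 := by
  have h2 := lp.norm_apply_le_norm (by norm_num : (2 : ℝ≥0∞) ≠ 0) (W.U t (dl x)) y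
  rwa [W.norm', dl_norm] at h2

theorem ut_cont {d : ℕ} {c : ℝ} {ev : (Zd d → ℝ) → UG (L2 (Zd d))}
    (hev : ∀ V, IsGrp c V (ev V)) (x y : Zd d) :
    Continuous fun p : (Zd d → ℝ) × ℝ => ((ev p.1).U p.2 (dl x)) y := by
  have h1 := Pool.Agent.H5R2.NB.t_CV Pool.Agent.H5R2.NB.t_OPS d c ev hev
  have h2 : Continuous fun p : (Zd d → ℝ) × ℝ => (ev p.1).U p.2 (dl x) :=
    h1.comp (continuous_fst.prodMk (continuous_snd.prodMk continuous_const))
  exact (Lap.ev y).continuous.comp h2

end Lap

open Lap in
theorem t_LCT : St_LCT := by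
  intro d c ev hev ε hε x y
  unfold lap
  refine continuous_const.mul ?_
  refine continuous_of_dominated (bound := fun t => Real.exp (-(ε * t))) ?_ ?_ (exp_int hε) ?_
  · intro p
    refine Continuous.aestronglyMeasurable ?_
    refine Continuous.mul (by fun_prop) ?_
    exact (ut_cont hev x y).comp (continuous_const.prodMk continuous_id)
  · intro p
    refine Eventually.of_forall fun t => ?_
    rw [norm_mul, expn]
    have h1 : ((p.2 : ℂ) + ε * Complex.I).im = ε := by simp
    rw [h1]
    exact mul_le_of_le_one_right (Real.exp_pos _).le (ut_le _ _ _ _)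
  · refine Eventually.of_forall fun t => ?_
    refine Continuous.mul (by fun_prop) ?_
    exact (ut_cont hev x y).comp (continuous_fst.prodMk continuous_const)

open Lap in
theorem t_ACT : St_ACT := by
  intro d c ev hev η hη x y
  unfold amp
  refine continuous_of_dominated (bound := fun t => Real.exp (-(η * t))) ?_ ?_ (exp_int hη) ?_
  · intro V
    refine Continuous.aestronglyMeasurable ?_
    refine Continuous.mul (by fun_prop) ?_
    exact ((ut_cont hev x y).comp (continuous_const.prodMk continuous_id)).norm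
  · intro V
    refine Eventually.of_forall fun t => ?_
    rw [norm_mul, norm_norm, Real.norm_of_nonneg (Real.exp_pos _).le]
    exact mul_le_of_le_one_right (Real.exp_pos _).le (ut_le _ _ _ _)
  · refine Eventually.of_forall fun t => ?_
    refine Continuous.mul continuous_const ?_
    exact ((ut_cont hev x y).comp (continuous_id.prodMk continuous_const)).norm

open Lap in
/-- the resolvent is dominated by the amplitude, for all spectral parameters above `η` -/
theorem lap_le {d : ℕ} (W : UG (L2 (Zd d))) (η : ℝ) (hη : 0 < η) (z : ℂ) (hz : η ≤ z.im)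
    (x y : Zd d) : ‖lap W z x y‖ ≤ amp W η x y := by
  unfold lap amp
  rw [norm_mul, Complex.norm_I, one_mul]
  refine (norm_integral_le_integral_norm _).trans ?_
  have hc : Continuous fun t : ℝ => (W.U t (dl x)) y :=
    (Lap.ev y).continuous.comp (W.cont' (dl x))
  refine setIntegral_mono_on ?_ ?_ measurableSet_Ioi ?_
  · exact (co_int W z (hη.trans_le hz) x y).norm
  · refine Integrable.mono' (exp_int hη) ?_ ?_
    · refine Continuous.aestronglyMeasurable ?_
      exact Continuous.mul (by fun_prop) hc.norm
    · refine Eventually.of_forall fun t => ?_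
      rw [norm_mul, norm_norm, Real.norm_of_nonneg (Real.exp_pos _).le]
      exact mul_le_of_le_one_right (Real.exp_pos _).le (ut_le _ _ _ _)
  · intro t ht
    rw [norm_mul, expn]
    refine mul_le_mul_of_nonneg_right ?_ (norm_nonneg _)
    apply Real.exp_le_exp.2
    have : (0 : ℝ) < t := ht
    nlinarith

end Pool.Agent.Helper28.Tg
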