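import Pool.Agent.Helper28.Tg.Defs2

/-! # The energy-resolved version: statements of the parts -/

set_option autoImplicit false

open MeasureTheory Filter Topology
open scoped BigOperators ENNReal NNReal InnerProductSpace ComplexConjugate

namespace Pool.Agent.Helper28.Tg

open Pool.Agent.H4R2.LO (Zd dd bx Hg L2f IsSpec PolyB IsGen)
open Pool.Agent.H5R2.NB (UG L2 dl IsGrp PP)

/-- a family of bad sets at scale `l`, with the probability estimate for energies in `J` only -/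
structure Bg (d : ℕ) (ν : Measure ℝ) [IsProbabilityMeasure ν] (J : Set ℝ) (l : ℕ) (η p : ℝ)
    (B : Zd d → Set ((Zd d → ℝ) × ℝ)) : Prop where
  op : ∀ x, IsOpen (B x)
  loc : ∀ x V V' E, (∀ y, dd x y ≤ 2 * l → V y = V' y) → (V, E) ∈ B x → (V', E) ∈ B x
  pr : ∀ x, ∀ E ∈ J, (PP d ν) {V | (V, E) ∈ B x} ≤ ENNReal.ofReal p
  dc : ∀ x V E, (V, E) ∉ B x → Dc x l η E V

/-- STJ: `St_STB` for `Bg` -/
def St_STJ : Prop :=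
  ∀ (d : ℕ), 1 ≤ d → ∀ (C : ℝ≥0) (κ : ℝ), 0 < κ → κ ≤ 1 / 4 → ∀ m q q' : ℕ, d + 1 ≤ m →
    m + d + 1 ≤ q → ∃ n0 : ℕ,
    ∀ (ν : Measure ℝ) [IsProbabilityMeasure ν], ν ≤ C • volume → ∀ (J : Set ℝ) (n s : ℕ), n0 ≤ n →
    (s : ℝ) ≤ κ / (16 * d * m) * n → κ / (32 * d * m) * n ≤ s →
    ∀ π π' : ℝ, κ ≤ π → π' ≤ 5 / 4 * π → π' ≤ m - d - 1 / 2 →
    ∀ B : Zd d → Set ((Zd d → ℝ) × ℝ), Bg d ν J (2 ^ n) (dec q n) (pro π n) B →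
      ∃ B' : Zd d → Set ((Zd d → ℝ) × ℝ),
        Bg d ν J (2 ^ (n + s)) (dec q' (n + s)) (pro π' (n + s)) B'

/-- FNJ: `St_FIN` for `Bg` -/
def St_FNJ : Prop :=
  ∀ (d : ℕ), 1 ≤ d → ∀ (ν : Measure ℝ) [IsProbabilityMeasure ν] (C : ℝ≥0), ν ≤ C • volume →
    ∀ (a b κ : ℝ), 0 < κ → ∀ (n : ℕ → ℕ), (∀ k, 1 ≤ n k) → (∀ k, n k < n (k + 1)) →
    (∀ k, n (k + 1) ≤ 2 * n k) → (∀ k, ((n (k + 1) - n k : ℕ) : ℝ) * d ≤ κ / 4 * n k) →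
    ∀ q : ℕ, 2 * d + 2 ≤ q → ∀ B : ℕ → Zd d → Set ((Zd d → ℝ) × ℝ),
      (∀ k, Bg d ν (Set.Icc a b) (2 ^ n k) (dec q (n k)) (pro κ (n k)) (B k)) →
      ∀ᵐ V ∂(PP d ν), ∀ (x : Zd d) (m : Measure ℝ), IsSpec (-1) V (Pi.single x 1) m →
        ∃ N : Set ℝ, N.Countable ∧ m (Set.Icc a b \ N) = 0

/-- the event that two boxes are both bad at a common energy in `J` -/
def TwoJ {d : ℕ} (x y : Zd d) (l : ℕ) (η : ℝ) (J : Set ℝ) : Set (Zd d → ℝ) :=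
  {V | ∃ E ∈ J, ¬ Dc x l η E V ∧ ¬ Dc y l η E V}

/-- VRJ: `St_VAR` for `Bg` -/
def St_VRJ : Prop :=
  ∀ (d : ℕ), 1 ≤ d → ∀ (C : ℝ≥0) (a a1 b1 b : ℝ), a < a1 → b1 < b → ∀ P q : ℕ,
    ∃ (P' q' n0 : ℕ),
    ∀ (ν : Measure ℝ) [IsProbabilityMeasure ν], ν ≤ C • volume → ∀ n : ℕ, n0 ≤ n →
    ∀ B : Zd d → Set ((Zd d → ℝ) × ℝ), Bg d ν (Set.Icc a b) (2 ^ n) (dec q' n) (pro P' n) B →
      ∀ x y : Zd d, 4 * 2 ^ n < dd x y →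
        (PP d ν) (TwoJ x y (2 ^ n) (dec q n) (Set.Icc a1 b1)) ≤ ENNReal.ofReal (pro P n)

/-- the eigenfunction correlator for energies in `J` -/
noncomputable def corr {d : ℕ} (V : Zd d → ℝ) (J : Set ℝ) (x y : Zd d) : ℝ≥0∞ :=
  ⨆ (n : ℕ) (b : Fin n → L2 (Zd d)) (_ : Orthonormal ℂ b ∧
    ∀ i, ∃ E ∈ J, ∀ w, Hg (-1) V (fun z => b i z) w = (E : ℂ) * b i w),
    ∑ i, ‖b i x‖ₑ * ‖b i y‖ₑ

/-- CRJ: deterministic bound of the correlator -/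
def St_CRJ : Prop :=
  ∀ (d : ℕ) (V : Zd d → ℝ) (J : Set ℝ) (x y : Zd d) (l : ℕ) (η : ℝ), 0 ≤ η →
    (∀ E ∈ J, Dc x l η E V ∨ Dc y l η E V) →
    corr V J x y ≤ ENNReal.ofReal (4 * η * (2 * l + 3 : ℝ) ^ d)

/-- DYJ: polynomial decay of the mean correlator from two-box estimates -/
def St_DYJ : Prop :=
  ∀ (d : ℕ), 1 ≤ d → ∀ (ν : Measure ℝ) [IsProbabilityMeasure ν] (J : Set ℝ) (n : ℕ → ℕ),
    (∀ k, n k < n (k + 1)) → (∀ k, n (k + 1) ≤ 2 * n k) → ∀ P : ℕ,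
    (∀ k, ∀ x y : Zd d, 4 * 2 ^ n k < dd x y →
      (PP d ν) (TwoJ x y (2 ^ n k) (dec (P + d) (n k)) J) ≤ ENNReal.ofReal (pro P (n k))) →
    ∃ A : ℝ, 0 < A ∧ ∀ x y : Zd d, ∫⁻ V, corr V J x y ∂(PP d ν) ≤
      ENNReal.ofReal (A * (1 + ‖x - y‖) ^ (-(P : ℝ) / 2))

/-- energy-resolved mean time averaged probability to be at distance at least `R`: the part of
the energies in `I` in Plancherel's formula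
`(1/T) ∫ e^{-t/T} |U_t(0,y)|² dt = (1/(2πT)) ∫ |G(0,y;E+i/(2T))|² dE` -/
noncomputable def esc {d : ℕ} (ev : (Zd d → ℝ) → UG (L2 (Zd d))) (ν : Measure ℝ)
    [IsProbabilityMeasure ν] (I : Set ℝ) (T R : ℝ) : ℝ≥0∞ :=
  ENNReal.ofReal (1 / (2 * Real.pi * T)) * ∫⁻ E in I, (∫⁻ V, (∑' y : Zd d,
    if R ≤ ‖y‖ then ‖lap (ev V) ((E : ℂ) + (1 / (2 * T) : ℝ) * Complex.I) 0 y‖ₑ ^ 2 else 0)
      ∂(PP d ν))

/-- INJ: the initial scale, energy-resolved -/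
def St_INJ : Prop :=
  ∀ (d : ℕ), 1 ≤ d → ∀ (C : ℝ≥0) (α : ℝ), 0 < α → α * d < 1 → ∃ κ : ℝ, 0 < κ ∧ κ ≤ 1 / 4 ∧
    ∀ (a b b1 : ℝ), b1 < b → ∀ n0 : ℕ, ∃ T0 : ℝ, ∀ T : ℝ, T0 ≤ T →
    ∀ (ν : Measure ℝ) [IsProbabilityMeasure ν], ν ≤ C • volume →
    ∀ ev : (Zd d → ℝ) → UG (L2 (Zd d)), (∀ V, IsGrp (-1) V (ev V)) →
    esc ev ν (Set.Icc a b) T (T ^ α) ≤ ENNReal.ofReal (T ^ (-20 : ℝ)) →
    ∃ (n : ℕ) (B : Zd d → Set ((Zd d → ℝ) × ℝ)), n0 ≤ n ∧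
      Bg d ν (Set.Icc a b1) (2 ^ n) (eta d n) (pro κ n) B

end Pool.Agent.Helper28.Tg
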