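import Pool.Agent.Helper28.Tg.Defs4

/-! # The energy-resolved version: uniform form -/

set_option autoImplicit false

open MeasureTheory Filter Topology
open scoped BigOperators ENNReal NNReal InnerProductSpace ComplexConjugate

namespace Pool.Agent.Helper28.Tg

open Pool.Agent.H4R2.LO (Zd dd bx Hg L2f IsSpec PolyB IsGen)
open Pool.Agent.H5R2.NB (UG L2 dl IsGrp PP)

/-- DYM: `St_DYJ` with a measurable majorant -/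
def St_DYM : Prop :=
  ∀ (d : ℕ), 1 ≤ d → ∀ (ν : Measure ℝ) [IsProbabilityMeasure ν] (J : Set ℝ) (n : ℕ → ℕ),
    (∀ k, n k < n (k + 1)) → (∀ k, n (k + 1) ≤ 2 * n k) → ∀ P : ℕ,
    (∀ k, ∀ x y : Zd d, 4 * 2 ^ n k < dd x y →
      (PP d ν) (TwoJ x y (2 ^ n k) (dec (P + d) (n k)) J) ≤ ENNReal.ofReal (pro P (n k))) →
    ∃ A : ℝ, 0 < A ∧ ∀ x y : Zd d, ∃ g : (Zd d → ℝ) → ℝ≥0∞, Measurable g ∧
      (∀ V, corr V J x y ≤ g V) ∧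
      ∫⁻ V, g V ∂(PP d ν) ≤ ENNReal.ofReal (A * (1 + ‖x - y‖) ^ (-(P : ℝ) / 2))

/-- BSM: one good scale, beyond a scale depending only on `d`, `C` and `κ`, gives pure point
spectrum and decay of the mean correlator -/
def St_BSM : Prop :=
  ∀ (d : ℕ), 1 ≤ d → ∀ (C : ℝ≥0) (κ : ℝ), 0 < κ → κ ≤ 1 / 4 → ∃ n0 : ℕ,
    ∀ (ν : Measure ℝ) [IsProbabilityMeasure ν], ν ≤ C • volume → ∀ (a b : ℝ) (n : ℕ), n0 ≤ n →
    ∀ B : Zd d → Set ((Zd d → ℝ) × ℝ),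
      Bg d ν (Set.Icc a b) (2 ^ n) (eta d n) (pro κ n) B →
    (∀ᵐ V ∂(PP d ν), ∀ (x : Zd d) (m : Measure ℝ), IsSpec (-1) V (Pi.single x 1) m →
      ∃ N : Set ℝ, N.Countable ∧ m (Set.Icc a b \ N) = 0) ∧
    ∀ a1 b1 : ℝ, a < a1 → b1 < b → ∀ P : ℕ, ∃ A : ℝ, 0 < A ∧ ∀ x y : Zd d,
      ∃ g : (Zd d → ℝ) → ℝ≥0∞, Measurable g ∧ (∀ V, corr V (Set.Icc a1 b1) x y ≤ g V) ∧
        ∫⁻ V, g V ∂(PP d ν) ≤ ENNReal.ofReal (A * (1 + ‖x - y‖) ^ (-(P : ℝ) / 2))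

/-- PLA: Plancherel's formula for one matrix element -/
def St_PLA : Prop :=
  ∀ (d : ℕ) (W : UG (L2 (Zd d))) (T : ℝ), 0 < T → ∀ x y : Zd d,
    ENNReal.ofReal (1 / (2 * Real.pi * T)) * ∫⁻ E : ℝ,
      ‖lap W ((E : ℂ) + (1 / (2 * T) : ℝ) * Complex.I) x y‖ₑ ^ 2 =
    ∫⁻ t in Set.Ioi (0 : ℝ), ENNReal.ofReal (Real.exp (-(t / T)) / T) *
      ‖(W.U t (dl x)) y‖ₑ ^ 2

/-- ESC: the energy-resolved probability is at most the total one, with equality for all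
energies -/
def St_ESC : Prop :=
  ∀ (d : ℕ) (ν : Measure ℝ) [IsProbabilityMeasure ν] (ev : (Zd d → ℝ) → UG (L2 (Zd d))),
    (∀ V, IsGrp (-1) V (ev V)) → ∀ T R : ℝ, 0 < T →
    (∀ I : Set ℝ, esc ev ν I T R ≤ tail ev ν T R) ∧ esc ev ν Set.univ T R = tail ev ν T R

end Pool.Agent.Helper28.Tg
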