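import Pool.Agent.Helper28.Tg.Defs6
import Pool.Agent.Helper8.Stp.Det

/-! # Exponential decay: statements of the parts (multiscale analysis with variable energy) -/

set_option autoImplicit false

open MeasureTheory Filter Topology
open scoped BigOperators ENNReal NNReal InnerProductSpace ComplexConjugate

namespace Pool.Agent.Helper28.Tg

open Pool.Agent.H4R2.LO (Zd dd bx Hg L2f IsSpec PolyB IsGen)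
open Pool.Agent.H5R2.NB (UG L2 dl IsGrp PP)
open Pool.Agent.Helper8.Stp (Res)

/-- solutions in the box of radius `l` at `x` are small at the centre: factor `exp(-ρ)` -/
def Ce {d : ℕ} (x : Zd d) (l : ℕ) (ρ E : ℝ) (V : Zd d → ℝ) : Prop :=
  ∀ ψ : Zd d → ℝ, (∀ y, dd x y ≤ l → Hr V ψ y = E * ψ y) →
    ∀ b : ℝ, (∀ y, dd x y ≤ l + 1 → |ψ y| ≤ b) → |ψ x| ≤ Real.exp (-ρ) * b

/-- a family of bad sets at scale `l`, with the probability estimate for pairs of boxes which are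
bad at a common energy of `J` -/
structure Bt (d : ℕ) (ν : Measure ℝ) [IsProbabilityMeasure ν] (J : Set ℝ) (l : ℕ) (ρ p : ℝ)
    (B : Zd d → Set ((Zd d → ℝ) × ℝ)) : Prop where
  op : ∀ x E, IsOpen {V | (V, E) ∈ B x}
  loc : ∀ x V V' E, (∀ y, dd x y ≤ 2 * l → V y = V' y) → (V, E) ∈ B x → (V', E) ∈ B x
  pr : ∀ x y, 4 * l < dd x y →
    (PP d ν) {V | ∃ E ∈ J, (V, E) ∈ B x ∧ (V, E) ∈ B y} ≤ ENNReal.ofReal p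
  ce : ∀ x V E, (V, E) ∉ B x → Ce x l ρ E V

/-- VRE: from fixed energy to variable energy (`St_VRJ` in the form `Bt`) -/
def St_VRE : Prop :=
  ∀ (d : ℕ), 1 ≤ d → ∀ (C : ℝ≥0) (a a1 b1 b : ℝ), a < a1 → b1 < b → ∀ P q : ℕ,
    ∃ (P' q' n0 : ℕ),
    ∀ (ν : Measure ℝ) [IsProbabilityMeasure ν], ν ≤ C • volume → ∀ n : ℕ, n0 ≤ n →
    ∀ B : Zd d → Set ((Zd d → ℝ) × ℝ), Bg d ν (Set.Icc a b) (2 ^ n) (dec q' n) (pro P' n) B →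
      ∃ B' : Zd d → Set ((Zd d → ℝ) × ℝ),
        Bt d ν (Set.Icc a1 b1) (2 ^ n) (q * n * Real.log 2) (pro P n) B'

/-- DES: deterministic step, with at most three separated bad boxes -/
def St_DES : Prop :=
  ∀ (d : ℕ), 1 ≤ d → ∀ (l L : ℕ), 1 ≤ l → 300 * l ≤ L → ∀ (x : Zd d) (V : Zd d → ℝ)
    (E ρ δ : ℝ), 0 ≤ ρ → 0 < δ → δ⁻¹ * (100 * l : ℝ) ^ d * (2 * d * Real.exp (-ρ)) ≤ 1 / 2 →
    ∀ bad : Zd d → Prop, (∀ c, ¬ bad c → Ce c l ρ E V) →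
    (∀ c : Fin 4 → Zd d, (∀ i, dd x (c i) ≤ L) → (∀ i j, i ≠ j → 4 * l < dd (c i) (c j)) →
      ∃ i, ¬ bad (c i)) →
    (∀ c, dd x c ≤ L → ∀ k ∈ ({1, 2, 3} : Finset ℕ), (V, E) ∉ Res c (16 * k * l) δ) →
    Ce x L (ρ * (L - 300 * l) / (l + 1)) E V

/-- BTS: one step of the multiscale analysis with variable energy -/
def St_BTS : Prop :=
  ∀ (d : ℕ), 1 ≤ d → ∀ (C : ℝ≥0) (a b : ℝ) (P : ℕ), 14 * d ≤ P → ∃ n0 : ℕ,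
    ∀ (ν : Measure ℝ) [IsProbabilityMeasure ν], ν ≤ C • volume → ∀ n s : ℕ, n0 ≤ n →
    n ≤ 4 * s → 2 * s ≤ n → ∀ ρ : ℝ, (2 * P + 10 * d + 10 : ℝ) * n ≤ ρ →
    ∀ B : Zd d → Set ((Zd d → ℝ) × ℝ), Bt d ν (Set.Icc a b) (2 ^ n) ρ (pro P n) B →
      ∃ B' : Zd d → Set ((Zd d → ℝ) × ℝ), Bt d ν (Set.Icc a b) (2 ^ (n + s))
        (ρ * (2 ^ (n + s) - 300 * 2 ^ n) / (2 ^ n + 1)) (pro P (n + s)) B'

/-- SEQ: exponential decay at a sequence of scales -/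
def St_SEQ : Prop :=
  ∀ (d : ℕ), 1 ≤ d → ∀ (C : ℝ≥0) (a b : ℝ) (P : ℕ), 14 * d ≤ P → ∃ q n0 : ℕ,
    ∀ (ν : Measure ℝ) [IsProbabilityMeasure ν], ν ≤ C • volume → ∀ n : ℕ, n0 ≤ n →
    ∀ B : Zd d → Set ((Zd d → ℝ) × ℝ),
      Bt d ν (Set.Icc a b) (2 ^ n) (q * n * Real.log 2) (pro P n) B →
      ∃ m : ℝ, 0 < m ∧ ∃ (nn : ℕ → ℕ) (BB : ℕ → Zd d → Set ((Zd d → ℝ) × ℝ)),
        (∀ k, 1 ≤ nn k) ∧ (∀ k, nn k < nn (k + 1)) ∧ (∀ k, nn (k + 1) ≤ 2 * nn k) ∧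
        ∀ k, Bt d ν (Set.Icc a b) (2 ^ nn k) (m * 2 ^ nn k) (pro P (nn k)) (BB k)

/-- GEX: exponential decay of the polynomially bounded generalised eigenfunctions -/
def St_GEX : Prop :=
  ∀ (d : ℕ), 1 ≤ d → ∀ (ν : Measure ℝ) [IsProbabilityMeasure ν] (a b : ℝ) (P : ℕ),
    14 * d ≤ P → ∀ m : ℝ, 0 < m → ∀ (nn : ℕ → ℕ) (BB : ℕ → Zd d → Set ((Zd d → ℝ) × ℝ)),
    (∀ k, 1 ≤ nn k) → (∀ k, nn k < nn (k + 1)) → (∀ k, nn (k + 1) ≤ 2 * nn k) →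
    (∀ k, Bt d ν (Set.Icc a b) (2 ^ nn k) (m * 2 ^ nn k) (pro P (nn k)) (BB k)) →
    ∃ c : ℝ, 0 < c ∧ ∀ᵐ V ∂(PP d ν), ∀ E ∈ Set.Icc a b, ∀ ψ : Zd d → ℂ, PolyB ψ →
      IsGen (-1) V E ψ → ∃ A : ℝ, ∀ x, ‖ψ x‖ ≤ A * Real.exp (-(c * ‖x‖))

/-- EXP: exponential decay of the eigenfunctions from one good scale -/
def St_EXP : Prop :=
  ∀ (d : ℕ), 1 ≤ d → ∀ (C : ℝ≥0) (κ : ℝ), 0 < κ → κ ≤ 1 / 4 → ∃ n0 : ℕ,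
    ∀ (ν : Measure ℝ) [IsProbabilityMeasure ν], ν ≤ C • volume → ∀ (a b : ℝ) (n : ℕ), n0 ≤ n →
    ∀ B : Zd d → Set ((Zd d → ℝ) × ℝ),
      Bg d ν (Set.Icc a b) (2 ^ n) (eta d n) (pro κ n) B →
    ∀ a1 b1 : ℝ, a < a1 → b1 < b → ∃ c : ℝ, 0 < c ∧
      ∀ᵐ V ∂(PP d ν), ∀ E ∈ Set.Icc a1 b1, ∀ ψ : Zd d → ℂ, PolyB ψ →
        IsGen (-1) V E ψ → ∃ A : ℝ, ∀ x, ‖ψ x‖ ≤ A * Real.exp (-(c * ‖x‖))

end Pool.Agent.Helper28.Tg
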