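import Pool.Agent.Helper28.Tg.Defs5

/-! # Existence of the spectral measures -/

set_option autoImplicit false

open MeasureTheory Filter Topology
open scoped BigOperators ENNReal NNReal InnerProductSpace ComplexConjugate

namespace Pool.Agent.Helper28.Tg

open Pool.Agent.H4R2.LO (Zd dd bx Hg L2f IsSpec PolyB IsGen)
open Pool.Agent.H5R2.NB (UG L2 dl IsGrp PP)

/-- SPE: existence of the spectral measures, for arbitrary (also unbounded) potentials -/
def St_SPE : Prop :=
  ∀ (d : ℕ) (V : Zd d → ℝ) (x : Zd d), ∃ m : Measure ℝ, IsProbabilityMeasure m ∧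
    IsSpec (-1) V (Pi.single x 1) m

end Pool.Agent.Helper28.Tg
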