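import Pool.Agent.Helper28.Tg.Lap
import Pool.Graph.R_seed8.H5R2.NB.UN
import Pool.Graph.R_seed8.H5R2.NB.COV
import Pool.Graph.R_seed8.H5R2.NB.RES

/-! # Probability of a large amplitude -/

set_option autoImplicit false

open MeasureTheory Filter Topology
open scoped BigOperators ENNReal NNReal InnerProductSpace ComplexConjugate

namespace Pool.Agent.Helper28.Tg

open Pool.Agent.H4R2.LO (Zd dd bx Hg L2f IsSpec PolyB IsGen)
open Pool.Agent.H5R2.NB (UG L2 dl IsGrp PP IsShift)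

namespace Amp

/-- covariance of the matrix elements -/
theorem cov {d : ℕ} {c : ℝ} {ev : (Zd d → ℝ) → UG (L2 (Zd d))} (hev : ∀ V, IsGrp c V (ev V))
    (V : Zd d → ℝ) (u w : Zd d) (t : ℝ) :
    ((ev V).U t (dl u)) w = ((ev fun y => V (y + u)).U t (dl 0)) (w - u) := by
  obtain ⟨S, hS⟩ := (Pool.Agent.H5R2.NB.t_OPS d).1 u
  have h1 := Pool.Agent.H5R2.NB.t_COV (Pool.Agent.H5R2.NB.t_UN Pool.Agent.H5R2.NB.t_OPS)
    d c ev hev u S hS V t (dl u)
  have h2 : S (dl u) = dl 0 := by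
    apply lp.ext
    funext x
    rw [hS]
    unfold dl
    rw [lp.single_apply, lp.single_apply]
    by_cases h : x = 0
    · subst h
      simp
    · have h3 : x + u ≠ u := by
        intro h4
        exact h (by simpa using h4)
      simp [h, h3]
  rw [h2] at h1
  rw [h1, hS, sub_add_cancel]

theorem amp_cov {d : ℕ} {c : ℝ} {ev : (Zd d → ℝ) → UG (L2 (Zd d))}
    (hev : ∀ V, IsGrp c V (ev V)) (V : Zd d → ℝ) (u w : Zd d) (η : ℝ) :
    amp (ev V) η u w = amp (ev fun y => V (y + u)) η 0 (w - u) := by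
  unfold amp
  refine integral_congr_ae (Eventually.of_forall fun t => ?_)
  simp only [cov hev V u w t]

/-- the time averaged probability at one site -/
noncomputable def Qr {d : ℕ} (W : UG (L2 (Zd d))) (T : ℝ) (y : Zd d) : ℝ :=
  ∫ t in Set.Ioi (0 : ℝ), Real.exp (-(t / T)) / T * ‖(W.U t (dl 0)) y‖ ^ 2

theorem Qr_int {d : ℕ} (W : UG (L2 (Zd d))) (T : ℝ) (hT : 0 < T) (y : Zd d) :
    IntegrableOn (fun t : ℝ => Real.exp (-(t / T)) / T * ‖(W.U t (dl 0)) y‖ ^ 2)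
      (Set.Ioi 0) := by
  have h1 := (Lap.exp_int (inv_pos.2 hT)).div_const T
  have hc : Continuous fun t : ℝ => (W.U t (dl 0)) y :=
    (Lap.ev y).continuous.comp (W.cont' (dl 0))
  refine Integrable.mono' h1 ?_ ?_
  · refine Continuous.aestronglyMeasurable ?_
    exact Continuous.mul (by fun_prop) (hc.norm.pow 2)
  · refine Eventually.of_forall fun t => ?_
    have h2 := Lap.ut_le W t 0 y
    have h3 : Real.exp (-(t / T)) / T = Real.exp (-(T⁻¹ * t)) / T := by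
      congr 3
      ring
    rw [Real.norm_of_nonneg (by positivity), h3]
    refine mul_le_of_le_one_right (by positivity) ?_
    exact pow_le_one₀ (norm_nonneg _) h2

theorem amp_le {d : ℕ} (W : UG (L2 (Zd d))) (T : ℝ) (hT : 0 < T) (y : Zd d) (a : ℝ)
    (ha : 0 < a) : amp W (1 / T) 0 y ≤ (a * T + T / a * Qr W T y) / 2 := by
  have h1 := Lap.exp_int (inv_pos.2 hT)
  have h2 := Qr_int W T hT y
  have hc : Continuous fun t : ℝ => (W.U t (dl 0)) y :=
    (Lap.ev y).continuous.comp (W.cont' (dl 0))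
  have hI : ∫ t in Set.Ioi (0 : ℝ), Real.exp (-(T⁻¹ * t)) = T := by
    have := integral_exp_mul_Ioi (neg_lt_zero.2 (inv_pos.2 hT)) 0
    have h3 : ∀ t : ℝ, Real.exp (-(T⁻¹ * t)) = Real.exp (-T⁻¹ * t) := fun t => by
      rw [neg_mul]
    simp only [h3]
    rw [this]
    simp
  have h4 : (a * T + T / a * Qr W T y) / 2 = ∫ t in Set.Ioi (0 : ℝ),
      (a / 2 * Real.exp (-(T⁻¹ * t)) + T / a / 2 *
        (Real.exp (-(t / T)) / T * ‖(W.U t (dl 0)) y‖ ^ 2)) := by
    have h5 : ∫ t in Set.Ioi (0 : ℝ), (a / 2 * Real.exp (-(T⁻¹ * t)) + T / a / 2 *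
        (Real.exp (-(t / T)) / T * ‖(W.U t (dl 0)) y‖ ^ 2)) =
        (∫ t in Set.Ioi (0 : ℝ), a / 2 * Real.exp (-(T⁻¹ * t))) +
        ∫ t in Set.Ioi (0 : ℝ), T / a / 2 *
          (Real.exp (-(t / T)) / T * ‖(W.U t (dl 0)) y‖ ^ 2) :=
      integral_add (h1.const_mul _) (h2.const_mul _)
    rw [h5, integral_const_mul, integral_const_mul, hI]
    unfold Qr
    ring
  rw [h4]
  unfold amp
  refine setIntegral_mono_on ?_ ?_ measurableSet_Ioi ?_
  · refine Integrable.mono' h1 ?_ ?_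
    · refine Continuous.aestronglyMeasurable ?_
      exact Continuous.mul (by fun_prop) hc.norm
    · refine Eventually.of_forall fun t => ?_
      rw [norm_mul, norm_norm, Real.norm_of_nonneg (Real.exp_pos _).le, one_div]
      exact mul_le_of_le_one_right (Real.exp_pos _).le (Lap.ut_le _ _ _ _)
  · exact (h1.const_mul _).add (h2.const_mul _)
  · intro t _
    set r := ‖(W.U t (dl 0)) y‖
    have e1 : Real.exp (-(1 / T * t)) = Real.exp (-(T⁻¹ * t)) := by rw [one_div]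
    have e2 : Real.exp (-(t / T)) = Real.exp (-(T⁻¹ * t)) := by
      congr 2
      ring
    rw [e1, e2]
    have h6 : r ≤ a / 2 + 1 / a / 2 * r ^ 2 := by
      have h7 : a / 2 + 1 / a / 2 * r ^ 2 - r = (a - r) ^ 2 / (2 * a) := by
        field_simp
        ring
      have h8 : 0 ≤ (a - r) ^ 2 / (2 * a) := by positivity
      linarith
    have h9 : a / 2 * Real.exp (-(T⁻¹ * t)) + T / a / 2 * (Real.exp (-(T⁻¹ * t)) / T * r ^ 2) =
        Real.exp (-(T⁻¹ * t)) * (a / 2 + 1 / a / 2 * r ^ 2) := by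
      field_simp
    rw [h9]
    exact mul_le_mul_of_nonneg_left h6 (Real.exp_pos _).le

theorem Qr_gt {d : ℕ} (W : UG (L2 (Zd d))) (T : ℝ) (hT : 0 < T) (y : Zd d) (ε0 : ℝ)
    (hε : 0 < ε0) (h : ε0 < amp W (1 / T) 0 y) : ε0 ^ 2 / T ^ 2 ≤ Qr W T y := by
  have h1 := amp_le W T hT y (ε0 / T) (by positivity)
  have h2 : (ε0 / T * T + T / (ε0 / T) * Qr W T y) / 2 =
      ε0 / 2 + T ^ 2 / ε0 * Qr W T y / 2 := by
    field_simp
  rw [h2] at h1
  have h3 : ε0 < T ^ 2 / ε0 * Qr W T y := by linarith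
  rw [div_le_iff₀ (by positivity)]
  have h4 : T ^ 2 / ε0 * Qr W T y = (Qr W T y * T ^ 2) / ε0 := by ring
  rw [h4, lt_div_iff₀ hε] at h3
  nlinarith

/-- the extended version -/
noncomputable def Qe {d : ℕ} (W : UG (L2 (Zd d))) (T : ℝ) (y : Zd d) : ℝ≥0∞ :=
  ∫⁻ t in Set.Ioi (0 : ℝ), ENNReal.ofReal (Real.exp (-(t / T)) / T) * ‖(W.U t (dl 0)) y‖ₑ ^ 2

theorem Qe_eq {d : ℕ} (W : UG (L2 (Zd d))) (T : ℝ) (hT : 0 < T) (y : Zd d) :
    Qe W T y = ENNReal.ofReal (Qr W T y) := by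
  unfold Qe Qr
  rw [ofReal_integral_eq_lintegral_ofReal (Qr_int W T hT y)
    (Eventually.of_forall fun t => by positivity)]
  refine lintegral_congr fun t => ?_
  rw [ENNReal.ofReal_mul (by positivity), ENNReal.ofReal_pow (norm_nonneg _), ofReal_norm]

theorem Qe_meas {d : ℕ} {c : ℝ} {ev : (Zd d → ℝ) → UG (L2 (Zd d))}
    (hev : ∀ V, IsGrp c V (ev V)) (T : ℝ) (y : Zd d) :
    Measurable fun V => Qe (ev V) T y := by
  unfold Qe
  have h1 : Measurable fun p : (Zd d → ℝ) × ℝ =>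
      ENNReal.ofReal (Real.exp (-(p.2 / T)) / T) * ‖((ev p.1).U p.2 (dl 0)) y‖ₑ ^ 2 := by
    have ha : Measurable fun p : (Zd d → ℝ) × ℝ =>
        ENNReal.ofReal (Real.exp (-(p.2 / T)) / T) := by fun_prop
    have hb : Measurable fun p : (Zd d → ℝ) × ℝ => ‖((ev p.1).U p.2 (dl 0)) y‖ₑ ^ 2 :=
      ((Lap.ut_cont hev 0 y).enorm.measurable).pow_const 2
    exact ha.mul hb
  exact h1.lintegral_prod_right'

/-- **the amplitude is small with large probability** -/
theorem pr_amp {d : ℕ} (ν : Measure ℝ) [IsProbabilityMeasure ν] {c : ℝ}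
    {ev : (Zd d → ℝ) → UG (L2 (Zd d))} (hev : ∀ V, IsGrp c V (ev V)) (T : ℝ) (hT : 0 < T)
    (R ε0 : ℝ) (hε : 0 < ε0) (u w : Zd d) (hR : R ≤ ‖w - u‖) :
    (PP d ν) {V | ε0 < amp (ev V) (1 / T) u w} ≤
      ENNReal.ofReal (T ^ 2 / ε0 ^ 2) * tail ev ν T R := by
  have hmp := (Pool.Agent.H5R2.NB.t_RES d ν).2 u
  have hmeas : MeasurableSet {V : Zd d → ℝ | ε0 < amp (ev V) (1 / T) 0 (w - u)} := by
    have := t_ACT d c ev hev (1 / T) (by positivity) 0 (w - u)
    exact (isOpen_lt continuous_const this).measurableSet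
  have h1 : (PP d ν) {V | ε0 < amp (ev V) (1 / T) u w} =
      (PP d ν) {V | ε0 < amp (ev V) (1 / T) 0 (w - u)} := by
    rw [← hmp.measure_preimage hmeas.nullMeasurableSet]
    congr 1
    ext V
    simp only [Set.mem_ofPred_eq, Set.mem_preimage]
    rw [amp_cov hev V u w]
  rw [h1]
  have h2 : {V : Zd d → ℝ | ε0 < amp (ev V) (1 / T) 0 (w - u)} ⊆
      {V | ENNReal.ofReal (ε0 ^ 2 / T ^ 2) ≤ Qe (ev V) T (w - u)} := by
    intro V hV
    simp only [Set.mem_ofPred_eq] at hV ⊢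
    rw [Qe_eq _ _ hT]
    exact ENNReal.ofReal_le_ofReal (Qr_gt _ T hT _ ε0 hε hV)
  refine (measure_mono h2).trans ?_
  have h3 : ∫⁻ V, Qe (ev V) T (w - u) ∂(PP d ν) ≤ tail ev ν T R := by
    unfold tail Qe
    refine lintegral_mono fun V => lintegral_mono fun t => ?_
    refine mul_le_mul_right ?_ _
    have h4 := ENNReal.le_tsum (f := fun y : Zd d =>
      if R ≤ ‖y‖ then ‖((ev V).U t (dl 0)) y‖ₑ ^ 2 else 0) (w - u)
    simp only [if_pos hR] at h4
    exact h4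
  have h5 := meas_ge_le_lintegral_div (μ := PP d ν) (Qe_meas hev T (w - u)).aemeasurable
    (ε := ENNReal.ofReal (ε0 ^ 2 / T ^ 2)) (by
      rw [Ne, ENNReal.ofReal_eq_zero, not_le]; positivity) ENNReal.ofReal_ne_top
  refine h5.trans ?_
  rw [ENNReal.div_eq_inv_mul, ← ENNReal.ofReal_inv_of_pos (by positivity), inv_div]
  gcongr

end Amp

end Pool.Agent.Helper28.Tg
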