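import Pool.Agent.Helper28.Tg.Ini2
import Pool.Agent.Helper28.Tg.Defs2
import Pool.Agent.Helper8.Stp.Main
import Pool.Agent.Helper8.Stp.Fin
import Pool.Agent.Helper18.Tg.Gef
import Pool.Agent.Helper18.Tg.Avg
import Pool.Agent.LeadW.PPS.B

/-! # Slow transport implies pure point spectrum -/

set_option autoImplicit false

open MeasureTheory Filter Topology
open scoped BigOperators ENNReal NNReal InnerProductSpace ComplexConjugate

namespace Pool.Agent.Helper28.Tg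

open Pool.Agent.H4R2.LO (Zd dd bx Hg L2f IsSpec PolyB IsGen)
open Pool.Agent.H5R2.NB (UG L2 dl IsGrp PP)

theorem x_PPS : St_PPS := @Pool.Agent.LeadW.PPS.t_PPS

theorem x_FIN : St_FIN :=
  Pool.Agent.Helper8.Stp.t_FIN Pool.Agent.Helper18.Tg.t_AVG Pool.Agent.Helper18.Tg.t_GEF

/-- almost sure boundedness -/
theorem ae_bdd {d : ℕ} (ν : Measure ℝ) [IsProbabilityMeasure ν] (K : ℝ)
    (hK : ν (Set.Icc (-K) K)ᶜ = 0) : ∀ᵐ V ∂(PP d ν), ∀ x, |V x| ≤ K := by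
  rw [ae_all_iff]
  intro x
  have h1 : MeasurePreserving (fun V : Zd d → ℝ => V x) (PP d ν) ν :=
    measurePreserving_eval_infinitePi (fun _ : Zd d => ν) x
  have h2 : ∀ᵐ r ∂ν, r ∈ Set.Icc (-K) K := by
    rw [ae_iff]
    exact hK
  filter_upwards [h1.quasiMeasurePreserving.ae h2] with V hV
  exact abs_le.2 ⟨hV.1, hV.2⟩

/-- a sequence of scales from a step -/
theorem scales {d : ℕ} (ν : Measure ℝ) [IsProbabilityMeasure ν] (dcy : ℕ → ℝ) (prb : ℕ → ℝ)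
    (sf : ℕ → ℕ) (N : ℕ)
    (hstep : ∀ n, N ≤ n → ∀ B : Zd d → Set ((Zd d → ℝ) × ℝ), Bf d ν (2 ^ n) (dcy n) (prb n) B →
      ∃ B' : Zd d → Set ((Zd d → ℝ) × ℝ), Bf d ν (2 ^ (n + sf n)) (dcy (n + sf n))
        (prb (n + sf n)) B') (n0 : ℕ) (hn0 : N ≤ n0) (B0 : Zd d → Set ((Zd d → ℝ) × ℝ))
    (hB0 : Bf d ν (2 ^ n0) (dcy n0) (prb n0) B0) :
    ∃ (n : ℕ → ℕ) (B : ℕ → Zd d → Set ((Zd d → ℝ) × ℝ)), n 0 = n0 ∧ (∀ k, N ≤ n k) ∧
      (∀ k, n (k + 1) = n k + sf (n k)) ∧ ∀ k, Bf d ν (2 ^ n k) (dcy (n k)) (prb (n k)) (B k) := by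
  let S := {p : ℕ × (Zd d → Set ((Zd d → ℝ) × ℝ)) //
    N ≤ p.1 ∧ Bf d ν (2 ^ p.1) (dcy p.1) (prb p.1) p.2}
  have h1 : ∀ p : S, ∃ q : S, q.1.1 = p.1.1 + sf p.1.1 := by
    intro p
    obtain ⟨B', hB'⟩ := hstep p.1.1 p.2.1 p.1.2 p.2.2
    exact ⟨⟨(p.1.1 + sf p.1.1, B'), by have := p.2.1; simp only; omega, hB'⟩, rfl⟩
  choose g hg using h1
  let p0 : S := ⟨(n0, B0), hn0, hB0⟩
  refine ⟨fun k => (g^[k] p0).1.1, fun k => (g^[k] p0).1.2, rfl, fun k => (g^[k] p0).2.1,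
    fun k => ?_, fun k => (g^[k] p0).2.2⟩
  simp only [Function.iterate_succ_apply']
  exact hg _

/-- the floor function for the step -/
theorem floor_step (τ : ℝ) (hτ : 0 < τ) (n : ℕ) (hn : 2 / τ ≤ n) :
    (⌊τ * n⌋₊ : ℝ) ≤ τ * n ∧ τ * n / 2 ≤ (⌊τ * n⌋₊ : ℝ) ∧ 1 ≤ ⌊τ * n⌋₊ := by
  have h1 : 2 ≤ τ * n := by
    rw [div_le_iff₀ hτ] at hn
    linarith
  have h2 : (⌊τ * n⌋₊ : ℝ) ≤ τ * n := Nat.floor_le (by linarith)
  have h3 : τ * n < (⌊τ * n⌋₊ : ℝ) + 1 := Nat.lt_floor_add_one _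
  refine ⟨h2, by linarith, ?_⟩
  exact Nat.le_floor (by push_cast; linarith)

/-- **pure point spectrum from slow transport along a sequence of times** -/
theorem base (d : ℕ) (hd : 1 ≤ d) (ν : Measure ℝ) [IsProbabilityMeasure ν] (C : ℝ≥0)
    (hC : ν ≤ C • volume) (K : ℝ) (hK : ν (Set.Icc (-K) K)ᶜ = 0)
    (ev : (Zd d → ℝ) → UG (L2 (Zd d))) (hev : ∀ V, IsGrp (-1) V (ev V))
    (α : ℝ) (hα : 0 < α) (hαd : α * d < 1)
    (hfr : ∃ᶠ T : ℝ in atTop, tail ev ν T (T ^ α) ≤ ENNReal.ofReal (T ^ (-20 : ℝ))) :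
    ∀ᵐ V ∂(PP d ν), Tot V := by
  obtain ⟨κ, hκ0, hκ4, hini⟩ := t_INI d hd C α hα hαd
  obtain ⟨n0, hstp⟩ := Pool.Agent.Helper8.Stp.t_STP d hd C κ hκ0 hκ4
  have hd0 : (0 : ℝ) < d := by exact_mod_cast hd
  have hd1 : (1 : ℝ) ≤ d := by exact_mod_cast hd
  set τ : ℝ := κ / (8 * d) with hτ
  have hτ0 : 0 < τ := by positivity
  obtain ⟨N1, hN1⟩ : ∃ N1 : ℕ, 2 / τ ≤ N1 := exists_nat_ge _
  set N := max (max n0 N1) 1 with hN
  obtain ⟨T0, hT0⟩ := hini N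
  obtain ⟨T, htail, hT⟩ := (hfr.and_eventually (eventually_ge_atTop T0)).exists
  obtain ⟨n, B, hn, hB⟩ := hT0 T hT ν hC ev hev htail
  have hfl : ∀ n : ℕ, N ≤ n → (⌊τ * n⌋₊ : ℝ) ≤ τ * n ∧ τ * n / 2 ≤ (⌊τ * n⌋₊ : ℝ) ∧
      1 ≤ ⌊τ * n⌋₊ := by
    intro n hn
    refine floor_step τ hτ0 n (hN1.trans ?_)
    have : N1 ≤ n := by omega
    exact_mod_cast this
  obtain ⟨nn, BB, h0, h1, h2, h3⟩ := scales ν (fun n => eta d n) (fun n => pro κ n)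
    (fun n => ⌊τ * n⌋₊) N (fun n hn B hB => by
      refine hstp ν hC n _ (by omega) ?_ ?_ B hB
      · have := (hfl n hn).1
        calc ((⌊τ * n⌋₊ : ℕ) : ℝ) ≤ τ * n := this
          _ = κ * n / (8 * d) := by rw [hτ]; ring
      · have := (hfl n hn).2.1
        calc κ * n / (16 * d) = τ * n / 2 := by rw [hτ]; field_simp; ring
          _ ≤ _ := this) n hn B hB
  have hFIN := x_FIN d hd ν C hC κ hκ0 nn (fun k => by have := h1 k; omega)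
    (fun k => by
      have := (hfl (nn k) (h1 k)).2.2
      rw [h2 k]
      omega)
    (fun k => by
      have h4 := (hfl (nn k) (h1 k)).1
      have h5 : τ ≤ 1 := by
        rw [hτ, div_le_one (by positivity)]
        nlinarith
      have h6 : ((⌊τ * nn k⌋₊ : ℕ) : ℝ) ≤ nn k := by
        have : (0 : ℝ) ≤ nn k := Nat.cast_nonneg _
        nlinarith
      have h7 : ⌊τ * nn k⌋₊ ≤ nn k := by exact_mod_cast h6
      rw [h2 k]
      omega)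
    (fun k => by
      have h4 := (hfl (nn k) (h1 k)).1
      have h5 : nn (k + 1) - nn k = ⌊τ * nn k⌋₊ := by
        rw [h2 k]
        omega
      rw [h5]
      have h6 : (0 : ℝ) ≤ nn k := Nat.cast_nonneg _
      calc ((⌊τ * nn k⌋₊ : ℕ) : ℝ) * d ≤ τ * nn k * d := by gcongr
        _ = κ / 8 * nn k := by rw [hτ]; field_simp
        _ ≤ κ / 4 * nn k := by
            refine mul_le_mul_of_nonneg_right ?_ h6
            linarith)
    BB h3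
  filter_upwards [hFIN, ae_bdd (d := d) ν K hK] with V hV hbd
  exact x_PPS d V K hbd hV

end Pool.Agent.Helper28.Tg
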