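import Pool.Graph.R_seed8.H4R2.LO.Defs
import Pool.Graph.R_seed8.H5R2.NB.Defs

/-! # Transport gap for the Anderson model: definitions and statements of the parts -/

set_option autoImplicit false

open MeasureTheory Filter Topology
open scoped BigOperators ENNReal NNReal InnerProductSpace ComplexConjugate

namespace Pool.Agent.Helper28.Tg

open Pool.Agent.H4R2.LO (Zd dd bx Hg L2f IsSpec PolyB IsGen)
open Pool.Agent.H5R2.NB (UG L2 dl IsGrp PP)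

/-- the real Hamiltonian `-(sum over neighbours) + V` -/
noncomputable def Hr {d : ℕ} (V f : Zd d → ℝ) (x : Zd d) : ℝ :=
  -(∑ i : Fin d, (f (x + Pi.single i 1) + f (x - Pi.single i 1))) + V x * f x

/-- the box of radius `l` at `x` is good at energy `E`: solutions in the box are small in the
core, compared to their maximum -/
def Dc {d : ℕ} (x : Zd d) (l : ℕ) (η E : ℝ) (V : Zd d → ℝ) : Prop :=
  ∀ ψ : Zd d → ℝ, (∀ y, dd x y ≤ l → Hr V ψ y = E * ψ y) →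
    ∀ b : ℝ, (∀ y, dd x y ≤ l + 1 → |ψ y| ≤ b) → ∀ u, 2 * dd x u ≤ l → |ψ u| ≤ η * b

/-- a family of bad sets at scale `l` -/
structure Bf (d : ℕ) (ν : Measure ℝ) [IsProbabilityMeasure ν] (l : ℕ) (η p : ℝ)
    (B : Zd d → Set ((Zd d → ℝ) × ℝ)) : Prop where
  op : ∀ x, IsOpen (B x)
  loc : ∀ x V V' E, (∀ y, dd x y ≤ 2 * l → V y = V' y) → (V, E) ∈ B x → (V', E) ∈ B x
  pr : ∀ x E, (PP d ν) {V | (V, E) ∈ B x} ≤ ENNReal.ofReal p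
  dc : ∀ x V E, (V, E) ∉ B x → Dc x l η E V

/-- the decay at scale `2^n` -/
noncomputable def eta (d n : ℕ) : ℝ := ((2 : ℝ) ^ ((2 * d + 2) * n))⁻¹

/-- the probability at scale `2^n` -/
noncomputable def pro (κ : ℝ) (n : ℕ) : ℝ := (2 : ℝ) ^ (-(κ * n))

/-- the matrix elements of the resolvent, by the Laplace transform -/
noncomputable def lap {d : ℕ} (W : UG (L2 (Zd d))) (z : ℂ) (x y : Zd d) : ℂ :=
  Complex.I * ∫ t in Set.Ioi (0 : ℝ), Complex.exp (Complex.I * z * t) * (W.U t (dl x)) y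

/-- `∫ e^{-ηt} |U_t(x,y)| dt` -/
noncomputable def amp {d : ℕ} (W : UG (L2 (Zd d))) (η : ℝ) (x y : Zd d) : ℝ :=
  ∫ t in Set.Ioi (0 : ℝ), Real.exp (-(η * t)) * ‖(W.U t (dl x)) y‖

/-- mean time averaged probability to be at distance at least `R` -/
noncomputable def tail {d : ℕ} (ev : (Zd d → ℝ) → UG (L2 (Zd d))) (ν : Measure ℝ)
    [IsProbabilityMeasure ν] (T R : ℝ) : ℝ≥0∞ :=
  ∫⁻ V, (∫⁻ t in Set.Ioi (0 : ℝ), ENNReal.ofReal (Real.exp (-(t / T)) / T) *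
    ∑' y : Zd d, (if R ≤ ‖y‖ then ‖((ev V).U t (dl 0)) y‖ₑ ^ 2 else 0)) ∂(PP d ν)

/-- LAP: the Laplace transform is the resolvent -/
def St_LAP : Prop :=
  ∀ (d : ℕ) (c : ℝ) (V : Zd d → ℝ) (W : UG (L2 (Zd d))), IsGrp c V W → ∀ z : ℂ, 0 < z.im →
    ∀ x, L2f (lap W z x) ∧
      ∀ y, Hg c V (lap W z x) y - z * lap W z x y = if y = x then 1 else 0

/-- LCT: continuity of the resolvent in the potential and the energy -/
def St_LCT : Prop :=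
  ∀ (d : ℕ) (c : ℝ) (ev : (Zd d → ℝ) → UG (L2 (Zd d))), (∀ V, IsGrp c V (ev V)) →
    ∀ ε : ℝ, 0 < ε → ∀ x y, Continuous fun p : (Zd d → ℝ) × ℝ =>
      lap (ev p.1) ((p.2 : ℂ) + ε * Complex.I) x y

/-- ACT: continuity of the amplitude -/
def St_ACT : Prop :=
  ∀ (d : ℕ) (c : ℝ) (ev : (Zd d → ℝ) → UG (L2 (Zd d))), (∀ V, IsGrp c V (ev V)) →
    ∀ η : ℝ, 0 < η → ∀ x y, Continuous fun V : Zd d → ℝ => amp (ev V) η x y

/-- PPS: if the spectral measures of all `δ_x` are purely atomic, then the eigenvectors are total -/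
def St_PPS : Prop :=
  ∀ (d : ℕ) (V : Zd d → ℝ) (K : ℝ), (∀ x, |V x| ≤ K) →
    (∀ (x : Zd d) (m : Measure ℝ), IsSpec (-1) V (Pi.single x 1) m →
      ∃ N : Set ℝ, N.Countable ∧ m Nᶜ = 0) →
    ∀ φ : L2 (Zd d), (∀ (E : ℝ) (ψ : L2 (Zd d)),
      (∀ x, Hg (-1) V (fun y => ψ y) x = (E : ℂ) * ψ x) → ⟪ψ, φ⟫_ℂ = 0) → φ = 0

/-- AVG: spectral averaging for open random sets of energies not depending on the potential
at `x` -/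
def St_AVG : Prop :=
  ∀ (d : ℕ) (ν : Measure ℝ) [IsProbabilityMeasure ν] (C : ℝ≥0), ν ≤ C • volume →
    ∀ (x : Zd d) (B : Set ((Zd d → ℝ) × ℝ)), IsOpen B →
      (∀ V s E, (V, E) ∈ B → (Function.update V x s, E) ∈ B) →
      ∃ g : (Zd d → ℝ) → ℝ≥0∞, Measurable g ∧
        ∫⁻ V, g V ∂(PP d ν) ≤ 4 * C * ((PP d ν).prod volume) B ∧
        ∀ V m, IsSpec (-1) V (Pi.single x 1) m → m {E | (V, E) ∈ B} ≤ g V

/-- GEF: decay of polynomially bounded generalised eigenfunctions -/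
def St_GEF : Prop :=
  ∀ (d : ℕ), 1 ≤ d → ∀ (V : Zd d → ℝ) (E : ℝ) (x : Zd d) (n : ℕ → ℕ),
    (∀ k, 1 ≤ n k) → (∀ k, n k < n (k + 1)) → (∀ k, n (k + 1) ≤ 2 * n k) →
    (∃ k0, ∀ k, k0 ≤ k → ∀ c : Zd d, (∀ i, (2 : ℤ) ^ (n k - 1) ∣ c i) →
      8 * 2 ^ n k ≤ dd x c → dd x c ≤ 16 * 2 ^ n (k + 1) → Dc c (2 ^ n k) (eta d (n k)) E V) →
    ∀ φ : Zd d → ℂ, PolyB φ → IsGen (-1) V E φ → L2f φ

/-- FIN: pure point spectrum from a sequence of scales -/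
def St_FIN : Prop :=
  ∀ (d : ℕ), 1 ≤ d → ∀ (ν : Measure ℝ) [IsProbabilityMeasure ν] (C : ℝ≥0), ν ≤ C • volume →
    ∀ (κ : ℝ), 0 < κ → ∀ (n : ℕ → ℕ), (∀ k, 1 ≤ n k) → (∀ k, n k < n (k + 1)) →
    (∀ k, n (k + 1) ≤ 2 * n k) → (∀ k, ((n (k + 1) - n k : ℕ) : ℝ) * d ≤ κ / 4 * n k) →
    ∀ B : ℕ → Zd d → Set ((Zd d → ℝ) × ℝ),
      (∀ k, Bf d ν (2 ^ n k) (eta d (n k)) (pro κ (n k)) (B k)) →
      ∀ᵐ V ∂(PP d ν), ∀ (x : Zd d) (m : Measure ℝ), IsSpec (-1) V (Pi.single x 1) m →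
        ∃ N : Set ℝ, N.Countable ∧ m Nᶜ = 0

/-- STP: one step of the multiscale analysis -/
def St_STP : Prop :=
  ∀ (d : ℕ), 1 ≤ d → ∀ (C : ℝ≥0) (κ : ℝ), 0 < κ → κ ≤ 1 / 4 → ∃ n0 : ℕ,
    ∀ (ν : Measure ℝ) [IsProbabilityMeasure ν], ν ≤ C • volume → ∀ n s : ℕ, n0 ≤ n →
    (s : ℝ) ≤ κ * n / (8 * d) → κ * n / (16 * d) ≤ s →
    ∀ B : Zd d → Set ((Zd d → ℝ) × ℝ), Bf d ν (2 ^ n) (eta d n) (pro κ n) B →
      ∃ B' : Zd d → Set ((Zd d → ℝ) × ℝ), Bf d ν (2 ^ (n + s)) (eta d (n + s)) (pro κ (n + s)) B'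

/-- INI: the initial scale, from slow transport -/
def St_INI : Prop :=
  ∀ (d : ℕ), 1 ≤ d → ∀ (C : ℝ≥0) (α : ℝ), 0 < α → α * d < 1 → ∃ κ : ℝ, 0 < κ ∧ κ ≤ 1 / 4 ∧
    ∀ n0 : ℕ, ∃ T0 : ℝ, ∀ T : ℝ, T0 ≤ T → ∀ (ν : Measure ℝ) [IsProbabilityMeasure ν],
    ν ≤ C • volume → ∀ ev : (Zd d → ℝ) → UG (L2 (Zd d)), (∀ V, IsGrp (-1) V (ev V)) →
    tail ev ν T (T ^ α) ≤ ENNReal.ofReal (T ^ (-20 : ℝ)) →
    ∃ (n : ℕ) (B : Zd d → Set ((Zd d → ℝ) × ℝ)), n0 ≤ n ∧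
      Bf d ν (2 ^ n) (eta d n) (pro κ n) B

end Pool.Agent.Helper28.Tg
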