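import Pool.Agent.Helper28.Tg.Defs3

/-! # The energy-resolved version: from one good scale to localization -/

set_option autoImplicit false

open MeasureTheory Filter Topology
open scoped BigOperators ENNReal NNReal InnerProductSpace ComplexConjugate

namespace Pool.Agent.Helper28.Tg

open Pool.Agent.H4R2.LO (Zd dd bx Hg L2f IsSpec PolyB IsGen)
open Pool.Agent.H5R2.NB (UG L2 dl IsGrp PP)

/-- BST: good scales give pure point spectrum and decay of the mean correlator -/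
def St_BST : Prop :=
  ∀ (d : ℕ), 1 ≤ d → ∀ (C : ℝ≥0) (ν : Measure ℝ) [IsProbabilityMeasure ν], ν ≤ C • volume →
    ∀ κ : ℝ, 0 < κ → κ ≤ 1 / 4 → ∀ a b : ℝ,
    (∀ n0 : ℕ, ∃ (n : ℕ) (B : Zd d → Set ((Zd d → ℝ) × ℝ)), n0 ≤ n ∧
      Bg d ν (Set.Icc a b) (2 ^ n) (eta d n) (pro κ n) B) →
    (∀ᵐ V ∂(PP d ν), ∀ (x : Zd d) (m : Measure ℝ), IsSpec (-1) V (Pi.single x 1) m →
      ∃ N : Set ℝ, N.Countable ∧ m (Set.Icc a b \ N) = 0) ∧
    ∀ a1 b1 : ℝ, a < a1 → b1 < b → ∀ P : ℕ, ∃ A : ℝ, 0 < A ∧ ∀ x y : Zd d,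
      ∫⁻ V, corr V (Set.Icc a1 b1) x y ∂(PP d ν) ≤
        ENNReal.ofReal (A * (1 + ‖x - y‖) ^ (-(P : ℝ) / 2))

end Pool.Agent.Helper28.Tg
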