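import Pool.Agent.Helper28.Tg.Defs7

/-! # The initial scale with square sums: statements of the parts -/

set_option autoImplicit false

open MeasureTheory Filter Topology
open scoped BigOperators ENNReal NNReal InnerProductSpace ComplexConjugate

namespace Pool.Agent.Helper28.Tg

open Pool.Agent.H4R2.LO (Zd dd bx Hg L2f IsSpec PolyB IsGen)
open Pool.Agent.H5R2.NB (UG L2 dl IsGrp PP)

/-- square sum version of the decay in a box -/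
def G2 {d : ℕ} (x : Zd d) (l : ℕ) (q A : ℝ) (V : Zd d → ℝ) (E : ℝ) : Prop :=
  ∀ f : Zd d → ℝ, (∀ y, l < dd x y → f y = 0) →
    ∑ u ∈ (bx x l).filter (fun u => 2 * dd x u ≤ l), f u ^ 2 ≤
      q * (∑ y ∈ bx x l, f y ^ 2 +
        ∑ w ∈ (bx x l).filter (fun w => dd x w = l), (Hr V f w - E * f w) ^ 2) +
      A * ∑ w ∈ (bx x l).filter (fun w => dd x w < l), (Hr V f w - E * f w) ^ 2

/-- the constant of the square sum version -/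
noncomputable def qd (d : ℕ) : ℝ := (100 ^ d * (8 * (d : ℝ) ^ 2 + 8))⁻¹

/-- ST0: first step, from a small constant factor in square sum to polynomial decay -/
def St_ST0 : Prop :=
  ∀ (d : ℕ), 1 ≤ d → ∀ κ : ℝ, 0 < κ → κ ≤ 1 / 4 → ∀ c1 : ℝ, 0 < c1 → ∃ n0 : ℕ,
    ∀ (ν : Measure ℝ) [IsProbabilityMeasure ν] (J : Set ℝ) (n s : ℕ), n0 ≤ n →
    (s : ℝ) ≤ κ / (2 * d) * n → κ / (4 * d) * n ≤ s → ∀ A : ℝ, 0 ≤ A →
    (∀ x : Zd d, ∀ E ∈ J, (PP d ν) {V | ¬ G2 x (2 ^ n) (qd d) A V E} ≤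
      ENNReal.ofReal (c1 * (2 : ℝ) ^ (-(2 * κ * n)))) →
    ∃ B : Zd d → Set ((Zd d → ℝ) × ℝ),
      Bg d ν J (2 ^ (n + s)) (eta d (n + s)) (pro κ (n + s)) B

/-- DT2: deterministic estimate from the resolvent at complex nodes -/
def St_DT2 : Prop :=
  ∀ (d : ℕ), 1 ≤ d → ∀ (V : Zd d → ℝ) (W : UG (L2 (Zd d))), IsGrp (-1) V W →
    ∀ (x : Zd d) (l : ℕ) (η δ ε E : ℝ) (K : ℕ), 0 < η → 0 < δ → 0 ≤ ε → η ≤ δ / 16 → 1 ≤ K →
    (∀ f : Zd d → ℝ, (∀ y, l < dd x y → f y = 0) → δ ^ 2 * ∑ y ∈ bx x l, f y ^ 2 ≤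
      ∑ y ∈ bx x l, (Hr V f y - E * f y) ^ 2) →
    ∀ E' : ℕ → ℝ, (∀ j < K, E + j * (δ / (16 * K)) ≤ E' j ∧
      E' j ≤ E + (j + 1 / 2) * (δ / (16 * K))) →
    (∀ j < K, ∑ u ∈ (bx x l).filter (fun u => 2 * dd x u ≤ l),
      ∑ y ∈ (bx x (l + 1)).filter (fun y => l ≤ dd x y),
        ‖lap W ((E' j : ℂ) + (η : ℝ) * Complex.I) u y‖ ^ 2 ≤ ε) →
    G2 x l (100 * d ^ 2 * ((8 * K + 1) ^ K) ^ 2 * ε + 2 * ((1 / 4) ^ K) ^ 2)
      (6 * ((8 * K + 1) ^ K) ^ 2 * ((bx x l).card / η) ^ 2) V E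

end Pool.Agent.Helper28.Tg
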