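import Pool.Agent.Helper28.Tg.Defs8

/-! # The initial scale with square sums: probability and parameters -/

set_option autoImplicit false

open MeasureTheory Filter Topology
open scoped BigOperators ENNReal NNReal InnerProductSpace ComplexConjugate

namespace Pool.Agent.Helper28.Tg

open Pool.Agent.H4R2.LO (Zd dd bx Hg L2f IsSpec PolyB IsGen)
open Pool.Agent.H5R2.NB (UG L2 dl IsGrp PP)

/-- PR2: probability of the square sum estimate, and choice of the parameters -/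
def St_PR2 : Prop :=
  ∀ (d : ℕ), 1 ≤ d → ∀ (C : ℝ≥0) (α s : ℝ), 0 < α → α * d < 1 → 1 + 2 * α * d < s →
    ∃ κ : ℝ, 0 < κ ∧ κ ≤ 1 / 4 ∧ ∃ c1 : ℝ, 0 < c1 ∧
    ∀ (a b b1 : ℝ), b1 < b → ∀ n0 : ℕ, ∃ T0 : ℝ, ∀ T : ℝ, T0 ≤ T →
    ∀ (ν : Measure ℝ) [IsProbabilityMeasure ν], ν ≤ C • volume →
    ∀ ev : (Zd d → ℝ) → UG (L2 (Zd d)), (∀ V, IsGrp (-1) V (ev V)) →
    esc ev ν (Set.Icc a b) T (T ^ α) ≤ ENNReal.ofReal (T ^ (-s)) →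
    ∃ (n : ℕ) (A : ℝ), n0 ≤ n ∧ 0 ≤ A ∧ ∀ x : Zd d, ∀ E ∈ Set.Icc a b1,
      (PP d ν) {V | ¬ G2 x (2 ^ n) (qd d) A V E} ≤
        ENNReal.ofReal (c1 * (2 : ℝ) ^ (-(2 * κ * n)))

/-- IN2: `St_INJ` with the exponent `s > 1 + 2 d α` -/
def St_IN2 : Prop :=
  ∀ (d : ℕ), 1 ≤ d → ∀ (C : ℝ≥0) (α s : ℝ), 0 < α → α * d < 1 → 1 + 2 * α * d < s →
    ∃ κ : ℝ, 0 < κ ∧ κ ≤ 1 / 4 ∧
    ∀ (a b b1 : ℝ), b1 < b → ∀ n0 : ℕ, ∃ T0 : ℝ, ∀ T : ℝ, T0 ≤ T →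
    ∀ (ν : Measure ℝ) [IsProbabilityMeasure ν], ν ≤ C • volume →
    ∀ ev : (Zd d → ℝ) → UG (L2 (Zd d)), (∀ V, IsGrp (-1) V (ev V)) →
    esc ev ν (Set.Icc a b) T (T ^ α) ≤ ENNReal.ofReal (T ^ (-s)) →
    ∃ (n : ℕ) (B : Zd d → Set ((Zd d → ℝ) × ℝ)), n0 ≤ n ∧
      Bg d ν (Set.Icc a b1) (2 ^ n) (eta d n) (pro κ n) B

/-- assembly of `St_IN2` -/
theorem in2 (h0 : St_ST0) (h1 : St_PR2) : St_IN2 := by
  intro d hd C α s hα hαd hs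
  obtain ⟨κ, hκ, hκ4, c1, hc1, h2⟩ := h1 d hd C α s hα hαd hs
  refine ⟨κ, hκ, hκ4, fun a b b1 hb n0 => ?_⟩
  obtain ⟨n1, hn1⟩ := h0 d hd κ hκ hκ4 c1 hc1
  have hd0 : (0 : ℝ) < d := by exact_mod_cast hd
  obtain ⟨n2, hn2⟩ := exists_nat_ge (4 * d / κ)
  obtain ⟨T0, hT0⟩ := h2 a b b1 hb (max n0 (max n1 n2))
  refine ⟨T0, fun T hT ν _ hC ev hev hesc => ?_⟩
  obtain ⟨n, A, hn, hA, hP⟩ := hT0 T hT ν hC ev hev hesc
  have hna : n0 ≤ n := (le_max_left _ _).trans hn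
  have hnb : n1 ≤ n := (le_max_left _ _).trans ((le_max_right _ _).trans hn)
  have hnc : n2 ≤ n := (le_max_right _ _).trans ((le_max_right _ _).trans hn)
  have hnc' : (4 * d / κ : ℝ) ≤ n := hn2.trans (by exact_mod_cast hnc)
  rw [div_le_iff₀ hκ] at hnc'
  set t : ℝ := κ / (2 * d) * n with ht
  have ht0 : 0 ≤ t := by positivity
  have ht2 : 2 ≤ t := by
    rw [ht, div_mul_eq_mul_div, le_div_iff₀ (by positivity)]
    linarith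
  obtain ⟨B, hB⟩ := hn1 ν (Set.Icc a b1) n ⌊t⌋₊ hnb (Nat.floor_le ht0)
    (by
      have h3 := Nat.lt_floor_add_one t
      have h4 : κ / (4 * d) * n = t / 2 := by
        rw [ht]
        field_simp
        ring
      rw [h4]
      linarith) A hA hP
  exact ⟨n + ⌊t⌋₊, B, by omega, hB⟩

end Pool.Agent.Helper28.Tg
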