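import Mathlib

/-! # The resolvent of a real symmetric matrix, finite differences in the imaginary part -/

set_option autoImplicit false

open scoped BigOperators

namespace Pool.Agent.Helper28.Tg.Fdr

theorem fd_inv (h : ℂ) (K : ℕ) : ∀ z : ℂ, (∀ j : ℕ, z + j * h ≠ 0) →
    (fwdDiff h)^[K] (fun w : ℂ => w⁻¹) z =
      (-1) ^ K * K.factorial * h ^ K * ∏ j ∈ Finset.range (K + 1), (z + j * h)⁻¹ := by
  induction K with
  | zero =>
    intro z _
    simp
  | succ K ih =>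
    intro z hz
    have hz' : ∀ j : ℕ, z + h + j * h ≠ 0 := by
      intro j
      have := hz (j + 1)
      intro h0
      apply this
      push_cast
      linear_combination h0
    rw [Function.iterate_succ_apply', fwdDiff, ih (z + h) hz', ih z hz]
    have e1 : ∏ j ∈ Finset.range (K + 1), (z + h + j * h)⁻¹ =
        (∏ j ∈ Finset.range K, (z + (j + 1 : ℕ) * h)⁻¹) * (z + (K + 1 : ℕ) * h)⁻¹ := by
      rw [Finset.prod_range_succ]
      congr 1
      · refine Finset.prod_congr rfl fun j _ => ?_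
        congr 1
        push_cast
        ring
      · congr 1
        push_cast
        ring
    have e2 : ∏ j ∈ Finset.range (K + 1), (z + j * h)⁻¹ =
        (∏ j ∈ Finset.range K, (z + (j + 1 : ℕ) * h)⁻¹) * (z + (0 : ℕ) * h)⁻¹ :=
      Finset.prod_range_succ' _ _
    have e3 : ∏ j ∈ Finset.range (K + 1 + 1), (z + j * h)⁻¹ =
        (∏ j ∈ Finset.range K, (z + (j + 1 : ℕ) * h)⁻¹) * (z + (0 : ℕ) * h)⁻¹ *
          (z + (K + 1 : ℕ) * h)⁻¹ := by
      rw [Finset.prod_range_succ, e2]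
    rw [e1, e2, e3]
    have h0 := hz 0
    have h1 := hz (K + 1)
    have e4 : (z + (K + 1 : ℕ) * h)⁻¹ - (z + (0 : ℕ) * h)⁻¹ =
        -((K + 1 : ℕ) : ℂ) * h * ((z + (0 : ℕ) * h)⁻¹ * (z + (K + 1 : ℕ) * h)⁻¹) := by
      rw [inv_sub_inv h1 h0, div_eq_mul_inv, mul_inv]
      push_cast
      ring
    rw [Nat.factorial_succ]
    push_cast at e4 ⊢
    linear_combination ((-1) ^ K * (K.factorial : ℂ) * h ^ K *
      ∏ j ∈ Finset.range K, (z + ((j : ℂ) + 1) * h)⁻¹) * e4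

/-- scalar bound -/
theorem fd_bd (K : ℕ) (e δ η : ℝ) (hδ : 0 < δ) (he : δ ≤ |e|) (hη : 0 < η) :
    ‖∑ k ∈ Finset.range (K + 1), (((-1 : ℤ) ^ (K - k) * (K.choose k : ℤ) : ℤ) : ℂ) *
      ((e : ℂ) - (k * η : ℝ) * Complex.I)⁻¹‖ ≤ K.factorial * η ^ K / δ ^ (K + 1) := by
  have hne : ∀ j : ℕ, δ ≤ ‖(e : ℂ) + j * (-(η * Complex.I))‖ := by
    intro j
    have h1 := Complex.abs_re_le_norm ((e : ℂ) + j * (-(η * Complex.I)))
    have h2 : ((e : ℂ) + j * (-(η * Complex.I))).re = e := by simp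
    rw [h2] at h1
    exact he.trans h1
  have h1 := fd_inv (-(η * Complex.I)) K e (fun j h0 => by
    have := hne j
    rw [h0, norm_zero] at this
    linarith)
  rw [fwdDiff_iter_eq_sum_shift] at h1
  have h2 : ∑ k ∈ Finset.range (K + 1), (((-1 : ℤ) ^ (K - k) * (K.choose k : ℤ) : ℤ) : ℂ) *
      ((e : ℂ) - (k * η : ℝ) * Complex.I)⁻¹ =
      ∑ k ∈ Finset.range (K + 1), ((-1 : ℤ) ^ (K - k) * K.choose k) •
        (((e : ℂ) + k • (-(η * Complex.I))))⁻¹ := by
    refine Finset.sum_congr rfl fun k _ => ?_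
    rw [zsmul_eq_mul]
    congr 2
    rw [nsmul_eq_mul]
    push_cast
    ring
  rw [h2, h1, norm_mul, norm_mul, norm_mul, norm_pow, norm_pow, norm_prod]
  have h3 : ‖(-(η * Complex.I) : ℂ)‖ = η := by
    rw [norm_neg, norm_mul, Complex.norm_I, mul_one, Complex.norm_real,
      Real.norm_of_nonneg hη.le]
  rw [h3, norm_neg, norm_one, one_pow, one_mul, Complex.norm_natCast, div_eq_mul_inv]
  refine mul_le_mul_of_nonneg_left ?_ (by positivity)
  have h4 : ∏ j ∈ Finset.range (K + 1), ‖((e : ℂ) + j * (-(η * Complex.I)))⁻¹‖ ≤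
      ∏ _j ∈ Finset.range (K + 1), δ⁻¹ := by
    refine Finset.prod_le_prod (fun _ _ => norm_nonneg _) fun j _ => ?_
    rw [norm_inv]
    exact inv_anti₀ hδ (hne j)
  rw [Finset.prod_const, Finset.card_range, inv_pow] at h4
  exact h4

variable {ι : Type*} [Fintype ι] [DecidableEq ι]

/-- diagonalization of a real symmetric matrix -/
theorem exi (M : Matrix ι ι ℝ) (hM : M.IsSymm) : ∃ (b : ι → ι → ℝ) (e : ι → ℝ),
    (∀ v w, ∑ a, b a v * b a w = if v = w then 1 else 0) ∧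
    (∀ a v, ∑ w, M v w * b a w = e a * b a v) ∧ (∀ a, ∑ v, b a v ^ 2 = 1) := by
  have hA : M.IsHermitian := by
    rw [Matrix.IsHermitian, Matrix.conjTranspose_eq_transpose_of_trivial, hM.eq]
  refine ⟨fun a v => hA.eigenvectorBasis a v, hA.eigenvalues, ?_, ?_, ?_⟩
  · intro v w
    have h1 := hA.eigenvectorBasis.sum_repr' (EuclideanSpace.single w (1 : ℝ))
    have h2 := congrArg (fun f : EuclideanSpace ℝ ι => f v) h1
    simp only [EuclideanSpace.inner_single_right] at h2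
    rw [WithLp.ofLp_sum, Finset.sum_apply] at h2
    simp only [PiLp.smul_apply, smul_eq_mul, PiLp.single_apply] at h2
    rw [← h2]
    refine Finset.sum_congr rfl fun a _ => ?_
    simp
    ring
  · intro a v
    have h1 := congrFun (hA.mulVec_eigenvectorBasis a) v
    simpa [Matrix.mulVec, dotProduct] using h1
  · intro a
    have h1 := hA.eigenvectorBasis.orthonormal.1 a
    have h2 : ‖hA.eigenvectorBasis a‖ ^ 2 = 1 := by rw [h1, one_pow]
    rw [EuclideanSpace.norm_sq_eq] at h2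
    simpa using h2

/-- the resolvent kernel `(M - is)⁻¹` -/
noncomputable def Rk (b : ι → ι → ℝ) (e : ι → ℝ) (s : ℝ) (v w : ι) : ℂ :=
  ∑ a, ((b a v * b a w : ℝ) : ℂ) * ((e a : ℂ) - s * Complex.I)⁻¹

theorem Rk_symm (b : ι → ι → ℝ) (e : ι → ℝ) (s : ℝ) (v w : ι) : Rk b e s v w = Rk b e s w v := by
  unfold Rk
  refine Finset.sum_congr rfl fun a _ => ?_
  rw [mul_comm (b a v)]

theorem sum_abs_le (b : ι → ι → ℝ) (hb : ∀ v w, ∑ a, b a v * b a w = if v = w then 1 else 0)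
    (v w : ι) : ∑ a, |b a v * b a w| ≤ 1 := by
  have h1 : ∀ a, |b a v * b a w| ≤ (b a v * b a v + b a w * b a w) / 2 := by
    intro a
    rw [abs_le]
    constructor <;> nlinarith [sq_nonneg (b a v - b a w), sq_nonneg (b a v + b a w)]
  refine (Finset.sum_le_sum fun a _ => h1 a).trans ?_
  rw [← Finset.sum_div, Finset.sum_add_distrib, hb v v, hb w w]
  simp

theorem Rk_le (b : ι → ι → ℝ) (hb : ∀ v w, ∑ a, b a v * b a w = if v = w then 1 else 0)
    (e : ι → ℝ) (s r : ℝ) (hr : 0 < r) (h : ∀ a, r ≤ ‖(e a : ℂ) - s * Complex.I‖) (v w : ι) :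
    ‖Rk b e s v w‖ ≤ 1 / r := by
  unfold Rk
  calc ‖∑ a, ((b a v * b a w : ℝ) : ℂ) * ((e a : ℂ) - s * Complex.I)⁻¹‖
      ≤ ∑ a, |b a v * b a w| * (1 / r) := by
        refine norm_sum_le_of_le _ fun a _ => ?_
        rw [norm_mul, Complex.norm_real, Real.norm_eq_abs, norm_inv, one_div]
        exact mul_le_mul_of_nonneg_left (inv_anti₀ hr (h a)) (abs_nonneg _)
    _ ≤ 1 / r := by
        rw [← Finset.sum_mul]
        exact mul_le_of_le_one_left (by positivity) (sum_abs_le b hb v w)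

theorem Rk_eq (M : Matrix ι ι ℝ) (b : ι → ι → ℝ)
    (hb : ∀ v w, ∑ a, b a v * b a w = if v = w then 1 else 0)
    (e : ι → ℝ) (he : ∀ a v, ∑ w, M v w * b a w = e a * b a v) (s : ℝ)
    (hne : ∀ a, (e a : ℂ) - s * Complex.I ≠ 0) (v x : ι) :
    ∑ w, (M v w : ℂ) * Rk b e s w x - s * Complex.I * Rk b e s v x = if v = x then 1 else 0 := by
  unfold Rk
  have h1 : ∑ w, (M v w : ℂ) * ∑ a, ((b a w * b a x : ℝ) : ℂ) * ((e a : ℂ) - s * Complex.I)⁻¹ =
      ∑ a, ((e a : ℂ) * b a v * b a x) * ((e a : ℂ) - s * Complex.I)⁻¹ := by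
    simp only [Finset.mul_sum]
    rw [Finset.sum_comm]
    refine Finset.sum_congr rfl fun a _ => ?_
    have h2 := he a v
    have h3 : ∑ w, (M v w : ℂ) * b a w = e a * b a v := by
      rw [← Complex.ofReal_mul, ← h2]
      push_cast
      rfl
    rw [← h3, Finset.sum_mul, Finset.sum_mul]
    refine Finset.sum_congr rfl fun w _ => ?_
    push_cast
    ring
  rw [h1, Finset.mul_sum, ← Finset.sum_sub_distrib]
  have h4 : (if v = x then (1 : ℂ) else 0) = ∑ a, ((b a v * b a x : ℝ) : ℂ) := by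
    rw [← Complex.ofReal_sum, hb v x]
    split_ifs <;> simp
  rw [h4]
  refine Finset.sum_congr rfl fun a _ => ?_
  have := hne a
  field_simp
  push_cast
  ring

/-- representation of functions by the resolvent -/
theorem Rk_rep (M : Matrix ι ι ℝ) (hM : M.IsSymm) (b : ι → ι → ℝ)
    (hb : ∀ v w, ∑ a, b a v * b a w = if v = w then 1 else 0)
    (e : ι → ℝ) (he : ∀ a v, ∑ w, M v w * b a w = e a * b a v) (s : ℝ)
    (hne : ∀ a, (e a : ℂ) - s * Complex.I ≠ 0) (f : ι → ℂ) (v : ι) :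
    f v = ∑ w, Rk b e s v w * (∑ y, (M w y : ℂ) * f y - s * Complex.I * f w) := by
  have h1 : f v = ∑ y, (if y = v then (1 : ℂ) else 0) * f y := by simp
  rw [h1]
  have h2 : ∀ y, (if y = v then (1 : ℂ) else 0) =
      ∑ w, (M y w : ℂ) * Rk b e s w v - s * Complex.I * Rk b e s y v :=
    fun y => (Rk_eq M b hb e he s hne y v).symm
  simp only [h2]
  simp only [mul_sub, sub_mul, Finset.sum_sub_distrib, Finset.sum_mul, Finset.mul_sum]
  congr 1
  · rw [Finset.sum_comm]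
    refine Finset.sum_congr rfl fun w _ => Finset.sum_congr rfl fun y _ => ?_
    rw [Rk_symm b e s v w, hM.apply w y]
    ring
  · refine Finset.sum_congr rfl fun y _ => ?_
    rw [Rk_symm b e s v y]
    ring

/-- extrapolation to the real axis -/
theorem Rk_ext (b : ι → ι → ℝ) (hb : ∀ v w, ∑ a, b a v * b a w = if v = w then 1 else 0)
    (e : ι → ℝ) (K : ℕ) (δ η ρ : ℝ) (hδ : 0 < δ) (he : ∀ a, δ ≤ |e a|) (hη : 0 < η) (v w : ι)
    (hρ : ∀ k : ℕ, 1 ≤ k → ‖Rk b e (k * η) v w‖ ≤ ρ) (hρ0 : 0 ≤ ρ) :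
    ‖Rk b e 0 v w‖ ≤ 2 ^ K * ρ + K.factorial * η ^ K / δ ^ (K + 1) := by
  have h1 : ‖∑ k ∈ Finset.range (K + 1), (((-1 : ℤ) ^ (K - k) * (K.choose k : ℤ) : ℤ) : ℂ) *
      Rk b e (k * η) v w‖ ≤ K.factorial * η ^ K / δ ^ (K + 1) := by
    have h2 : ∑ k ∈ Finset.range (K + 1), (((-1 : ℤ) ^ (K - k) * (K.choose k : ℤ) : ℤ) : ℂ) *
        Rk b e (k * η) v w = ∑ a, ((b a v * b a w : ℝ) : ℂ) *
        ∑ k ∈ Finset.range (K + 1), (((-1 : ℤ) ^ (K - k) * (K.choose k : ℤ) : ℤ) : ℂ) *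
          ((e a : ℂ) - (k * η : ℝ) * Complex.I)⁻¹ := by
      unfold Rk
      simp only [Finset.mul_sum]
      rw [Finset.sum_comm]
      refine Finset.sum_congr rfl fun a _ => Finset.sum_congr rfl fun k _ => ?_
      ring
    rw [h2]
    calc _ ≤ ∑ a, |b a v * b a w| * (K.factorial * η ^ K / δ ^ (K + 1)) := by
          refine norm_sum_le_of_le _ fun a _ => ?_
          rw [norm_mul, Complex.norm_real, Real.norm_eq_abs]
          exact mul_le_mul_of_nonneg_left (fd_bd K (e a) δ η hδ (he a) hη) (abs_nonneg _)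
      _ ≤ _ := by
          rw [← Finset.sum_mul]
          exact mul_le_of_le_one_left (by positivity) (sum_abs_le b hb v w)
  rw [Finset.sum_range_succ'] at h1
  have h3 : ‖∑ k ∈ Finset.range K, (((-1 : ℤ) ^ (K - (k + 1)) * (K.choose (k + 1) : ℤ) : ℤ) : ℂ) *
      Rk b e ((k + 1 : ℕ) * η) v w‖ ≤ 2 ^ K * ρ := by
    have h4 : ∑ k ∈ Finset.range K, (K.choose (k + 1) : ℝ) ≤ 2 ^ K := by
      have h5 := Nat.sum_range_choose K
      rw [Finset.sum_range_succ'] at h5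
      have h6 : (∑ k ∈ Finset.range K, K.choose (k + 1)) ≤ 2 ^ K := by omega
      exact_mod_cast h6
    calc _ ≤ ∑ k ∈ Finset.range K, (K.choose (k + 1) : ℝ) * ρ := by
          refine norm_sum_le_of_le _ fun k _ => ?_
          rw [norm_mul]
          have h7 : ‖(((-1 : ℤ) ^ (K - (k + 1)) * (K.choose (k + 1) : ℤ) : ℤ) : ℂ)‖ =
              (K.choose (k + 1) : ℝ) := by
            push_cast
            rw [norm_mul, norm_pow, norm_neg, norm_one, one_pow, one_mul, Complex.norm_natCast]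
          rw [h7]
          exact mul_le_mul_of_nonneg_left (hρ (k + 1) (by omega)) (by positivity)
      _ ≤ _ := by
          rw [← Finset.sum_mul]
          exact mul_le_mul_of_nonneg_right h4 hρ0
  have h8 : ‖(((-1 : ℤ) ^ (K - 0) * (K.choose 0 : ℤ) : ℤ) : ℂ) * Rk b e ((0 : ℕ) * η) v w‖ =
      ‖Rk b e 0 v w‖ := by
    rw [norm_mul]
    simp
  rw [← h8]
  set A := ∑ k ∈ Finset.range K, (((-1 : ℤ) ^ (K - (k + 1)) * (K.choose (k + 1) : ℤ) : ℤ) : ℂ) *
      Rk b e ((k + 1 : ℕ) * η) v w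
  set B := (((-1 : ℤ) ^ (K - 0) * (K.choose 0 : ℤ) : ℤ) : ℂ) * Rk b e ((0 : ℕ) * η) v w
  have h9 : B = (A + B) - A := by ring
  rw [h9]
  exact (norm_sub_le _ _).trans (by linarith)

end Pool.Agent.Helper28.Tg.Fdr
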