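import Pool.Agent.Helper28.Tg.Lap
import Pool.Agent.Helper28.Tg.Fdr
import Pool.Graph.R_seed8.H4R2.LO.La
import Pool.Graph.R_seed8.H4R2.LO.Em

/-! # The deterministic part of the initial estimate -/

set_option autoImplicit false

open MeasureTheory Filter Topology
open scoped BigOperators ENNReal NNReal InnerProductSpace ComplexConjugate

namespace Pool.Agent.Helper28.Tg

open Pool.Agent.H4R2.LO (Zd dd bx Hg L2f IsSpec PolyB IsGen Hm AL rs adj)
open Pool.Agent.H4R2.LO.Em (dd_le_iff le_dd dd_self dd_comm dd_tri mem_bx card_bx adj_symm adj_self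
  AL_symm em_count)
open Pool.Agent.H5R2.NB (UG L2 dl IsGrp PP)

/-- goodness of a box at a real energy, by the Green function -/
def Gd {d : ℕ} (x : Zd d) (l : ℕ) (ε δ : ℝ) (V : Zd d → ℝ) (E : ℝ) : Prop :=
  ∀ f : Zd d → ℝ, (∀ y, l < dd x y → f y = 0) → ∀ u, dd x u ≤ l →
    |f u| ≤ ∑ w ∈ bx x l, (if 2 * dd x u ≤ l ∧ dd x w = l then ε else 1 / δ) *
      |Hr V f w - E * f w|

namespace Det

theorem dd_nb {d : ℕ} (y : Zd d) (i : Fin d) : dd y (y + Pi.single i 1) ≤ 1 ∧
    dd y (y - Pi.single i 1) ≤ 1 := by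
  constructor
  · rw [dd_le_iff]
    intro j
    rw [Pi.add_apply, Pi.single_apply]
    split_ifs <;> simp
  · rw [dd_le_iff]
    intro j
    rw [Pi.sub_apply, Pi.single_apply]
    split_ifs <;> simp

/-- the adjacency sum -/
theorem adj_sum {d : ℕ} (Λ : Finset (Zd d)) (v : Zd d) (f : Zd d → ℂ) :
    ∑ w ∈ Λ, (adj v w : ℂ) * f w = -∑ i : Fin d, ((if v + Pi.single i 1 ∈ Λ then
      f (v + Pi.single i 1) else 0) + (if v - Pi.single i 1 ∈ Λ then
      f (v - Pi.single i 1) else 0)) := by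
  classical
  have h1 : ∀ w ∈ Λ, (adj v w : ℂ) * f w = -∑ i : Fin d,
      ((if w = v + Pi.single i 1 then f w else 0) + (if w = v - Pi.single i 1 then f w else 0)) := by
    intro w _
    have h2 := em_count v w
    have h3 : (adj v w : ℂ) = -∑ i : Fin d, ((if w = v + Pi.single i 1 then (1 : ℂ) else 0) +
        (if w = v - Pi.single i 1 then (1 : ℂ) else 0)) := by
      have h4 : adj v w = -∑ i : Fin d, ((if w = v + Pi.single i 1 then (1 : ℝ) else 0) +
          (if w = v - Pi.single i 1 then (1 : ℝ) else 0)) := by linarith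
      rw [h4]
      simp only [Complex.ofReal_neg, Complex.ofReal_sum, Complex.ofReal_add]
      congr 1
      refine Finset.sum_congr rfl fun i _ => ?_
      congr 1 <;> split_ifs <;> simp
    rw [h3, neg_mul, Finset.sum_mul]
    congr 1
    refine Finset.sum_congr rfl fun i _ => ?_
    rw [add_mul]
    congr 1 <;> split_ifs <;> simp
  rw [Finset.sum_congr rfl h1, Finset.sum_neg_distrib, Finset.sum_comm]
  congr 1
  refine Finset.sum_congr rfl fun i _ => ?_
  rw [Finset.sum_add_distrib, Finset.sum_ite_eq', Finset.sum_ite_eq']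

/-- the matrix of the box -/
noncomputable def MM {d : ℕ} (x : Zd d) (l : ℕ) (V : Zd d → ℝ) (E : ℝ) :
    Matrix (bx x l) (bx x l) ℝ := Hm (AL (bx x l)) 1 (rs (bx x l) V) E

theorem MM_symm {d : ℕ} (x : Zd d) (l : ℕ) (V : Zd d → ℝ) (E : ℝ) : (MM x l V E).IsSymm := by
  unfold MM Hm
  exact (AL_symm _).add (Matrix.isSymm_diagonal _)

theorem MM_apply {d : ℕ} (x : Zd d) (l : ℕ) (V : Zd d → ℝ) (E : ℝ) (g : Zd d → ℂ)
    (w : bx x l) :
    ∑ y : bx x l, (MM x l V E w y : ℂ) * g y = Hg (-1) V g w - E * g w +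
      ∑ i : Fin d, ((if w.1 + Pi.single i 1 ∈ bx x l then 0 else g (w.1 + Pi.single i 1)) +
        (if w.1 - Pi.single i 1 ∈ bx x l then 0 else g (w.1 - Pi.single i 1))) := by
  have h1 : ∀ y : bx x l, (MM x l V E w y : ℂ) * g y = (adj w.1 y.1 : ℂ) * g y +
      (if w = y then ((V w - E : ℝ) : ℂ) * g y else 0) := by
    intro y
    unfold MM Hm
    rw [Matrix.add_apply, Matrix.diagonal_apply]
    by_cases h : w = y
    · subst h
      simp [AL, rs]
      ring
    · simp [h, AL]
  rw [Finset.sum_congr rfl fun y _ => h1 y, Finset.sum_add_distrib, Finset.sum_ite_eq]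
  rw [if_pos (Finset.mem_univ w)]
  have h2 : ∑ y : bx x l, (adj w.1 y.1 : ℂ) * g y = ∑ y ∈ bx x l, (adj w.1 y : ℂ) * g y :=
    Finset.sum_coe_sort (bx x l) (fun y => (adj w.1 y : ℂ) * g y)
  rw [h2, adj_sum]
  unfold Hg
  have h3 : ∀ (P : Prop) [Decidable P] (a : ℂ), (if P then a else 0) = a - (if P then 0 else a) := by
    intro P _ a
    split_ifs <;> simp
  have h4 : ∑ i : Fin d, ((if w.1 + Pi.single i 1 ∈ bx x l then g (w.1 + Pi.single i 1) else 0) +
      (if w.1 - Pi.single i 1 ∈ bx x l then g (w.1 - Pi.single i 1) else 0)) =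
      ∑ i : Fin d, (g (w.1 + Pi.single i 1) + g (w.1 - Pi.single i 1)) -
      ∑ i : Fin d, ((if w.1 + Pi.single i 1 ∈ bx x l then 0 else g (w.1 + Pi.single i 1)) +
        (if w.1 - Pi.single i 1 ∈ bx x l then 0 else g (w.1 - Pi.single i 1))) := by
    rw [← Finset.sum_sub_distrib]
    refine Finset.sum_congr rfl fun i _ => ?_
    rw [h3 (w.1 + Pi.single i 1 ∈ bx x l), h3 (w.1 - Pi.single i 1 ∈ bx x l)]
    ring
  rw [h4]
  push_cast
  ring

/-- real functions as complex functions -/
theorem Hg_ofReal {d : ℕ} (V f : Zd d → ℝ) (w : Zd d) :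
    Hg (-1) V (fun y => (f y : ℂ)) w = (Hr V f w : ℂ) := by
  unfold Hg Hr
  push_cast
  ring

/-- for real functions supported in the box -/
theorem MM_real {d : ℕ} (x : Zd d) (l : ℕ) (V : Zd d → ℝ) (E : ℝ) (f : Zd d → ℝ)
    (hf : ∀ y, l < dd x y → f y = 0) (w : bx x l) :
    ∑ y : bx x l, MM x l V E w y * f y = Hr V f w - E * f w := by
  have h1 := MM_apply x l V E (fun y => (f y : ℂ)) w
  have h2 : ∑ i : Fin d, ((if w.1 + Pi.single i 1 ∈ bx x l then (0 : ℂ) else
        (f (w.1 + Pi.single i 1) : ℂ)) +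
        (if w.1 - Pi.single i 1 ∈ bx x l then 0 else (f (w.1 - Pi.single i 1) : ℂ))) = 0 := by
    refine Finset.sum_eq_zero fun i _ => ?_
    have h3 : ∀ y, (if y ∈ bx x l then (0 : ℂ) else (f y : ℂ)) = 0 := by
      intro y
      by_cases hy : y ∈ bx x l
      · rw [if_pos hy]
      · rw [if_neg hy, hf y (by rw [mem_bx] at hy; omega)]
        simp
    rw [h3, h3, add_zero]
  rw [h2, add_zero, Hg_ofReal] at h1
  exact_mod_cast h1

/-- **deterministic initial estimate** -/
theorem det {d : ℕ} (V : Zd d → ℝ) (W : UG (L2 (Zd d))) (hW : IsGrp (-1) V W) (x : Zd d) (l : ℕ)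
    (η δ ε0 E : ℝ) (K : ℕ) (hη : 0 < η) (hδ : 0 < δ) (hε0 : 0 ≤ ε0)
    (hNR : ∀ f : Zd d → ℝ, (∀ y, l < dd x y → f y = 0) → δ ^ 2 * ∑ y ∈ bx x l, f y ^ 2 ≤
      ∑ y ∈ bx x l, (Hr V f y - E * f y) ^ 2)
    (hA : ∀ u w, 2 * dd x u ≤ l → l ≤ dd x w → dd x w ≤ l + 1 → amp W η u w ≤ ε0) :
    Gd x l (2 ^ K * (ε0 + 2 * d * (bx x l).card * ε0 / η) + K.factorial * η ^ K / δ ^ (K + 1))
      δ V E := by
  classical
  intro f hf u hu
  obtain ⟨b, e, hb, he, hb1⟩ := Fdr.exi (MM x l V E) (MM_symm x l V E)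
  -- eigenvalues
  have hev : ∀ a, δ ≤ |e a| := by
    intro a
    have h1 := hNR (fun y => if h : y ∈ bx x l then b a ⟨y, h⟩ else 0) (by
      intro y hy
      rw [dif_neg]
      rw [mem_bx]
      omega)
    have h2 : ∀ w : bx x l, Hr V (fun y => if h : y ∈ bx x l then b a ⟨y, h⟩ else 0) w -
        E * (if h : w.1 ∈ bx x l then b a ⟨w, h⟩ else 0) = e a * b a w := by
      intro w
      rw [← MM_real x l V E _ (by
        intro y hy
        rw [dif_neg]
        rw [mem_bx]
        omega) w, ← he a w]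
      refine Finset.sum_congr rfl fun y _ => ?_
      rw [dif_pos y.2]
    rw [← Finset.sum_coe_sort (bx x l), ← Finset.sum_coe_sort (bx x l)] at h1
    have h3 : ∑ w : bx x l, (if h : w.1 ∈ bx x l then b a ⟨w, h⟩ else 0) ^ 2 = 1 := by
      rw [← hb1 a]
      refine Finset.sum_congr rfl fun w _ => ?_
      rw [dif_pos w.2]
    have h4 : ∑ w : bx x l, (Hr V (fun y => if h : y ∈ bx x l then b a ⟨y, h⟩ else 0) w -
        E * (if h : w.1 ∈ bx x l then b a ⟨w, h⟩ else 0)) ^ 2 = e a ^ 2 := by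
      rw [Finset.sum_congr rfl fun w _ => by rw [h2 w]]
      simp only [mul_pow]
      rw [← Finset.mul_sum, hb1 a, mul_one]
    rw [h3, h4, mul_one] at h1
    exact (sq_le_sq₀ hδ.le (abs_nonneg _)).1 (by rw [sq_abs]; exact h1)
  have hne0 : ∀ a, (e a : ℂ) - (0 : ℝ) * Complex.I ≠ 0 := by
    intro a h0
    have h1 : (e a : ℂ) = 0 := by simpa using h0
    have h2 : e a = 0 := by exact_mod_cast h1
    have := hev a
    rw [h2, abs_zero] at this
    linarith
  have him : ∀ (s : ℝ) (a : bx x l), |s| ≤ ‖(e a : ℂ) - s * Complex.I‖ := by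
    intro s a
    have h1 := Complex.abs_im_le_norm ((e a : ℂ) - s * Complex.I)
    have h2 : ((e a : ℂ) - s * Complex.I).im = -s := by simp
    rwa [h2, abs_neg] at h1
  -- bound of the kernel between the core and the boundary
  have hρ : ∀ v w : bx x l, 2 * dd x v ≤ l → dd x w = l → ∀ k : ℕ, 1 ≤ k →
      ‖Fdr.Rk b e (k * η) v w‖ ≤ ε0 + 2 * d * (bx x l).card * ε0 / η := by
    intro v w hv hw k hk
    have hk1 : (1 : ℝ) ≤ k := by exact_mod_cast hk
    have hs : η ≤ k * η := by nlinarith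
    have hs0 : 0 < k * η := lt_of_lt_of_le hη hs
    have hne : ∀ a, (e a : ℂ) - ((k * η : ℝ) : ℂ) * Complex.I ≠ 0 := by
      intro a h0
      have h1 := him (k * η) a
      rw [h0, norm_zero, abs_of_pos hs0] at h1
      linarith
    set z : ℂ := (E : ℂ) + ((k * η : ℝ) : ℂ) * Complex.I with hz
    have hzi : z.im = k * η := by simp [hz]
    have hL := t_LAP d (-1) V W hW z (by rw [hzi]; exact hs0) v
    have hle : ∀ y, l ≤ dd x y → dd x y ≤ l + 1 → ‖lap W z v y‖ ≤ ε0 := fun y h1 h2 =>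
      (lap_le W η hη z (by rw [hzi]; exact hs) v y).trans (hA v y hv h1 h2)
    have hrep := Fdr.Rk_rep (MM x l V E) (MM_symm x l V E) b hb e he (k * η) hne
      (fun y => lap W z v y) w
    set B : bx x l → ℂ := fun y => ∑ i : Fin d,
      ((if y.1 + Pi.single i 1 ∈ bx x l then 0 else lap W z v (y.1 + Pi.single i 1)) +
        (if y.1 - Pi.single i 1 ∈ bx x l then 0 else lap W z v (y.1 - Pi.single i 1))) with hB
    have h1 : ∀ y : bx x l, ∑ y' : bx x l, (MM x l V E y y' : ℂ) * lap W z v y' -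
        ((k * η : ℝ) : ℂ) * Complex.I * lap W z v y = (if y = v then 1 else 0) + B y := by
      intro y
      rw [MM_apply x l V E (lap W z v) y]
      have h2 := hL.2 y
      have h3 : (if y = v then (1 : ℂ) else 0) = if y.1 = v.1 then 1 else 0 := by
        by_cases h : y = v
        · rw [if_pos h, if_pos (congrArg _ h)]
        · rw [if_neg h, if_neg fun h' => h (Subtype.ext h')]
      rw [h3, ← h2, hz]
      ring
    have hBb : ∀ y : bx x l, ‖B y‖ ≤ 2 * d * ε0 := by
      intro y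
      rw [hB]
      have h2 : ∀ y' : Zd d, dd y.1 y' ≤ 1 → ‖(if y' ∈ bx x l then (0 : ℂ) else lap W z v y')‖ ≤
          ε0 := by
        intro y' hy'
        by_cases h : y' ∈ bx x l
        · rw [if_pos h, norm_zero]
          exact hε0
        · rw [if_neg h]
          have h3 : ¬ dd x y' ≤ l := fun h' => h ((mem_bx x y' l).2 h')
          have h4 := (mem_bx x y.1 l).1 y.2
          have h5 := dd_tri x y.1 y'
          exact hle y' (by omega) (by omega)
      calc ‖∑ i : Fin d, ((if y.1 + Pi.single i 1 ∈ bx x l then 0 else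
            lap W z v (y.1 + Pi.single i 1)) + (if y.1 - Pi.single i 1 ∈ bx x l then 0 else
            lap W z v (y.1 - Pi.single i 1)))‖ ≤ ∑ _i : Fin d, (ε0 + ε0) := by
            refine norm_sum_le_of_le _ fun i _ => (norm_add_le _ _).trans ?_
            exact add_le_add (h2 _ (dd_nb y.1 i).1) (h2 _ (dd_nb y.1 i).2)
        _ = 2 * d * ε0 := by
            rw [Finset.sum_const, Finset.card_univ, Fintype.card_fin, nsmul_eq_mul]
            ring
    rw [Finset.sum_congr rfl fun y _ => by rw [h1 y]] at hrep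
    have h5 : ∑ y : bx x l, Fdr.Rk b e (k * η) w y * ((if y = v then 1 else 0) + B y) =
        Fdr.Rk b e (k * η) w v + ∑ y : bx x l, Fdr.Rk b e (k * η) w y * B y := by
      simp only [mul_add, Finset.sum_add_distrib, mul_ite, mul_one, mul_zero]
      rw [Finset.sum_ite_eq', if_pos (Finset.mem_univ v)]
    rw [h5] at hrep
    have h6 : Fdr.Rk b e (k * η) v w = lap W z v w -
        ∑ y : bx x l, Fdr.Rk b e (k * η) w y * B y := by
      rw [Fdr.Rk_symm b e _ v w]
      linear_combination -hrep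
    rw [h6]
    refine (norm_sub_le _ _).trans (add_le_add (hle w hw.ge (by omega)) ?_)
    calc ‖∑ y : bx x l, Fdr.Rk b e (k * η) w y * B y‖ ≤
        ∑ _y : bx x l, 1 / η * (2 * d * ε0) := by
          refine norm_sum_le_of_le _ fun y _ => ?_
          rw [norm_mul]
          refine mul_le_mul ?_ (hBb y) (norm_nonneg _) (by positivity)
          exact Fdr.Rk_le b hb e (k * η) η hη (fun a => hs.trans ((le_abs_self _).trans
            (him (k * η) a))) w y
      _ = 2 * d * (bx x l).card * ε0 / η := by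
          rw [Finset.sum_const, Finset.card_univ, Fintype.card_coe, nsmul_eq_mul]
          ring
  -- the representation at the real energy
  have hrep := Fdr.Rk_rep (MM x l V E) (MM_symm x l V E) b hb e he 0 hne0
    (fun y => (f y : ℂ)) ⟨u, (mem_bx x u l).2 hu⟩
  have h1 : ∀ w : bx x l, ∑ y : bx x l, (MM x l V E w y : ℂ) * (f y : ℂ) -
      ((0 : ℝ) : ℂ) * Complex.I * (f w : ℂ) = ((Hr V f w - E * f w : ℝ) : ℂ) := by
    intro w
    rw [← MM_real x l V E f hf w]
    push_cast
    ring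
  rw [Finset.sum_congr rfl fun w _ => by rw [h1 w]] at hrep
  have h2 : |f u| = ‖(f u : ℂ)‖ := by rw [Complex.norm_real, Real.norm_eq_abs]
  have hrep' : (f u : ℂ) = ∑ w : bx x l, Fdr.Rk b e 0 ⟨u, (mem_bx x u l).2 hu⟩ w *
      ((Hr V f w - E * f w : ℝ) : ℂ) := hrep
  rw [h2, hrep', ← Finset.sum_coe_sort (bx x l)]
  refine norm_sum_le_of_le _ fun w _ => ?_
  rw [norm_mul, Complex.norm_real, Real.norm_eq_abs]
  refine mul_le_mul_of_nonneg_right ?_ (abs_nonneg _)
  by_cases hc : 2 * dd x u ≤ l ∧ dd x w.1 = l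
  · rw [if_pos hc]
    exact Fdr.Rk_ext b hb e K δ η _ hδ hev hη _ _ (hρ ⟨u, (mem_bx x u l).2 hu⟩ w hc.1 hc.2)
      (by positivity)
  · rw [if_neg hc]
    refine Fdr.Rk_le b hb e 0 δ hδ (fun a => ?_) _ _
    have h3 : (e a : ℂ) - (0 : ℝ) * Complex.I = e a := by simp
    rw [h3, Complex.norm_real, Real.norm_eq_abs]
    exact hev a

/-- goodness implies decay of solutions -/
theorem dc_of {d : ℕ} (x : Zd d) (l : ℕ) (ε δ : ℝ) (hε : 0 ≤ ε) (V : Zd d → ℝ) (E : ℝ)
    (h : Gd x l ε δ V E) : Dc x l (2 * d * (bx x l).card * ε) E V := by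
  classical
  intro ψ hψ b hb u hu
  have hb0 : 0 ≤ b := (abs_nonneg _).trans (hb x (by rw [dd_self]; omega))
  have h1 := h (fun y => if dd x y ≤ l then ψ y else 0) (fun y hy => if_neg (by omega)) u
    (by omega)
  rw [if_pos (show dd x u ≤ l by omega)] at h1
  refine h1.trans ?_
  have h2 : ∀ w ∈ bx x l, (if 2 * dd x u ≤ l ∧ dd x w = l then ε else 1 / δ) *
      |Hr V (fun y => if dd x y ≤ l then ψ y else 0) w - E * (if dd x w ≤ l then ψ w else 0)| ≤
      ε * (2 * d * b) := by
    intro w hw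
    have hwl := (mem_bx x w l).1 hw
    rw [if_pos hwl]
    have h3 : ∀ (y : Zd d), (if dd x y ≤ l then ψ y else 0) = ψ y - (if dd x y ≤ l then 0 else ψ y) := by
      intro y
      split_ifs <;> simp
    have h4 : Hr V (fun y => if dd x y ≤ l then ψ y else 0) w - E * ψ w =
        ∑ i : Fin d, ((if dd x (w + Pi.single i 1) ≤ l then 0 else ψ (w + Pi.single i 1)) +
          (if dd x (w - Pi.single i 1) ≤ l then 0 else ψ (w - Pi.single i 1))) := by
      have h5 := hψ w hwl
      unfold Hr at h5 ⊢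
      simp only []
      rw [if_pos hwl]
      have h6 : ∑ i : Fin d, ((if dd x (w + Pi.single i 1) ≤ l then ψ (w + Pi.single i 1) else 0) +
          (if dd x (w - Pi.single i 1) ≤ l then ψ (w - Pi.single i 1) else 0)) =
          ∑ i : Fin d, (ψ (w + Pi.single i 1) + ψ (w - Pi.single i 1)) -
          ∑ i : Fin d, ((if dd x (w + Pi.single i 1) ≤ l then 0 else ψ (w + Pi.single i 1)) +
          (if dd x (w - Pi.single i 1) ≤ l then 0 else ψ (w - Pi.single i 1))) := by
        rw [← Finset.sum_sub_distrib]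
        refine Finset.sum_congr rfl fun i _ => ?_
        rw [h3 (w + Pi.single i 1), h3 (w - Pi.single i 1)]
        ring
      rw [h6]
      linarith
    rw [h4]
    by_cases hc : dd x w = l
    · rw [if_pos ⟨hu, hc⟩]
      refine mul_le_mul_of_nonneg_left ?_ hε
      have h7 : ∀ y, dd w y ≤ 1 → |if dd x y ≤ l then 0 else ψ y| ≤ b := by
        intro y hy
        split_ifs
        · rw [abs_zero]; exact hb0
        · have := dd_tri x w y
          exact hb y (by omega)
      calc |∑ i : Fin d, ((if dd x (w + Pi.single i 1) ≤ l then 0 else ψ (w + Pi.single i 1)) +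
            (if dd x (w - Pi.single i 1) ≤ l then 0 else ψ (w - Pi.single i 1)))| ≤
            ∑ i : Fin d, |((if dd x (w + Pi.single i 1) ≤ l then 0 else ψ (w + Pi.single i 1)) +
            (if dd x (w - Pi.single i 1) ≤ l then 0 else ψ (w - Pi.single i 1)))| :=
              Finset.abs_sum_le_sum_abs _ _
        _ ≤ ∑ _i : Fin d, (b + b) := by
            refine Finset.sum_le_sum fun i _ => (abs_add_le _ _).trans ?_
            exact add_le_add (h7 _ (dd_nb w i).1) (h7 _ (dd_nb w i).2)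
        _ = 2 * d * b := by
            rw [Finset.sum_const, Finset.card_univ, Fintype.card_fin, nsmul_eq_mul]
            ring
    · have h8 : ∑ i : Fin d, ((if dd x (w + Pi.single i 1) ≤ l then 0 else
          ψ (w + Pi.single i 1)) + (if dd x (w - Pi.single i 1) ≤ l then 0 else
          ψ (w - Pi.single i 1))) = 0 := by
        refine Finset.sum_eq_zero fun i _ => ?_
        have h9 := dd_nb w i
        have h10 := dd_tri x w (w + Pi.single i 1)
        have h11 := dd_tri x w (w - Pi.single i 1)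
        rw [if_pos (by omega), if_pos (by omega), add_zero]
      rw [h8, abs_zero, mul_zero]
      positivity
  refine (Finset.sum_le_sum h2).trans ?_
  rw [Finset.sum_const, nsmul_eq_mul]
  apply le_of_eq
  ring

end Det

end Pool.Agent.Helper28.Tg
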