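import Pool.Agent.Helper28.Tg.Fdr

/-! # Extrapolation to the real axis from arbitrary nodes -/

set_option autoImplicit false

open scoped BigOperators

namespace Pool.Agent.Helper28.Tg.Fdc

/-- the extrapolation identity for the nodes `w 0, ..., w (K-1)` -/
theorem lag (Wb sep : ℝ) (hsep : 0 < sep) (w : ℕ → ℂ) (K : ℕ) (hw : ∀ j < K, ‖w j‖ ≤ Wb)
    (hs : ∀ i < K, ∀ j < K, i ≠ j → sep ≤ ‖w i - w j‖) :
    ∃ c : ℕ → ℂ, ∑ j ∈ Finset.range K, ‖c j‖ ≤ (1 + 2 * (Wb / sep)) ^ K ∧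
      ∀ e : ℂ, e ≠ 0 → (∀ j < K, e - w j ≠ 0) →
        e⁻¹ - ∑ j ∈ Finset.range K, c j * (e - w j)⁻¹ =
          e⁻¹ * ∏ j ∈ Finset.range K, (-w j * (e - w j)⁻¹) := by
  induction K with
  | zero =>
    refine ⟨fun _ => 0, by simp, ?_⟩
    intro e _ _
    simp
  | succ K ih =>
    obtain ⟨c, hc1, hc2⟩ := ih (fun j hj => hw j (by omega))
      (fun i hi j hj hij => hs i (by omega) j (by omega) hij)
    have hWb : 0 ≤ Wb := (norm_nonneg _).trans (hw 0 (by omega))
    have hρ : 0 ≤ Wb / sep := div_nonneg hWb hsep.le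
    have hne : ∀ j < K, w K - w j ≠ 0 := by
      intro j hj h0
      have := hs K (by omega) j (by omega) (by omega)
      rw [h0, norm_zero] at this
      linarith
    have hfac : ∀ j < K, ‖w K * (w K - w j)⁻¹‖ ≤ Wb / sep := by
      intro j hj
      rw [norm_mul, norm_inv, ← div_eq_mul_inv]
      exact div_le_div₀ hWb (hw K (by omega)) hsep (hs K (by omega) j (by omega) (by omega))
    set S : ℂ := ∑ j ∈ Finset.range K, c j * (w K * (w K - w j)⁻¹) with hS
    have hsum : ∑ j ∈ Finset.range K, ‖c j * (w K * (w K - w j)⁻¹)‖ ≤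
        (1 + 2 * (Wb / sep)) ^ K * (Wb / sep) := by
      calc ∑ j ∈ Finset.range K, ‖c j * (w K * (w K - w j)⁻¹)‖
          ≤ ∑ j ∈ Finset.range K, ‖c j‖ * (Wb / sep) := by
            refine Finset.sum_le_sum fun j hj => ?_
            rw [norm_mul]
            exact mul_le_mul_of_nonneg_left (hfac j (Finset.mem_range.1 hj)) (norm_nonneg _)
        _ ≤ _ := by
            rw [← Finset.sum_mul]
            exact mul_le_mul_of_nonneg_right hc1 hρ
    have hSn : ‖S‖ ≤ (1 + 2 * (Wb / sep)) ^ K * (Wb / sep) :=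
      (norm_sum_le _ _).trans hsum
    refine ⟨fun j => if j < K then c j * (w K * (w K - w j)⁻¹) else 1 - S, ?_, ?_⟩
    · rw [Finset.sum_range_succ]
      have h1 : ∑ j ∈ Finset.range K, ‖(if j < K then c j * (w K * (w K - w j)⁻¹) else 1 - S)‖ =
          ∑ j ∈ Finset.range K, ‖c j * (w K * (w K - w j)⁻¹)‖ := by
        refine Finset.sum_congr rfl fun j hj => ?_
        rw [if_pos (Finset.mem_range.1 hj)]
      rw [h1]
      simp only []
      rw [if_neg (lt_irrefl K)]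
      have h2 : ‖1 - S‖ ≤ 1 + ‖S‖ := by
        refine (norm_sub_le _ _).trans ?_
        rw [norm_one]
      have h3 : 1 ≤ (1 + 2 * (Wb / sep)) ^ K := one_le_pow₀ (by linarith)
      rw [pow_succ]
      nlinarith
    · intro e he hew
      have hewK := hew K (by omega)
      rw [Finset.prod_range_succ, ← mul_assoc, ← hc2 e he (fun j hj => hew j (by omega)),
        Finset.sum_range_succ]
      simp only []
      rw [if_neg (lt_irrefl K)]
      have h1 : ∑ j ∈ Finset.range K, (if j < K then c j * (w K * (w K - w j)⁻¹) else 1 - S) *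
          (e - w j)⁻¹ = ∑ j ∈ Finset.range K, c j * (w K * (w K - w j)⁻¹) * (e - w j)⁻¹ := by
        refine Finset.sum_congr rfl fun j hj => ?_
        rw [if_pos (Finset.mem_range.1 hj)]
      have h2 : (∑ j ∈ Finset.range K, c j * (e - w j)⁻¹) * (-w K * (e - w K)⁻¹) =
          ∑ j ∈ Finset.range K, c j * (w K * (w K - w j)⁻¹) * (e - w j)⁻¹ - S * (e - w K)⁻¹ := by
        rw [hS, Finset.sum_mul, Finset.sum_mul, ← Finset.sum_sub_distrib]
        refine Finset.sum_congr rfl fun j hj => ?_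
        have hj' := Finset.mem_range.1 hj
        have a1 := hne j hj'
        have a2 := hew j (by omega)
        field_simp
        ring
      have h3 : e⁻¹ * (-w K * (e - w K)⁻¹) = e⁻¹ - (e - w K)⁻¹ := by
        field_simp
        ring
      rw [h1, sub_mul (e⁻¹), h2, h3]
      ring

variable {ι : Type*} [Fintype ι] [DecidableEq ι]

/-- the resolvent kernel `(M - w)⁻¹` -/
noncomputable def Rc (b : ι → ι → ℝ) (e : ι → ℝ) (w : ℂ) (u v : ι) : ℂ :=
  ∑ a, ((b a u * b a v : ℝ) : ℂ) * ((e a : ℂ) - w)⁻¹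

theorem Rc_symm (b : ι → ι → ℝ) (e : ι → ℝ) (w : ℂ) (u v : ι) : Rc b e w u v = Rc b e w v u := by
  unfold Rc
  refine Finset.sum_congr rfl fun a _ => ?_
  rw [mul_comm (b a u)]

theorem Rc_le (b : ι → ι → ℝ) (hb : ∀ v w, ∑ a, b a v * b a w = if v = w then 1 else 0)
    (e : ι → ℝ) (w : ℂ) (r : ℝ) (hr : 0 < r) (h : ∀ a, r ≤ ‖(e a : ℂ) - w‖) (u v : ι) :
    ‖Rc b e w u v‖ ≤ 1 / r := by
  unfold Rc
  calc ‖∑ a, ((b a u * b a v : ℝ) : ℂ) * ((e a : ℂ) - w)⁻¹‖
      ≤ ∑ a, |b a u * b a v| * (1 / r) := by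
        refine norm_sum_le_of_le _ fun a _ => ?_
        rw [norm_mul, Complex.norm_real, Real.norm_eq_abs, norm_inv, one_div]
        exact mul_le_mul_of_nonneg_left (inv_anti₀ hr (h a)) (abs_nonneg _)
    _ ≤ 1 / r := by
        rw [← Finset.sum_mul]
        exact mul_le_of_le_one_left (by positivity) (Fdr.sum_abs_le b hb u v)

theorem Rc_eq (M : Matrix ι ι ℝ) (b : ι → ι → ℝ)
    (hb : ∀ v w, ∑ a, b a v * b a w = if v = w then 1 else 0)
    (e : ι → ℝ) (he : ∀ a v, ∑ w, M v w * b a w = e a * b a v) (s : ℂ)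
    (hne : ∀ a, (e a : ℂ) - s ≠ 0) (v x : ι) :
    ∑ w, (M v w : ℂ) * Rc b e s w x - s * Rc b e s v x = if v = x then 1 else 0 := by
  unfold Rc
  have h1 : ∑ w, (M v w : ℂ) * ∑ a, ((b a w * b a x : ℝ) : ℂ) * ((e a : ℂ) - s)⁻¹ =
      ∑ a, ((e a : ℂ) * b a v * b a x) * ((e a : ℂ) - s)⁻¹ := by
    simp only [Finset.mul_sum]
    rw [Finset.sum_comm]
    refine Finset.sum_congr rfl fun a _ => ?_
    have h2 := he a v
    have h3 : ∑ w, (M v w : ℂ) * b a w = e a * b a v := by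
      rw [← Complex.ofReal_mul, ← h2]
      push_cast
      rfl
    rw [← h3, Finset.sum_mul, Finset.sum_mul]
    refine Finset.sum_congr rfl fun w _ => ?_
    push_cast
    ring
  rw [h1, Finset.mul_sum, ← Finset.sum_sub_distrib]
  have h4 : (if v = x then (1 : ℂ) else 0) = ∑ a, ((b a v * b a x : ℝ) : ℂ) := by
    rw [← Complex.ofReal_sum, hb v x]
    split_ifs <;> simp
  rw [h4]
  refine Finset.sum_congr rfl fun a _ => ?_
  have := hne a
  field_simp
  push_cast
  ring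

/-- representation of functions by the resolvent -/
theorem Rc_rep (M : Matrix ι ι ℝ) (hM : M.IsSymm) (b : ι → ι → ℝ)
    (hb : ∀ v w, ∑ a, b a v * b a w = if v = w then 1 else 0)
    (e : ι → ℝ) (he : ∀ a v, ∑ w, M v w * b a w = e a * b a v) (s : ℂ)
    (hne : ∀ a, (e a : ℂ) - s ≠ 0) (f : ι → ℂ) (v : ι) :
    f v = ∑ w, Rc b e s v w * (∑ y, (M w y : ℂ) * f y - s * f w) := by
  have h1 : f v = ∑ y, (if y = v then (1 : ℂ) else 0) * f y := by simp
  rw [h1]
  have h2 : ∀ y, (if y = v then (1 : ℂ) else 0) =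
      ∑ w, (M y w : ℂ) * Rc b e s w v - s * Rc b e s y v :=
    fun y => (Rc_eq M b hb e he s hne y v).symm
  simp only [h2]
  simp only [mul_sub, sub_mul, Finset.sum_sub_distrib, Finset.sum_mul, Finset.mul_sum]
  congr 1
  · rw [Finset.sum_comm]
    refine Finset.sum_congr rfl fun w _ => Finset.sum_congr rfl fun y _ => ?_
    rw [Rc_symm b e s v w, hM.apply w y]
    ring
  · refine Finset.sum_congr rfl fun y _ => ?_
    rw [Rc_symm b e s v y]
    ring

/-- extrapolation to the real axis -/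
theorem Rc_ext (b : ι → ι → ℝ) (hb : ∀ v w, ∑ a, b a v * b a w = if v = w then 1 else 0)
    (e : ι → ℝ) (K : ℕ) (δ Wb sep ρ : ℝ) (hδ : 0 < δ) (he : ∀ a, δ ≤ |e a|) (hsep : 0 < sep)
    (hWb : 0 ≤ Wb) (hWδ : Wb ≤ δ / 2) (w : ℕ → ℂ) (hw : ∀ j < K, ‖w j‖ ≤ Wb)
    (hs : ∀ i < K, ∀ j < K, i ≠ j → sep ≤ ‖w i - w j‖) (u v : ι)
    (hρ : ∀ j < K, ‖Rc b e (w j) u v‖ ≤ ρ) (hρ0 : 0 ≤ ρ) :
    ‖Rc b e 0 u v‖ ≤ (1 + 2 * (Wb / sep)) ^ K * ρ + 1 / δ * (2 * Wb / δ) ^ K := by
  obtain ⟨c, hc1, hc2⟩ := lag Wb sep hsep w K hw hs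
  have hea : ∀ a, δ ≤ ‖(e a : ℂ)‖ := by
    intro a
    rw [Complex.norm_real, Real.norm_eq_abs]
    exact he a
  have hne0 : ∀ a, (e a : ℂ) ≠ 0 := by
    intro a h0
    have := hea a
    rw [h0, norm_zero] at this
    linarith
  have hew : ∀ a, ∀ j < K, δ / 2 ≤ ‖(e a : ℂ) - w j‖ := by
    intro a j hj
    have h1 := norm_sub_norm_le (e a : ℂ) (w j)
    have h2 := hea a
    have h3 := hw j hj
    linarith
  have hew0 : ∀ a, ∀ j < K, (e a : ℂ) - w j ≠ 0 := by
    intro a j hj h0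
    have := hew a j hj
    rw [h0, norm_zero] at this
    linarith
  have h1 : Rc b e 0 u v = ∑ j ∈ Finset.range K, c j * Rc b e (w j) u v +
      ∑ a, ((b a u * b a v : ℝ) : ℂ) * ((e a : ℂ)⁻¹ *
        ∏ j ∈ Finset.range K, (-w j * ((e a : ℂ) - w j)⁻¹)) := by
    have h2 : ∀ a, ((b a u * b a v : ℝ) : ℂ) * ((e a : ℂ)⁻¹ *
        ∏ j ∈ Finset.range K, (-w j * ((e a : ℂ) - w j)⁻¹)) =
        ((b a u * b a v : ℝ) : ℂ) * (e a : ℂ)⁻¹ -
          ∑ j ∈ Finset.range K, c j * (((b a u * b a v : ℝ) : ℂ) * ((e a : ℂ) - w j)⁻¹) := by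
      intro a
      rw [← hc2 (e a) (hne0 a) (hew0 a), mul_sub, Finset.mul_sum]
      congr 1
      refine Finset.sum_congr rfl fun j _ => ?_
      ring
    rw [Finset.sum_congr rfl fun a _ => h2 a, Finset.sum_sub_distrib, Finset.sum_comm]
    unfold Rc
    simp only [sub_zero, Finset.mul_sum]
    ring
  rw [h1]
  refine (norm_add_le _ _).trans (add_le_add ?_ ?_)
  · calc ‖∑ j ∈ Finset.range K, c j * Rc b e (w j) u v‖
        ≤ ∑ j ∈ Finset.range K, ‖c j‖ * ρ := by
          refine norm_sum_le_of_le _ fun j hj => ?_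
          rw [norm_mul]
          exact mul_le_mul_of_nonneg_left (hρ j (Finset.mem_range.1 hj)) (norm_nonneg _)
      _ ≤ _ := by
          rw [← Finset.sum_mul]
          exact mul_le_mul_of_nonneg_right hc1 hρ0
  · have hWd : 0 ≤ 2 * Wb / δ := by positivity
    calc _ ≤ ∑ a, |b a u * b a v| * (1 / δ * (2 * Wb / δ) ^ K) := by
          refine norm_sum_le_of_le _ fun a _ => ?_
          rw [norm_mul, Complex.norm_real, Real.norm_eq_abs]
          refine mul_le_mul_of_nonneg_left ?_ (abs_nonneg _)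
          rw [norm_mul, norm_inv, norm_prod]
          refine mul_le_mul ?_ ?_ (Finset.prod_nonneg fun _ _ => norm_nonneg _) (by positivity)
          · rw [one_div]
            exact inv_anti₀ hδ (hea a)
          · calc ∏ j ∈ Finset.range K, ‖-w j * ((e a : ℂ) - w j)⁻¹‖
                ≤ ∏ _j ∈ Finset.range K, (2 * Wb / δ) := by
                  refine Finset.prod_le_prod (fun _ _ => norm_nonneg _) fun j hj => ?_
                  have hj' := Finset.mem_range.1 hj
                  rw [norm_mul, norm_neg, norm_inv, ← div_eq_mul_inv]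
                  calc ‖w j‖ / ‖(e a : ℂ) - w j‖ ≤ Wb / (δ / 2) :=
                        div_le_div₀ hWb (hw j hj') (by positivity) (hew a j hj')
                    _ = 2 * Wb / δ := by field_simp
              _ = (2 * Wb / δ) ^ K := by rw [Finset.prod_const, Finset.card_range]
      _ ≤ _ := by
          rw [← Finset.sum_mul]
          exact mul_le_of_le_one_left (by positivity) (Fdr.sum_abs_le b hb u v)

end Pool.Agent.Helper28.Tg.Fdc
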