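import Pool.Agent.Helper28.Tg.Det
import Pool.Agent.Helper28.Tg.Fdc

/-! # The deterministic part of the initial estimate, with complex nodes -/

set_option autoImplicit false

open MeasureTheory Filter Topology
open scoped BigOperators ENNReal NNReal InnerProductSpace ComplexConjugate

namespace Pool.Agent.Helper28.Tg

open Pool.Agent.H4R2.LO (Zd dd bx Hg L2f IsSpec PolyB IsGen Hm AL rs adj)
open Pool.Agent.H4R2.LO.Em (dd_le_iff le_dd dd_self dd_comm dd_tri mem_bx card_bx adj_symm adj_self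
  AL_symm em_count)
open Pool.Agent.H5R2.NB (UG L2 dl IsGrp PP)

namespace Detj

open Det

/-- **deterministic initial estimate** -/
theorem detj {d : ℕ} (V : Zd d → ℝ) (W : UG (L2 (Zd d))) (hW : IsGrp (-1) V W) (x : Zd d) (l : ℕ)
    (η δ ε0 E : ℝ) (K : ℕ) (hη : 0 < η) (hδ : 0 < δ) (hε0 : 0 ≤ ε0)
    (hNR : ∀ f : Zd d → ℝ, (∀ y, l < dd x y → f y = 0) → δ ^ 2 * ∑ y ∈ bx x l, f y ^ 2 ≤
      ∑ y ∈ bx x l, (Hr V f y - E * f y) ^ 2)
    (E' : ℕ → ℝ) (hE : ∀ j < K, E + j * η ≤ E' j ∧ E' j ≤ E + (j + 1 / 2) * η)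
    (hK : (K + 1) * η ≤ δ / 2)
    (hA : ∀ j < K, ∀ u w, 2 * dd x u ≤ l → l ≤ dd x w → dd x w ≤ l + 1 →
      ‖lap W ((E' j : ℂ) + (η : ℝ) * Complex.I) u w‖ ≤ ε0) :
    Gd x l ((4 * K + 5) ^ K * (ε0 + 2 * d * (bx x l).card * ε0 / η) +
      1 / δ * (2 * ((K + 1) * η) / δ) ^ K) δ V E := by
  classical
  intro f hf u hu
  obtain ⟨b, e, hb, he, hb1⟩ := Fdr.exi (MM x l V E) (MM_symm x l V E)
  -- eigenvalues
  have hev : ∀ a, δ ≤ |e a| := by
    intro a
    have h1 := hNR (fun y => if h : y ∈ bx x l then b a ⟨y, h⟩ else 0) (by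
      intro y hy
      rw [dif_neg]
      rw [mem_bx]
      omega)
    have h2 : ∀ w : bx x l, Hr V (fun y => if h : y ∈ bx x l then b a ⟨y, h⟩ else 0) w -
        E * (if h : w.1 ∈ bx x l then b a ⟨w, h⟩ else 0) = e a * b a w := by
      intro w
      rw [← MM_real x l V E _ (by
        intro y hy
        rw [dif_neg]
        rw [mem_bx]
        omega) w, ← he a w]
      refine Finset.sum_congr rfl fun y _ => ?_
      rw [dif_pos y.2]
    rw [← Finset.sum_coe_sort (bx x l), ← Finset.sum_coe_sort (bx x l)] at h1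
    have h3 : ∑ w : bx x l, (if h : w.1 ∈ bx x l then b a ⟨w, h⟩ else 0) ^ 2 = 1 := by
      rw [← hb1 a]
      refine Finset.sum_congr rfl fun w _ => ?_
      rw [dif_pos w.2]
    have h4 : ∑ w : bx x l, (Hr V (fun y => if h : y ∈ bx x l then b a ⟨y, h⟩ else 0) w -
        E * (if h : w.1 ∈ bx x l then b a ⟨w, h⟩ else 0)) ^ 2 = e a ^ 2 := by
      rw [Finset.sum_congr rfl fun w _ => by rw [h2 w]]
      simp only [mul_pow]
      rw [← Finset.mul_sum, hb1 a, mul_one]
    rw [h3, h4, mul_one] at h1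
    exact (sq_le_sq₀ hδ.le (abs_nonneg _)).1 (by rw [sq_abs]; exact h1)
  have hne0 : ∀ a, (e a : ℂ) - 0 ≠ 0 := by
    intro a h0
    have h1 : (e a : ℂ) = 0 := by simpa using h0
    have h2 : e a = 0 := by exact_mod_cast h1
    have := hev a
    rw [h2, abs_zero] at this
    linarith
  -- the nodes
  set ws : ℕ → ℂ := fun j => ((E' j - E : ℝ) : ℂ) + (η : ℝ) * Complex.I with hws
  have him : ∀ (j : ℕ) (a : bx x l), η ≤ ‖(e a : ℂ) - ws j‖ := by
    intro j a
    have h1 := Complex.abs_im_le_norm ((e a : ℂ) - ws j)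
    have h2 : ((e a : ℂ) - ws j).im = -η := by simp [hws]
    rwa [h2, abs_neg, abs_of_pos hη] at h1
  have hwn : ∀ j < K, ‖ws j‖ ≤ (K + 1) * η := by
    intro j hj
    have h1 : ‖ws j‖ ≤ |E' j - E| + η := by
      rw [hws]
      refine (norm_add_le _ _).trans ?_
      rw [Complex.norm_real, Real.norm_eq_abs, norm_mul, Complex.norm_I, mul_one,
        Complex.norm_real, Real.norm_of_nonneg hη.le]
    have h2 := hE j hj
    have h3 : |E' j - E| ≤ (j + 1 / 2) * η := by
      rw [abs_le]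
      constructor
      · nlinarith [h2.1, hη, (Nat.cast_nonneg j : (0 : ℝ) ≤ j)]
      · linarith [h2.2]
    have h4 : (j : ℝ) + 1 ≤ K := by exact_mod_cast hj
    nlinarith
  have hsp : ∀ i < K, ∀ j < K, i ≠ j → η / 2 ≤ ‖ws i - ws j‖ := by
    intro i hi j hj hij
    have h1 : ws i - ws j = ((E' i - E' j : ℝ) : ℂ) := by
      rw [hws]
      push_cast
      ring
    rw [h1, Complex.norm_real, Real.norm_eq_abs]
    have hi' := hE i hi
    have hj' := hE j hj
    rcases lt_or_gt_of_ne hij with h | h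
    · have h2 : (i : ℝ) + 1 ≤ j := by exact_mod_cast h
      rw [abs_sub_comm]
      refine le_trans ?_ (le_abs_self _)
      nlinarith [hi'.2, hj'.1]
    · have h2 : (j : ℝ) + 1 ≤ i := by exact_mod_cast h
      refine le_trans ?_ (le_abs_self _)
      nlinarith [hi'.1, hj'.2]
  -- bound of the kernel between the core and the boundary
  have hρ : ∀ v w : bx x l, 2 * dd x v ≤ l → dd x w = l → ∀ j < K,
      ‖Fdc.Rc b e (ws j) v w‖ ≤ ε0 + 2 * d * (bx x l).card * ε0 / η := by
    intro v w hv hw j hj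
    have hne : ∀ a, (e a : ℂ) - ws j ≠ 0 := by
      intro a h0
      have h1 := him j a
      rw [h0, norm_zero] at h1
      linarith
    set z : ℂ := (E' j : ℂ) + (η : ℝ) * Complex.I with hz
    have hzi : z.im = η := by simp [hz]
    have hzw : z = E + ws j := by
      rw [hz, hws]
      push_cast
      ring
    have hL := t_LAP d (-1) V W hW z (by rw [hzi]; exact hη) v
    have hle : ∀ y, l ≤ dd x y → dd x y ≤ l + 1 → ‖lap W z v y‖ ≤ ε0 := fun y h1 h2 =>
      hA j hj v y hv h1 h2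
    have hrep := Fdc.Rc_rep (MM x l V E) (MM_symm x l V E) b hb e he (ws j) hne
      (fun y => lap W z v y) w
    set B : bx x l → ℂ := fun y => ∑ i : Fin d,
      ((if y.1 + Pi.single i 1 ∈ bx x l then 0 else lap W z v (y.1 + Pi.single i 1)) +
        (if y.1 - Pi.single i 1 ∈ bx x l then 0 else lap W z v (y.1 - Pi.single i 1))) with hB
    have h1 : ∀ y : bx x l, ∑ y' : bx x l, (MM x l V E y y' : ℂ) * lap W z v y' -
        ws j * lap W z v y = (if y = v then 1 else 0) + B y := by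
      intro y
      rw [MM_apply x l V E (lap W z v) y]
      have h2 := hL.2 y
      have h3 : (if y = v then (1 : ℂ) else 0) = if y.1 = v.1 then 1 else 0 := by
        by_cases h : y = v
        · rw [if_pos h, if_pos (congrArg _ h)]
        · rw [if_neg h, if_neg fun h' => h (Subtype.ext h')]
      rw [h3, ← h2]
      linear_combination (lap W z v y) * hzw
    have hBb : ∀ y : bx x l, ‖B y‖ ≤ 2 * d * ε0 := by
      intro y
      rw [hB]
      have h2 : ∀ y' : Zd d, dd y.1 y' ≤ 1 → ‖(if y' ∈ bx x l then (0 : ℂ) else lap W z v y')‖ ≤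
          ε0 := by
        intro y' hy'
        by_cases h : y' ∈ bx x l
        · rw [if_pos h, norm_zero]
          exact hε0
        · rw [if_neg h]
          have h3 : ¬ dd x y' ≤ l := fun h' => h ((mem_bx x y' l).2 h')
          have h4 := (mem_bx x y.1 l).1 y.2
          have h5 := dd_tri x y.1 y'
          exact hle y' (by omega) (by omega)
      calc ‖∑ i : Fin d, ((if y.1 + Pi.single i 1 ∈ bx x l then 0 else
            lap W z v (y.1 + Pi.single i 1)) + (if y.1 - Pi.single i 1 ∈ bx x l then 0 else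
            lap W z v (y.1 - Pi.single i 1)))‖ ≤ ∑ _i : Fin d, (ε0 + ε0) := by
            refine norm_sum_le_of_le _ fun i _ => (norm_add_le _ _).trans ?_
            exact add_le_add (h2 _ (dd_nb y.1 i).1) (h2 _ (dd_nb y.1 i).2)
        _ = 2 * d * ε0 := by
            rw [Finset.sum_const, Finset.card_univ, Fintype.card_fin, nsmul_eq_mul]
            ring
    rw [Finset.sum_congr rfl fun y _ => by rw [h1 y]] at hrep
    have h5 : ∑ y : bx x l, Fdc.Rc b e (ws j) w y * ((if y = v then 1 else 0) + B y) =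
        Fdc.Rc b e (ws j) w v + ∑ y : bx x l, Fdc.Rc b e (ws j) w y * B y := by
      simp only [mul_add, Finset.sum_add_distrib, mul_ite, mul_one, mul_zero]
      rw [Finset.sum_ite_eq', if_pos (Finset.mem_univ v)]
    rw [h5] at hrep
    have h6 : Fdc.Rc b e (ws j) v w = lap W z v w -
        ∑ y : bx x l, Fdc.Rc b e (ws j) w y * B y := by
      rw [Fdc.Rc_symm b e _ v w]
      linear_combination -hrep
    rw [h6]
    refine (norm_sub_le _ _).trans (add_le_add (hle w hw.ge (by omega)) ?_)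
    calc ‖∑ y : bx x l, Fdc.Rc b e (ws j) w y * B y‖ ≤
        ∑ _y : bx x l, 1 / η * (2 * d * ε0) := by
          refine norm_sum_le_of_le _ fun y _ => ?_
          rw [norm_mul]
          refine mul_le_mul ?_ (hBb y) (norm_nonneg _) (by positivity)
          exact Fdc.Rc_le b hb e (ws j) η hη (fun a => him j a) w y
      _ = 2 * d * (bx x l).card * ε0 / η := by
          rw [Finset.sum_const, Finset.card_univ, Fintype.card_coe, nsmul_eq_mul]
          ring
  -- the representation at the real energy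
  have hrep := Fdc.Rc_rep (MM x l V E) (MM_symm x l V E) b hb e he 0 hne0
    (fun y => (f y : ℂ)) ⟨u, (mem_bx x u l).2 hu⟩
  have h1 : ∀ w : bx x l, ∑ y : bx x l, (MM x l V E w y : ℂ) * (f y : ℂ) -
      0 * (f w : ℂ) = ((Hr V f w - E * f w : ℝ) : ℂ) := by
    intro w
    rw [← MM_real x l V E f hf w]
    push_cast
    ring
  rw [Finset.sum_congr rfl fun w _ => by rw [h1 w]] at hrep
  have h2 : |f u| = ‖(f u : ℂ)‖ := by rw [Complex.norm_real, Real.norm_eq_abs]
  have hrep' : (f u : ℂ) = ∑ w : bx x l, Fdc.Rc b e 0 ⟨u, (mem_bx x u l).2 hu⟩ w *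
      ((Hr V f w - E * f w : ℝ) : ℂ) := hrep
  rw [h2, hrep', ← Finset.sum_coe_sort (bx x l)]
  refine norm_sum_le_of_le _ fun w _ => ?_
  rw [norm_mul, Complex.norm_real, Real.norm_eq_abs]
  refine mul_le_mul_of_nonneg_right ?_ (abs_nonneg _)
  by_cases hc : 2 * dd x u ≤ l ∧ dd x w.1 = l
  · rw [if_pos hc]
    have h3 := Fdc.Rc_ext b hb e K δ ((K + 1) * η) (η / 2) _ hδ hev (by positivity)
      (by positivity) hK ws hwn hsp _ _ (hρ ⟨u, (mem_bx x u l).2 hu⟩ w hc.1 hc.2)
      (by positivity)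
    have h4 : 1 + 2 * ((K + 1) * η / (η / 2)) = 4 * (K : ℝ) + 5 := by
      field_simp
      ring
    rwa [h4] at h3
  · rw [if_neg hc]
    refine Fdc.Rc_le b hb e 0 δ hδ (fun a => ?_) _ _
    rw [sub_zero, Complex.norm_real, Real.norm_eq_abs]
    exact hev a

end Detj

end Pool.Agent.Helper28.Tg
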