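import Pool.Agent.Helper28.Tg.Fdc

/-! # Spectral multipliers of a real symmetric matrix and the extrapolation in square sum -/

set_option autoImplicit false

open scoped BigOperators ComplexConjugate

namespace Pool.Agent.Helper28.Tg.Dtm

variable {ι : Type*} [Fintype ι] [DecidableEq ι]

theorem rows (b : ι → ι → ℝ) (hb : ∀ v w, ∑ a, b a v * b a w = if v = w then 1 else 0) :
    ∀ a a', ∑ v, b a v * b a' v = if a = a' then 1 else 0 := by
  have h1 : (Matrix.of b).transpose * (Matrix.of b) = 1 := by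
    ext v w
    rw [Matrix.mul_apply, Matrix.one_apply]
    simpa [Matrix.transpose_apply] using hb v w
  have h2 := mul_eq_one_comm.1 h1
  intro a a'
  have h3 := congrFun (congrFun h2 a) a'
  rw [Matrix.mul_apply, Matrix.one_apply] at h3
  simpa using h3

/-- Parseval -/
theorem pars (b : ι → ι → ℝ) (hr : ∀ a a', ∑ v, b a v * b a' v = if a = a' then 1 else 0)
    (g : ι → ℂ) : ∑ v, ‖∑ a, (b a v : ℂ) * g a‖ ^ 2 = ∑ a, ‖g a‖ ^ 2 := by
  have h : ((∑ v, ‖∑ a, (b a v : ℂ) * g a‖ ^ 2 : ℝ) : ℂ) = ((∑ a, ‖g a‖ ^ 2 : ℝ) : ℂ) := by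
    push_cast
    simp only [← Complex.conj_mul']
    have h1 : ∀ v, conj (∑ a, (b a v : ℂ) * g a) * (∑ a, (b a v : ℂ) * g a) =
        ∑ i, ∑ j, (b i v : ℂ) * (b j v : ℂ) * (conj (g i) * g j) := by
      intro v
      rw [map_sum, Finset.sum_mul_sum]
      refine Finset.sum_congr rfl fun i _ => Finset.sum_congr rfl fun j _ => ?_
      rw [map_mul, Complex.conj_ofReal]
      ring
    rw [Finset.sum_congr rfl fun v _ => h1 v, Finset.sum_comm]
    refine Finset.sum_congr rfl fun i _ => ?_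
    rw [Finset.sum_comm]
    have h2 : ∀ j, ∑ v, (b i v : ℂ) * (b j v : ℂ) * (conj (g i) * g j) =
        if i = j then conj (g i) * g j else 0 := by
      intro j
      rw [← Finset.sum_mul]
      have h3 : ∑ v, (b i v : ℂ) * (b j v : ℂ) = ((if i = j then 1 else 0 : ℝ) : ℂ) := by
        rw [← hr i j]
        push_cast
        rfl
      rw [h3]
      split_ifs <;> simp
    rw [Finset.sum_congr rfl fun j _ => h2 j, Finset.sum_ite_eq, if_pos (Finset.mem_univ i)]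
  exact_mod_cast h

/-- spectral multiplier -/
noncomputable def mu (b : ι → ι → ℝ) (m f : ι → ℂ) (v : ι) : ℂ :=
  ∑ a, (b a v : ℂ) * (m a * ∑ w, (b a w : ℂ) * f w)

theorem mu_le (b : ι → ι → ℝ) (hb : ∀ v w, ∑ a, b a v * b a w = if v = w then 1 else 0)
    (m : ι → ℂ) (B : ℝ) (hm : ∀ a, ‖m a‖ ≤ B) (f : ι → ℂ) :
    ∑ v, ‖mu b m f v‖ ^ 2 ≤ B ^ 2 * ∑ w, ‖f w‖ ^ 2 := by
  unfold mu
  rw [pars b (rows b hb)]
  have h1 := pars (fun w a => b a w) hb f
  rw [← h1, Finset.mul_sum]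
  refine Finset.sum_le_sum fun a _ => ?_
  rw [norm_mul, mul_pow]
  exact mul_le_mul_of_nonneg_right (pow_le_pow_left₀ (norm_nonneg _) (hm a) 2) (by positivity)

theorem mu_one (b : ι → ι → ℝ) (hb : ∀ v w, ∑ a, b a v * b a w = if v = w then 1 else 0)
    (f : ι → ℂ) (v : ι) : mu b (fun _ => 1) f v = f v := by
  unfold mu
  simp only [one_mul, Finset.mul_sum]
  rw [Finset.sum_comm]
  have h1 : ∀ w, ∑ a, (b a v : ℂ) * ((b a w : ℂ) * f w) = if v = w then f w else 0 := by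
    intro w
    have h3 : ∑ a, (b a v : ℂ) * ((b a w : ℂ) * f w) = (∑ a, (b a v : ℂ) * (b a w : ℂ)) * f w := by
      rw [Finset.sum_mul]
      refine Finset.sum_congr rfl fun a _ => ?_
      ring
    have h4 : ∑ a, (b a v : ℂ) * (b a w : ℂ) = ((if v = w then 1 else 0 : ℝ) : ℂ) := by
      rw [← hb v w]
      push_cast
      rfl
    rw [h3, h4]
    split_ifs <;> simp
  rw [Finset.sum_congr rfl fun w _ => h1 w, Finset.sum_ite_eq, if_pos (Finset.mem_univ v)]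

theorem mu_mat (M : Matrix ι ι ℝ) (b : ι → ι → ℝ) (e : ι → ℝ)
    (he : ∀ a v, ∑ w, M v w * b a w = e a * b a v) (m f : ι → ℂ) (s : ℂ) (v : ι) :
    ∑ w, (M v w : ℂ) * mu b m f w - s * mu b m f v = mu b (fun a => ((e a : ℂ) - s) * m a) f v := by
  unfold mu
  have h1 : ∑ w, (M v w : ℂ) * ∑ a, (b a w : ℂ) * (m a * ∑ y, (b a y : ℂ) * f y) =
      ∑ a, ((e a : ℂ) * b a v) * (m a * ∑ y, (b a y : ℂ) * f y) := by
    simp only [Finset.mul_sum]
    rw [Finset.sum_comm]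
    refine Finset.sum_congr rfl fun a _ => ?_
    have h2 := he a v
    have h3 : ∑ w, (M v w : ℂ) * b a w = e a * b a v := by
      rw [← Complex.ofReal_mul, ← h2]
      push_cast
      rfl
    rw [← h3, Finset.sum_comm]
    refine Finset.sum_congr rfl fun y _ => ?_
    rw [Finset.sum_mul]
    refine Finset.sum_congr rfl fun w _ => ?_
    ring
  rw [h1, Finset.mul_sum, ← Finset.sum_sub_distrib]
  refine Finset.sum_congr rfl fun a _ => ?_
  ring

theorem mu_f (M : Matrix ι ι ℝ) (b : ι → ι → ℝ)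
    (hb : ∀ v w, ∑ a, b a v * b a w = if v = w then 1 else 0) (e : ι → ℝ)
    (he : ∀ a v, ∑ w, M v w * b a w = e a * b a v) (f : ι → ℂ) (v : ι) :
    ∑ w, (M v w : ℂ) * f w = mu b (fun a => (e a : ℂ)) f v := by
  have h1 := mu_mat M b e he (fun _ => 1) f 0 v
  simp only [mu_one b hb, zero_mul, sub_zero, mul_one] at h1
  exact h1

/-- the multipliers with the weights `c` -/
theorem csq (K : ℕ) (c : ℕ → ℂ) (S : ℝ) (hS : ∑ j ∈ Finset.range K, ‖c j‖ ≤ S) (X : ℕ → ℂ) :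
    ‖∑ j ∈ Finset.range K, c j * X j‖ ^ 2 ≤ S * ∑ j ∈ Finset.range K, ‖c j‖ * ‖X j‖ ^ 2 := by
  have h1 : ‖∑ j ∈ Finset.range K, c j * X j‖ ≤ ∑ j ∈ Finset.range K, ‖c j‖ * ‖X j‖ :=
    norm_sum_le_of_le _ fun j _ => (norm_mul _ _).le
  have h2 : (∑ j ∈ Finset.range K, ‖c j‖ * ‖X j‖) ^ 2 ≤
      (∑ j ∈ Finset.range K, ‖c j‖) * ∑ j ∈ Finset.range K, ‖c j‖ * ‖X j‖ ^ 2 := by
    refine Finset.sum_sq_le_sum_mul_sum_of_sq_le_mul _ (fun _ _ => norm_nonneg _)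
      (fun _ _ => by positivity) fun j _ => le_of_eq ?_
    ring
  calc _ ≤ (∑ j ∈ Finset.range K, ‖c j‖ * ‖X j‖) ^ 2 := pow_le_pow_left₀ (norm_nonneg _) h1 2
    _ ≤ _ := h2
    _ ≤ _ := mul_le_mul_of_nonneg_right hS (Finset.sum_nonneg fun _ _ => by positivity)

/-- **extrapolation in square sum** -/
theorem ext (b : ι → ι → ℝ) (hb : ∀ v w, ∑ a, b a v * b a w = if v = w then 1 else 0)
    (e : ι → ℝ) (K : ℕ) (hK : 1 ≤ K) (δ : ℝ) (hδ : 0 < δ) (he : ∀ a, δ ≤ |e a|) (w : ℕ → ℂ)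
    (hw : ∀ j < K, ‖w j‖ ≤ δ / 8)
    (hs : ∀ i < K, ∀ j < K, i ≠ j → δ / (32 * K) ≤ ‖w i - w j‖) (f : ι → ℂ) (co : Finset ι)
    (Z : ℝ) (hZ : ∀ j < K,
      ∑ u ∈ co, ‖mu b (fun a => (e a : ℂ) * ((e a : ℂ) - w j)⁻¹) f u‖ ^ 2 ≤ Z) :
    ∑ u ∈ co, ‖f u‖ ^ 2 ≤ 2 * ((8 * K + 1) ^ K) ^ 2 * Z +
      2 * ((1 / 4) ^ K) ^ 2 * ∑ u, ‖f u‖ ^ 2 := by
  have hK0 : (0 : ℝ) < K := by exact_mod_cast hK
  obtain ⟨c, hc1, hc2⟩ := Fdc.lag (δ / 8) (δ / (32 * K)) (by positivity) w K hw hs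
  have hS : 1 + 2 * (δ / 8 / (δ / (32 * K))) = 8 * (K : ℝ) + 1 := by
    field_simp
    ring
  rw [hS] at hc1
  set S : ℝ := (8 * K + 1) ^ K with hSd
  have hS0 : 0 ≤ S := by positivity
  have hea : ∀ a, δ ≤ ‖(e a : ℂ)‖ := by
    intro a
    rw [Complex.norm_real, Real.norm_eq_abs]
    exact he a
  have hne0 : ∀ a, (e a : ℂ) ≠ 0 := by
    intro a h0
    have := hea a
    rw [h0, norm_zero] at this
    linarith
  have hew : ∀ a, ∀ j < K, 7 / 8 * δ ≤ ‖(e a : ℂ) - w j‖ := by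
    intro a j hj
    have h1 := norm_sub_norm_le (e a : ℂ) (w j)
    have h2 := hea a
    have h3 := hw j hj
    linarith
  have hew0 : ∀ a, ∀ j < K, (e a : ℂ) - w j ≠ 0 := by
    intro a j hj h0
    have := hew a j hj
    rw [h0, norm_zero] at this
    linarith
  set P : ι → ℂ := fun a => ∏ j ∈ Finset.range K, (-w j * ((e a : ℂ) - w j)⁻¹) with hP
  set m : ℕ → ι → ℂ := fun j a => (e a : ℂ) * ((e a : ℂ) - w j)⁻¹ with hm
  have hPn : ∀ a, ‖P a‖ ≤ (1 / 4) ^ K := by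
    intro a
    rw [hP]
    simp only []
    rw [norm_prod]
    calc ∏ j ∈ Finset.range K, ‖-w j * ((e a : ℂ) - w j)⁻¹‖
        ≤ ∏ _j ∈ Finset.range K, (1 / 4 : ℝ) := by
          refine Finset.prod_le_prod (fun _ _ => norm_nonneg _) fun j hj => ?_
          have hj' := Finset.mem_range.1 hj
          rw [norm_mul, norm_neg, norm_inv, ← div_eq_mul_inv]
          have h1 := hew a j hj'
          have h2 := hw j hj'
          rw [div_le_iff₀ (by linarith)]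
          linarith
      _ = (1 / 4) ^ K := by rw [Finset.prod_const, Finset.card_range]
  have hsum : ∀ v, f v = ∑ j ∈ Finset.range K, c j * mu b (m j) f v + mu b P f v := by
    intro v
    have h1 : ∀ a, (1 : ℂ) = ∑ j ∈ Finset.range K, c j * m j a + P a := by
      intro a
      have h2 := hc2 (e a) (hne0 a) (hew0 a)
      have h3 : P a = (e a : ℂ) * ((e a : ℂ)⁻¹ - ∑ j ∈ Finset.range K, c j * ((e a : ℂ) - w j)⁻¹) := by
        rw [h2, ← mul_assoc, mul_inv_cancel₀ (hne0 a), one_mul]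
      rw [h3, mul_sub, mul_inv_cancel₀ (hne0 a), Finset.mul_sum]
      have h4 : ∀ j ∈ Finset.range K, c j * m j a = (e a : ℂ) * (c j * ((e a : ℂ) - w j)⁻¹) := by
        intro j _
        rw [hm]
        ring
      rw [Finset.sum_congr rfl h4]
      ring
    have h5 := mu_one b hb f v
    rw [← h5]
    have h8 : ∀ j, c j * mu b (m j) f v =
        ∑ a, c j * ((b a v : ℂ) * (m j a * ∑ w, (b a w : ℂ) * f w)) := fun j => by
      unfold mu
      rw [Finset.mul_sum]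
    rw [Finset.sum_congr rfl fun j _ => h8 j]
    unfold mu
    rw [Finset.sum_comm, ← Finset.sum_add_distrib]
    refine Finset.sum_congr rfl fun a _ => ?_
    have h6 : ∑ j ∈ Finset.range K, c j * ((b a v : ℂ) * (m j a * ∑ w, (b a w : ℂ) * f w)) =
        (∑ j ∈ Finset.range K, c j * m j a) * ((b a v : ℂ) * ∑ w, (b a w : ℂ) * f w) := by
      rw [Finset.sum_mul]
      refine Finset.sum_congr rfl fun j _ => ?_
      ring
    rw [h6]
    have h7 := h1 a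
    linear_combination ((b a v : ℂ) * ∑ w, (b a w : ℂ) * f w) * h7
  have hpt : ∀ v, ‖f v‖ ^ 2 ≤ 2 * (S * ∑ j ∈ Finset.range K, ‖c j‖ * ‖mu b (m j) f v‖ ^ 2) +
      2 * ‖mu b P f v‖ ^ 2 := by
    intro v
    have h1 := csq K c S hc1 (fun j => mu b (m j) f v)
    have h2 : ‖f v‖ ≤ ‖∑ j ∈ Finset.range K, c j * mu b (m j) f v‖ + ‖mu b P f v‖ := by
      conv_lhs => rw [hsum v]
      exact norm_add_le _ _
    have h3 : ‖f v‖ ^ 2 ≤
        (‖∑ j ∈ Finset.range K, c j * mu b (m j) f v‖ + ‖mu b P f v‖) ^ 2 :=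
      pow_le_pow_left₀ (norm_nonneg _) h2 2
    nlinarith [sq_nonneg (‖∑ j ∈ Finset.range K, c j * mu b (m j) f v‖ - ‖mu b P f v‖)]
  have hZ0 : 0 ≤ Z := (Finset.sum_nonneg fun _ _ => by positivity).trans (hZ 0 hK)
  have h1 : ∑ u ∈ co, ‖f u‖ ^ 2 ≤ ∑ u ∈ co, (2 * (S * ∑ j ∈ Finset.range K,
      ‖c j‖ * ‖mu b (m j) f u‖ ^ 2) + 2 * ‖mu b P f u‖ ^ 2) :=
    Finset.sum_le_sum fun u _ => hpt u
  have h2 : ∑ u ∈ co, ∑ j ∈ Finset.range K, ‖c j‖ * ‖mu b (m j) f u‖ ^ 2 ≤ S * Z := by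
    rw [Finset.sum_comm]
    calc ∑ j ∈ Finset.range K, ∑ u ∈ co, ‖c j‖ * ‖mu b (m j) f u‖ ^ 2
        ≤ ∑ j ∈ Finset.range K, ‖c j‖ * Z := by
          refine Finset.sum_le_sum fun j hj => ?_
          rw [← Finset.mul_sum]
          exact mul_le_mul_of_nonneg_left (hZ j (Finset.mem_range.1 hj)) (norm_nonneg _)
      _ ≤ S * Z := by
          rw [← Finset.sum_mul]
          exact mul_le_mul_of_nonneg_right hc1 hZ0
  have h3 : ∑ u ∈ co, ‖mu b P f u‖ ^ 2 ≤ ((1 / 4) ^ K) ^ 2 * ∑ u, ‖f u‖ ^ 2 := by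
    refine le_trans ?_ (mu_le b hb P _ hPn f)
    exact Finset.sum_le_sum_of_subset_of_nonneg (Finset.subset_univ _) fun _ _ _ => by positivity
  rw [Finset.sum_add_distrib, ← Finset.mul_sum, ← Finset.mul_sum, ← Finset.mul_sum] at h1
  calc _ ≤ _ := h1
    _ ≤ 2 * (S * (S * Z)) + 2 * (((1 / 4) ^ K) ^ 2 * ∑ u, ‖f u‖ ^ 2) := by gcongr
    _ = _ := by ring

/-- bound of the multipliers -/
theorem mj (e : ℝ) (w : ℂ) (δ : ℝ) (hδ : 0 < δ) (he : δ ≤ |e|) (hw : ‖w‖ ≤ δ / 8) :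
    ‖(e : ℂ) * ((e : ℂ) - w)⁻¹‖ ≤ 2 := by
  have h2 : ‖(e : ℂ)‖ = |e| := by rw [Complex.norm_real, Real.norm_eq_abs]
  have h1 := norm_sub_norm_le (e : ℂ) w
  rw [h2] at h1
  rw [norm_mul, norm_inv, ← div_eq_mul_inv, h2, div_le_iff₀ (by linarith)]
  linarith

/-- the pairing identity -/
theorem pair (M : Matrix ι ι ℝ) (hM : M.IsSymm) (φ g h B : ι → ℂ) (s : ℂ) (u : ι)
    (h1 : ∀ v, ∑ w, (M v w : ℂ) * φ w - s * φ v = h v)
    (h2 : ∀ v, ∑ w, (M v w : ℂ) * g w - s * g v = (if v = u then 1 else 0) + B v) :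
    φ u = ∑ w, g w * h w - ∑ y, B y * φ y := by
  have h3 : ∑ w, g w * h w = ∑ y, (∑ w, (M y w : ℂ) * g w - s * g y) * φ y := by
    simp only [← h1, mul_sub, sub_mul, Finset.sum_sub_distrib, Finset.mul_sum, Finset.sum_mul]
    congr 1
    · rw [Finset.sum_comm]
      refine Finset.sum_congr rfl fun w _ => Finset.sum_congr rfl fun y _ => ?_
      rw [hM.apply y w]
      ring
    · refine Finset.sum_congr rfl fun y _ => ?_
      ring
  rw [h3]
  simp only [h2, add_mul, Finset.sum_add_distrib, ite_mul, one_mul, zero_mul]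
  rw [Finset.sum_ite_eq', if_pos (Finset.mem_univ u)]
  ring

end Pool.Agent.Helper28.Tg.Dtm
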