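import Pool.Agent.Helper28.Tg.Det
import Pool.Agent.Helper28.Tg.Dtm
import Pool.Agent.Helper28.Tg.Defs8

/-! # The square sum estimate from the resolvent at complex nodes -/

set_option autoImplicit false

open MeasureTheory Filter Topology
open scoped BigOperators ENNReal NNReal InnerProductSpace ComplexConjugate

namespace Pool.Agent.Helper28.Tg

open Pool.Agent.H4R2.LO (Zd dd bx Hg L2f IsSpec PolyB IsGen Hm AL rs adj)
open Pool.Agent.H4R2.LO.Em (dd_le_iff le_dd dd_self dd_comm dd_tri mem_bx card_bx adj_symm adj_self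
  AL_symm em_count)
open Pool.Agent.H5R2.NB (UG L2 dl IsGrp PP)

namespace Dt2

open Det

open Lap in
theorem lap_inv {d : ℕ} (W : UG (L2 (Zd d))) (η : ℝ) (hη : 0 < η) (z : ℂ) (hz : η ≤ z.im)
    (x y : Zd d) : ‖lap W z x y‖ ≤ 1 / η := by
  refine (lap_le W η hη z hz x y).trans ?_
  unfold amp
  have h1 : ∫ t in Set.Ioi (0 : ℝ), Real.exp (-(η * t)) = 1 / η := by
    have h2 := integral_exp_mul_Ioi (a := -η) (by linarith) 0
    simp only [neg_mul, mul_zero, Real.exp_zero] at h2
    rw [h2]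
    field_simp
  rw [← h1]
  have hc : Continuous fun t : ℝ => (W.U t (dl x)) y :=
    (Lap.ev y).continuous.comp (W.cont' (dl x))
  refine setIntegral_mono_on ?_ (exp_int hη) measurableSet_Ioi ?_
  · refine Integrable.mono' (exp_int hη) ?_ ?_
    · refine Continuous.aestronglyMeasurable ?_
      exact Continuous.mul (by fun_prop) hc.norm
    · refine Eventually.of_forall fun t => ?_
      rw [norm_mul, norm_norm, Real.norm_of_nonneg (Real.exp_pos _).le]
      exact mul_le_of_le_one_right (Real.exp_pos _).le (ut_le _ _ _ _)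
  · intro t _
    exact mul_le_of_le_one_right (Real.exp_pos _).le (ut_le _ _ _ _)

theorem csc {ι : Type*} (s : Finset ι) (f g : ι → ℂ) :
    ‖∑ i ∈ s, f i * g i‖ ^ 2 ≤ (∑ i ∈ s, ‖f i‖ ^ 2) * ∑ i ∈ s, ‖g i‖ ^ 2 := by
  have h1 : ‖∑ i ∈ s, f i * g i‖ ≤ ∑ i ∈ s, ‖f i‖ * ‖g i‖ :=
    norm_sum_le_of_le _ fun j _ => (norm_mul _ _).le
  exact (pow_le_pow_left₀ (norm_nonneg _) h1 2).trans (Finset.sum_mul_sq_le_sq_mul_sq _ _ _)

/-- the outer boundary sum of one direction -/
theorem shell {d : ℕ} (x : Zd d) (l : ℕ) (g : Zd d → ℂ) (v : Zd d)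
    (hv : ∀ y, dd y (y + v) ≤ 1) :
    ∑ y ∈ bx x l, ‖(if y + v ∈ bx x l then (0 : ℂ) else g (y + v))‖ ^ 2 ≤
      ∑ y ∈ (bx x (l + 1)).filter (fun y => l ≤ dd x y), ‖g y‖ ^ 2 := by
  classical
  have h1 : ∑ y ∈ bx x l, ‖(if y + v ∈ bx x l then (0 : ℂ) else g (y + v))‖ ^ 2 =
      ∑ y ∈ (bx x l).filter (fun y => y + v ∉ bx x l), ‖g (y + v)‖ ^ 2 := by
    rw [Finset.sum_filter]
    refine Finset.sum_congr rfl fun y _ => ?_
    split_ifs <;> simp
  rw [h1]
  have h2 : ∑ y ∈ (bx x l).filter (fun y => y + v ∉ bx x l), ‖g (y + v)‖ ^ 2 =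
      ∑ y ∈ ((bx x l).filter (fun y => y + v ∉ bx x l)).image (fun y => y + v), ‖g y‖ ^ 2 := by
    rw [Finset.sum_image]
    intro a _ b _ hab
    exact add_right_cancel hab
  rw [h2]
  refine Finset.sum_le_sum_of_subset_of_nonneg ?_ fun _ _ _ => by positivity
  intro y hy
  rw [Finset.mem_image] at hy
  obtain ⟨y', hy', rfl⟩ := hy
  rw [Finset.mem_filter, mem_bx, mem_bx] at hy'
  rw [Finset.mem_filter, mem_bx]
  have h3 := dd_tri x y' (y' + v)
  have h4 := hv y'
  omega

/-- the boundary term -/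
theorem bterm {d : ℕ} (x : Zd d) (l : ℕ) (g : Zd d → ℂ) :
    ∑ y ∈ bx x l, ‖∑ i : Fin d,
      ((if y + Pi.single i 1 ∈ bx x l then 0 else g (y + Pi.single i 1)) +
        (if y - Pi.single i 1 ∈ bx x l then 0 else g (y - Pi.single i 1)))‖ ^ 2 ≤
      4 * d ^ 2 * ∑ y ∈ (bx x (l + 1)).filter (fun y => l ≤ dd x y), ‖g y‖ ^ 2 := by
  classical
  set G := ∑ y ∈ (bx x (l + 1)).filter (fun y => l ≤ dd x y), ‖g y‖ ^ 2 with hG
  have h1 : ∀ y : Zd d, ‖∑ i : Fin d,
      ((if y + Pi.single i 1 ∈ bx x l then 0 else g (y + Pi.single i 1)) +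
        (if y - Pi.single i 1 ∈ bx x l then 0 else g (y - Pi.single i 1)))‖ ^ 2 ≤
      d * ∑ i : Fin d, (2 * ‖(if y + Pi.single i 1 ∈ bx x l then 0 else
        g (y + Pi.single i 1))‖ ^ 2 +
        2 * ‖(if y - Pi.single i 1 ∈ bx x l then 0 else g (y - Pi.single i 1))‖ ^ 2) := by
    intro y
    have h2 : ‖∑ i : Fin d,
      ((if y + Pi.single i 1 ∈ bx x l then 0 else g (y + Pi.single i 1)) +
        (if y - Pi.single i 1 ∈ bx x l then 0 else g (y - Pi.single i 1)))‖ ≤
        ∑ i : Fin d, ‖((if y + Pi.single i 1 ∈ bx x l then 0 else g (y + Pi.single i 1)) +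
        (if y - Pi.single i 1 ∈ bx x l then 0 else g (y - Pi.single i 1)))‖ := norm_sum_le _ _
    refine (pow_le_pow_left₀ (norm_nonneg _) h2 2).trans ?_
    have h3 := sq_sum_le_card_mul_sum_sq (s := (Finset.univ : Finset (Fin d)))
      (f := fun i => ‖((if y + (Pi.single i 1 : Zd d) ∈ bx x l then 0 else
        g (y + (Pi.single i 1 : Zd d))) +
        (if y - (Pi.single i 1 : Zd d) ∈ bx x l then 0 else g (y - (Pi.single i 1 : Zd d))))‖)
    rw [Finset.card_univ, Fintype.card_fin] at h3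
    refine h3.trans (mul_le_mul_of_nonneg_left ?_ (by positivity))
    refine Finset.sum_le_sum fun i _ => ?_
    generalize (if y + Pi.single i 1 ∈ bx x l then 0 else g (y + Pi.single i 1)) = p
    generalize (if y - Pi.single i 1 ∈ bx x l then 0 else g (y - Pi.single i 1)) = r
    have h4 := norm_add_le p r
    refine (pow_le_pow_left₀ (norm_nonneg _) h4 2).trans ?_
    nlinarith [sq_nonneg (‖p‖ - ‖r‖)]
  refine (Finset.sum_le_sum fun y _ => h1 y).trans ?_
  rw [← Finset.mul_sum, Finset.sum_comm]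
  have h5 : ∀ i : Fin d, ∑ y ∈ bx x l, (2 * ‖(if y + Pi.single i 1 ∈ bx x l then 0 else
        g (y + Pi.single i 1))‖ ^ 2 +
        2 * ‖(if y - Pi.single i 1 ∈ bx x l then 0 else g (y - Pi.single i 1))‖ ^ 2) ≤ 4 * G := by
    intro i
    rw [Finset.sum_add_distrib, ← Finset.mul_sum, ← Finset.mul_sum]
    have h6 := shell x l g (Pi.single i 1) (fun y => (dd_nb y i).1)
    have h7 := shell x l g (-Pi.single i 1) (fun y => by
      have := (dd_nb y i).2
      rwa [sub_eq_add_neg] at this)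
    simp only [← sub_eq_add_neg] at h7
    rw [← hG] at h6 h7
    linarith
  calc (d : ℝ) * ∑ i : Fin d, ∑ y ∈ bx x l, (2 * ‖(if y + Pi.single i 1 ∈ bx x l then 0 else
        g (y + Pi.single i 1))‖ ^ 2 +
        2 * ‖(if y - Pi.single i 1 ∈ bx x l then 0 else g (y - Pi.single i 1))‖ ^ 2)
      ≤ d * ∑ _i : Fin d, 4 * G :=
        mul_le_mul_of_nonneg_left (Finset.sum_le_sum fun i _ => h5 i) (by positivity)
    _ = 4 * d ^ 2 * G := by
        rw [Finset.sum_const, Finset.card_univ, Fintype.card_fin, nsmul_eq_mul]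
        ring

end Dt2

open Det Dt2 in
theorem t_DT2 : St_DT2 := by
  classical
  intro d hd V W hW x l η δ ε E K hη hδ hε hηδ hK hNR E' hE hA f hf
  have hK0 : (0 : ℝ) < K := by exact_mod_cast hK
  have hd1 : (1 : ℝ) ≤ d := by exact_mod_cast hd
  obtain ⟨b, e, hb, he, hb1⟩ := Fdr.exi (MM x l V E) (MM_symm x l V E)
  -- eigenvalues
  have hev : ∀ a, δ ≤ |e a| := by
    intro a
    have h1 := hNR (fun y => if h : y ∈ bx x l then b a ⟨y, h⟩ else 0) (by
      intro y hy
      rw [dif_neg]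
      rw [mem_bx]
      omega)
    have h2 : ∀ w : bx x l, Hr V (fun y => if h : y ∈ bx x l then b a ⟨y, h⟩ else 0) w -
        E * (if h : w.1 ∈ bx x l then b a ⟨w, h⟩ else 0) = e a * b a w := by
      intro w
      rw [← MM_real x l V E _ (by
        intro y hy
        rw [dif_neg]
        rw [mem_bx]
        omega) w, ← he a w]
      refine Finset.sum_congr rfl fun y _ => ?_
      rw [dif_pos y.2]
    rw [← Finset.sum_coe_sort (bx x l), ← Finset.sum_coe_sort (bx x l)] at h1
    have h3 : ∑ w : bx x l, (if h : w.1 ∈ bx x l then b a ⟨w, h⟩ else 0) ^ 2 = 1 := by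
      rw [← hb1 a]
      refine Finset.sum_congr rfl fun w _ => ?_
      rw [dif_pos w.2]
    have h4 : ∑ w : bx x l, (Hr V (fun y => if h : y ∈ bx x l then b a ⟨y, h⟩ else 0) w -
        E * (if h : w.1 ∈ bx x l then b a ⟨w, h⟩ else 0)) ^ 2 = e a ^ 2 := by
      rw [Finset.sum_congr rfl fun w _ => by rw [h2 w]]
      simp only [mul_pow]
      rw [← Finset.mul_sum, hb1 a, mul_one]
    rw [h3, h4, mul_one] at h1
    exact (sq_le_sq₀ hδ.le (abs_nonneg _)).1 (by rw [sq_abs]; exact h1)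
  -- the nodes
  set σ : ℝ := δ / (16 * K) with hσ
  have hσ0 : 0 < σ := by positivity
  have hσK : σ * K = δ / 16 := by
    rw [hσ]
    field_simp
  set ws : ℕ → ℂ := fun j => ((E' j - E : ℝ) : ℂ) + (η : ℝ) * Complex.I with hws
  have him : ∀ (j : ℕ) (a : bx x l), η ≤ ‖(e a : ℂ) - ws j‖ := by
    intro j a
    have h1 := Complex.abs_im_le_norm ((e a : ℂ) - ws j)
    have h2 : ((e a : ℂ) - ws j).im = -η := by simp [hws]
    rwa [h2, abs_neg, abs_of_pos hη] at h1
  have hwn : ∀ j < K, ‖ws j‖ ≤ δ / 8 := by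
    intro j hj
    have h1 : ‖ws j‖ ≤ |E' j - E| + η := by
      rw [hws]
      refine (norm_add_le _ _).trans ?_
      rw [Complex.norm_real, Real.norm_eq_abs, norm_mul, Complex.norm_I, mul_one,
        Complex.norm_real, Real.norm_of_nonneg hη.le]
    have h2 := hE j hj
    have h3 : |E' j - E| ≤ (j + 1 / 2) * σ := by
      rw [abs_le]
      constructor
      · nlinarith [h2.1, hσ0, (Nat.cast_nonneg j : (0 : ℝ) ≤ j)]
      · linarith [h2.2]
    have h4 : (j : ℝ) + 1 ≤ K := by exact_mod_cast hj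
    nlinarith
  have hsp : ∀ i < K, ∀ j < K, i ≠ j → δ / (32 * K) ≤ ‖ws i - ws j‖ := by
    intro i hi j hj hij
    have h1 : ws i - ws j = ((E' i - E' j : ℝ) : ℂ) := by
      rw [hws]
      push_cast
      ring
    have h0 : δ / (32 * K) = σ / 2 := by
      rw [hσ]
      field_simp
      ring
    rw [h0, h1, Complex.norm_real, Real.norm_eq_abs]
    have hi' := hE i hi
    have hj' := hE j hj
    rcases lt_or_gt_of_ne hij with h | h
    · have h2 : (i : ℝ) + 1 ≤ j := by exact_mod_cast h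
      rw [abs_sub_comm]
      refine le_trans ?_ (le_abs_self _)
      nlinarith [hi'.2, hj'.1]
    · have h2 : (j : ℝ) + 1 ≤ i := by exact_mod_cast h
      refine le_trans ?_ (le_abs_self _)
      nlinarith [hi'.1, hj'.2]
  -- the function on the box
  set F : bx x l → ℂ := fun y => (f y : ℂ) with hF
  set N : ℝ := ∑ y ∈ bx x l, f y ^ 2 with hN
  have hFN : ∑ u, ‖F u‖ ^ 2 = N := by
    rw [hN, ← Finset.sum_coe_sort (bx x l)]
    refine Finset.sum_congr rfl fun y _ => ?_
    rw [hF]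
    simp only []
    rw [Complex.norm_real, Real.norm_eq_abs, sq_abs]
  set h : bx x l → ℂ := fun w => ((Hr V f w - E * f w : ℝ) : ℂ) with hh
  set HB : ℝ := ∑ w ∈ (bx x l).filter (fun w => dd x w = l), (Hr V f w - E * f w) ^ 2 with hHB
  set HI : ℝ := ∑ w ∈ (bx x l).filter (fun w => dd x w < l), (Hr V f w - E * f w) ^ 2 with hHI
  have hHB' : ∑ w ∈ Finset.univ.filter (fun w : bx x l => dd x w.1 = l), ‖h w‖ ^ 2 = HB := by
    rw [hHB, Finset.sum_filter, Finset.sum_filter, ← Finset.sum_coe_sort (bx x l)]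
    refine Finset.sum_congr rfl fun y _ => ?_
    rw [hh]
    simp only []
    rw [Complex.norm_real, Real.norm_eq_abs, sq_abs]
  have hHI' : ∑ w ∈ Finset.univ.filter (fun w : bx x l => ¬ dd x w.1 = l), ‖h w‖ ^ 2 = HI := by
    rw [hHI, Finset.sum_filter, Finset.sum_filter, ← Finset.sum_coe_sort (bx x l)]
    refine Finset.sum_congr rfl fun y _ => ?_
    have h1 := (mem_bx x y.1 l).1 y.2
    by_cases h2 : dd x y.1 = l
    · rw [if_neg (not_not.2 h2), if_neg (by omega)]
    · rw [if_pos h2, if_pos (by omega), hh]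
      simp only []
      rw [Complex.norm_real, Real.norm_eq_abs, sq_abs]
  have hN0 : 0 ≤ N := Finset.sum_nonneg fun _ _ => by positivity
  have hHB0 : 0 ≤ HB := Finset.sum_nonneg fun _ _ => by positivity
  have hHI0 : 0 ≤ HI := Finset.sum_nonneg fun _ _ => by positivity
  set co : Finset (bx x l) := Finset.univ.filter (fun u => 2 * dd x u.1 ≤ l) with hco
  set n : ℝ := ((bx x l).card : ℝ) with hn
  have hn0 : 0 ≤ n := by positivity
  set Z : ℝ := 3 * (ε * HB + (n / η) ^ 2 * HI + 4 * d ^ 2 * ε * (4 * N)) with hZ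
  -- the estimate at the nodes
  have hnode : ∀ j < K, ∑ u ∈ co,
      ‖Dtm.mu b (fun a => (e a : ℂ) * ((e a : ℂ) - ws j)⁻¹) F u‖ ^ 2 ≤ Z := by
    intro j hj
    set z : ℂ := (E' j : ℂ) + (η : ℝ) * Complex.I with hz
    have hzi : z.im = η := by simp [hz]
    have hzw : z = E + ws j := by
      rw [hz, hws]
      push_cast
      ring
    set φ : bx x l → ℂ := Dtm.mu b (fun a => (e a : ℂ) * ((e a : ℂ) - ws j)⁻¹) F with hφ
    have hew0 : ∀ a, (e a : ℂ) - ws j ≠ 0 := by
      intro a h0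
      have := him j a
      rw [h0, norm_zero] at this
      linarith
    have hφN : ∑ u, ‖φ u‖ ^ 2 ≤ 4 * N := by
      have h1 := Dtm.mu_le b hb (fun a => (e a : ℂ) * ((e a : ℂ) - ws j)⁻¹) 2
        (fun a => Dtm.mj (e a) (ws j) δ hδ (hev a) (hwn j hj)) F
      rw [hFN] at h1
      norm_num at h1
      exact h1
    have hφh : ∀ v, ∑ w, (MM x l V E v w : ℂ) * φ w - ws j * φ v = h v := by
      intro v
      rw [hφ, Dtm.mu_mat (MM x l V E) b e he]
      have h1 : (fun a => ((e a : ℂ) - ws j) * ((e a : ℂ) * ((e a : ℂ) - ws j)⁻¹)) =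
          fun a => (e a : ℂ) := by
        funext a
        have := hew0 a
        field_simp
      rw [h1, ← Dtm.mu_f (MM x l V E) b hb e he, hh]
      simp only []
      rw [← MM_real x l V E f hf v]
      push_cast
      rfl
    set G : bx x l → ℝ := fun u => ∑ y ∈ (bx x (l + 1)).filter (fun y => l ≤ dd x y),
        ‖lap W z u y‖ ^ 2 with hG
    have hG0 : ∀ u, 0 ≤ G u := fun u => Finset.sum_nonneg fun _ _ => by positivity
    have hGs : ∑ u ∈ co, G u ≤ ε := by
      refine le_trans (le_of_eq ?_) (hA j hj)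
      rw [hco, Finset.sum_filter, Finset.sum_filter, ← Finset.sum_coe_sort (bx x l)]
    have hu : ∀ u : bx x l, ‖φ u‖ ^ 2 ≤ 3 * (G u * HB + n / η ^ 2 * HI +
        4 * d ^ 2 * G u * (4 * N)) := by
      intro u
      have hL := t_LAP d (-1) V W hW z (by rw [hzi]; exact hη) u.1
      set B : bx x l → ℂ := fun y => ∑ i : Fin d,
        ((if y.1 + Pi.single i 1 ∈ bx x l then 0 else lap W z u (y.1 + Pi.single i 1)) +
          (if y.1 - Pi.single i 1 ∈ bx x l then 0 else lap W z u (y.1 - Pi.single i 1))) with hB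
      have h1 : ∀ y : bx x l, ∑ y' : bx x l, (MM x l V E y y' : ℂ) * lap W z u y' -
          ws j * lap W z u y = (if y = u then 1 else 0) + B y := by
        intro y
        rw [MM_apply x l V E (lap W z u) y]
        have h2 := hL.2 y
        have h3 : (if y = u then (1 : ℂ) else 0) = if y.1 = u.1 then 1 else 0 := by
          by_cases h : y = u
          · rw [if_pos h, if_pos (congrArg _ h)]
          · rw [if_neg h, if_neg fun h' => h (Subtype.ext h')]
        rw [h3, ← h2]
        linear_combination (lap W z u y) * hzw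
      have h2 := Dtm.pair (MM x l V E) (MM_symm x l V E) φ (fun y => lap W z u y) h B (ws j) u
        hφh h1
      rw [← Finset.sum_filter_add_sum_filter_not Finset.univ
        (fun w : bx x l => dd x w.1 = l)] at h2
      -- the three terms
      have t1 : ‖∑ w ∈ Finset.univ.filter (fun w : bx x l => dd x w.1 = l),
          lap W z u w * h w‖ ^ 2 ≤ G u * HB := by
        refine (csc _ _ _).trans ?_
        rw [hHB']
        refine mul_le_mul_of_nonneg_right ?_ hHB0
        rw [hG]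
        simp only []
        rw [Finset.sum_filter, Finset.sum_filter]
        have h3 : ∑ a : bx x l, (if dd x a.1 = l then ‖lap W z u a‖ ^ 2 else 0) =
            ∑ a ∈ bx x l, (if dd x a = l then ‖lap W z u a‖ ^ 2 else 0) :=
          Finset.sum_coe_sort (bx x l) (fun a => if dd x a = l then ‖lap W z u a‖ ^ 2 else 0)
        rw [h3]
        have h4 : bx x l ⊆ bx x (l + 1) := by
          intro y hy
          rw [mem_bx] at hy ⊢
          omega
        refine le_trans (Finset.sum_le_sum_of_subset_of_nonneg h4 fun _ _ _ => by positivity) ?_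
        refine Finset.sum_le_sum fun y _ => ?_
        by_cases h5 : dd x y = l
        · rw [if_pos h5, if_pos h5.ge]
        · rw [if_neg h5]
          positivity
      have t2 : ‖∑ w ∈ Finset.univ.filter (fun w : bx x l => ¬ dd x w.1 = l),
          lap W z u w * h w‖ ^ 2 ≤ n / η ^ 2 * HI := by
        refine (csc _ _ _).trans ?_
        rw [hHI']
        refine mul_le_mul_of_nonneg_right ?_ hHI0
        calc ∑ w ∈ Finset.univ.filter (fun w : bx x l => ¬ dd x w.1 = l), ‖lap W z u w‖ ^ 2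
            ≤ ∑ w : bx x l, ‖lap W z u w‖ ^ 2 :=
              Finset.sum_le_sum_of_subset_of_nonneg (Finset.subset_univ _)
                fun _ _ _ => by positivity
          _ ≤ ∑ _w : bx x l, (1 / η) ^ 2 := by
              refine Finset.sum_le_sum fun w _ => pow_le_pow_left₀ (norm_nonneg _) ?_ 2
              exact lap_inv W η hη z hzi.ge u w
          _ = n / η ^ 2 := by
              rw [Finset.sum_const, Finset.card_univ, Fintype.card_coe, nsmul_eq_mul]
              ring
      have t3 : ‖∑ y, B y * φ y‖ ^ 2 ≤ 4 * d ^ 2 * G u * (4 * N) := by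
        refine (csc _ _ _).trans ?_
        refine mul_le_mul ?_ hφN (Finset.sum_nonneg fun _ _ => by positivity) (by
          have := hG0 u
          positivity)
        have h3 := bterm x l (lap W z u)
        rw [← Finset.sum_coe_sort (bx x l)] at h3
        exact h3
      rw [h2]
      set A1 := ∑ w ∈ Finset.univ.filter (fun w : bx x l => dd x w.1 = l), lap W z u w * h w
      set A2 := ∑ w ∈ Finset.univ.filter (fun w : bx x l => ¬ dd x w.1 = l), lap W z u w * h w
      set A3 := ∑ y, B y * φ y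
      have h6 : ‖A1 + A2 - A3‖ ≤ ‖A1‖ + ‖A2‖ + ‖A3‖ :=
        (norm_sub_le _ _).trans (add_le_add_left (norm_add_le _ _) _)
      have h7 : ‖A1 + A2 - A3‖ ^ 2 ≤ (‖A1‖ + ‖A2‖ + ‖A3‖) ^ 2 :=
        pow_le_pow_left₀ (norm_nonneg _) h6 2
      nlinarith [sq_nonneg (‖A1‖ - ‖A2‖), sq_nonneg (‖A1‖ - ‖A3‖), sq_nonneg (‖A2‖ - ‖A3‖)]
    refine (Finset.sum_le_sum fun u _ => hu u).trans ?_
    rw [← Finset.mul_sum, hZ]
    refine mul_le_mul_of_nonneg_left ?_ (by norm_num)
    have e1 : ∀ u, G u * HB + n / η ^ 2 * HI + 4 * d ^ 2 * G u * (4 * N) =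
        G u * (HB + 4 * d ^ 2 * (4 * N)) + n / η ^ 2 * HI := fun u => by ring
    rw [Finset.sum_congr rfl fun u _ => e1 u, Finset.sum_add_distrib, ← Finset.sum_mul,
      Finset.sum_const, nsmul_eq_mul]
    have e2 : (co.card : ℝ) ≤ n := by
      rw [hn]
      have : co.card ≤ (bx x l).card := by
        refine (Finset.card_filter_le _ _).trans ?_
        rw [Finset.card_univ, Fintype.card_coe]
      exact_mod_cast this
    have e3 : (∑ u ∈ co, G u) * (HB + 4 * d ^ 2 * (4 * N)) ≤ ε * (HB + 4 * d ^ 2 * (4 * N)) :=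
      mul_le_mul_of_nonneg_right hGs (by positivity)
    have e4 : (co.card : ℝ) * (n / η ^ 2 * HI) ≤ n * (n / η ^ 2 * HI) :=
      mul_le_mul_of_nonneg_right e2 (by positivity)
    calc _ ≤ ε * (HB + 4 * d ^ 2 * (4 * N)) + n * (n / η ^ 2 * HI) := add_le_add e3 e4
      _ = _ := by ring
  have hfin := Dtm.ext b hb e K hK δ hδ hev ws hwn hsp F co Z hnode
  have hl : ∑ u ∈ (bx x l).filter (fun u => 2 * dd x u ≤ l), f u ^ 2 = ∑ u ∈ co, ‖F u‖ ^ 2 := by
    rw [hco, Finset.sum_filter, Finset.sum_filter, ← Finset.sum_coe_sort (bx x l)]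
    refine Finset.sum_congr rfl fun y _ => ?_
    rw [hF]
    simp only []
    rw [Complex.norm_real, Real.norm_eq_abs, sq_abs]
  rw [hl]
  refine hfin.trans ?_
  rw [hFN, hZ]
  set S : ℝ := ((8 * (K : ℝ) + 1) ^ K) ^ 2 with hS
  have hS0 : 0 ≤ S := by positivity
  have hdd : (1 : ℝ) ≤ d ^ 2 := by nlinarith
  have k1 : 2 * S * (3 * (ε * HB)) ≤ 100 * d ^ 2 * S * ε * HB := by
    have : 0 ≤ S * ε * HB := by positivity
    nlinarith
  have k2 : 2 * S * (3 * (4 * d ^ 2 * ε * (4 * N))) ≤ 100 * d ^ 2 * S * ε * N := by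
    have : 0 ≤ S * ε * N * d ^ 2 := by positivity
    nlinarith
  have k3 : 0 ≤ 2 * ((1 / 4 : ℝ) ^ K) ^ 2 * HB := by positivity
  nlinarith

end Pool.Agent.Helper28.Tg
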