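import Pool.Agent.Helper36.Tg.Bsm
import Pool.Agent.Helper28.Tg.Defs7

/-! # From one good scale to exponential decay of the eigenfunctions -/

set_option autoImplicit false

open MeasureTheory Filter Topology
open scoped BigOperators ENNReal NNReal InnerProductSpace ComplexConjugate

namespace Pool.Agent.Helper28.Tg

open Pool.Agent.H4R2.LO (Zd dd bx Hg L2f IsSpec PolyB IsGen)
open Pool.Agent.H5R2.NB (UG L2 dl IsGrp PP)
open Pool.Agent.Helper36.Tg.Bst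

/-- from arbitrarily large good scales -/
theorem exb (hSTJ : St_STJ) (hVRE : St_VRE) (hSEQ : St_SEQ) (hGEX : St_GEX)
    (d : ℕ) (hd : 1 ≤ d) (C : ℝ≥0) (ν : Measure ℝ) [IsProbabilityMeasure ν] (hC : ν ≤ C • volume)
    (κ : ℝ) (hκ : 0 < κ) (hκ4 : κ ≤ 1 / 4) (a b : ℝ)
    (hgood : ∀ n0 : ℕ, ∃ (n : ℕ) (B : Zd d → Set ((Zd d → ℝ) × ℝ)), n0 ≤ n ∧
      Bg d ν (Set.Icc a b) (2 ^ n) (eta d n) (pro κ n) B) (a1 b1 : ℝ) (ha1 : a < a1)
    (hb1 : b1 < b) : ∃ c : ℝ, 0 < c ∧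
      ∀ᵐ V ∂(PP d ν), ∀ E ∈ Set.Icc a1 b1, ∀ ψ : Zd d → ℂ, PolyB ψ →
        IsGen (-1) V E ψ → ∃ A : ℝ, ∀ x, ‖ψ x‖ ≤ A * Real.exp (-(c * ‖x‖)) := by
  have hd1 : (1 : ℝ) ≤ d := by exact_mod_cast hd
  obtain ⟨qS, nS, hseq⟩ := hSEQ d hd C a1 b1 (14 * d) le_rfl
  obtain ⟨P', q', nV, hvr⟩ := hVRE d hd C a a1 b1 b ha1 hb1 (14 * d) qS
  set m2 : ℕ := P' + d + 1 with hm2
  set Q : ℕ := max q' (m2 + d + 1) with hQ
  obtain ⟨nA, hstA⟩ := hSTJ d hd C κ hκ hκ4 (d + 1) (2 * d + 2) Q le_rfl (by omega)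
  obtain ⟨nB, hstB⟩ := hSTJ d hd C κ hκ hκ4 m2 Q Q (by omega) (by omega)
  obtain ⟨N1, hN1⟩ := step_choice d (d + 1) hd (by omega) κ hκ hκ4
  obtain ⟨N2, hN2⟩ := step_choice d m2 hd (by omega) κ hκ hκ4
  choose! sf hsf using hN2
  set N := max (max (max nA nB) (max N1 N2)) (max (max nV nS) 1) with hN
  obtain ⟨n, B, hn, hB⟩ := hgood N
  -- the first step
  obtain ⟨s, hs1, hs2, hs3, hs4, -⟩ := hN1 n (by omega)
  obtain ⟨B1, hB1⟩ := hstA ν hC (Set.Icc a b) n s (by omega) (by exact_mod_cast hs1)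
    (by exact_mod_cast hs2) κ κ le_rfl (by linarith) (by push_cast; linarith) B hB
  -- the exponents
  set P'' : ℝ := max (P' : ℝ) κ with hP''
  have hP0 : 0 ≤ P'' := (Nat.cast_nonneg P').trans (le_max_left _ _)
  set e : ℕ → ℝ := fun k => min ((5 / 4 : ℝ) ^ k * κ) P'' with he
  have he1 : ∀ k, κ ≤ e k := by
    intro k
    refine le_min ?_ (le_max_right _ _)
    have : (1 : ℝ) ≤ (5 / 4) ^ k := one_le_pow₀ (by norm_num)
    nlinarith
  have he2 : ∀ k, e (k + 1) ≤ 5 / 4 * e k := by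
    intro k
    rw [he]
    simp only
    rcases le_total ((5 / 4 : ℝ) ^ k * κ) P'' with h | h
    · rw [min_eq_left h]
      refine (min_le_left _ _).trans (le_of_eq ?_)
      ring
    · rw [min_eq_right h]
      refine (min_le_right _ _).trans ?_
      linarith
  have he3 : ∀ k, e k ≤ m2 - d - 1 / 2 := by
    intro k
    refine (min_le_right _ _).trans ?_
    rw [hm2]
    push_cast
    refine max_le (by linarith) ?_
    have : (0 : ℝ) ≤ P' := Nat.cast_nonneg _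
    linarith
  have hB1' : Bg d ν (Set.Icc a b) (2 ^ (n + s)) (dec Q (n + s)) (pro (e 0) (n + s)) B1 := by
    refine Bg_mono hB1 le_rfl (pro_mono ?_ _)
    rw [he]
    simp only [pow_zero, one_mul]
    exact min_le_left _ _
  obtain ⟨nn, BB, h0, h1, h2, h3⟩ := scales ν (Set.Icc a b) (fun n => dec Q n)
    (fun k n => pro (e k) n) sf N (fun k n hn B hB => by
      have hsn := hsf n (by omega)
      exact hstB ν hC (Set.Icc a b) n (sf n) (by omega) hsn.1 hsn.2.1 (e k) (e (k + 1)) (he1 k)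
        (he2 k) (he3 (k + 1)) B hB) (n + s) (by omega) B1 hB1'
  -- eventually the exponent is at least P'
  obtain ⟨k0, hk0⟩ : ∃ k0 : ℕ, P'' / κ < (5 / 4 : ℝ) ^ k0 :=
    pow_unbounded_of_one_lt _ (by norm_num)
  have hk : (P' : ℝ) ≤ e k0 := by
    refine le_min ?_ (le_max_left _ _)
    have h4 : P'' < (5 / 4 : ℝ) ^ k0 * κ := by rwa [div_lt_iff₀ hκ] at hk0
    have h6 : (P' : ℝ) ≤ P'' := le_max_left _ _
    linarith
  have hB2 : Bg d ν (Set.Icc a b) (2 ^ nn k0) (dec q' (nn k0)) (pro P' (nn k0)) (BB k0) :=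
    Bg_mono (h3 k0) (dec_mono (le_max_left _ _) _) (pro_mono hk _)
  have hnk := h1 k0
  obtain ⟨B3, hB3⟩ := hvr ν hC (nn k0) (by omega) (BB k0) hB2
  obtain ⟨m, hm, mm, BM, g1, g2, g3, g4⟩ := hseq ν hC (nn k0) (by omega) B3 hB3
  exact hGEX d hd ν a1 b1 (14 * d) le_rfl m hm mm BM g1 g2 g3 g4

/-- **exponential decay of the eigenfunctions from one good scale** -/
theorem t_EXPa (hSTJ : St_STJ) (hVRE : St_VRE) (hSEQ : St_SEQ) (hGEX : St_GEX) : St_EXP := by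
  intro d hd C κ hκ hκ4
  have hd1 : (1 : ℝ) ≤ d := by exact_mod_cast hd
  obtain ⟨n0, hst⟩ := hSTJ d hd C κ hκ hκ4 (d + 1) (2 * d + 2) (2 * d + 2) le_rfl (by omega)
  obtain ⟨N1, hN1⟩ := step_choice d (d + 1) hd (by omega) κ hκ hκ4
  choose! sf hsf using hN1
  set N := max (max n0 N1) 1 with hN
  refine ⟨N, fun ν _ hC a b n hn B hB a1 b1 ha1 hb1 => ?_⟩
  obtain ⟨nn, BB, h0, h1, h2, h3⟩ := scales ν (Set.Icc a b) (fun n => dec (2 * d + 2) n)
    (fun _ n => pro κ n) sf N (fun k n hn B hB => by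
      have hsn := hsf n (by omega)
      refine hst ν hC (Set.Icc a b) n (sf n) (by omega) (by exact_mod_cast hsn.1)
        (by exact_mod_cast hsn.2.1) κ κ le_rfl (by linarith) ?_ B hB
      push_cast
      linarith) n hn B hB
  have hgr : ∀ k, k ≤ nn k := by
    intro k
    induction k with
    | zero => omega
    | succ k ih =>
      have := (hsf (nn k) (by have := h1 k; omega)).2.2.1
      rw [h2 k]; omega
  exact exb hSTJ hVRE hSEQ hGEX d hd C ν hC κ hκ hκ4 a b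
    (fun n1 => ⟨nn n1, BB n1, hgr n1, h3 n1⟩) a1 b1 ha1 hb1

end Pool.Agent.Helper28.Tg
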