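import Pool.Agent.Helper28.Tg.Inj2
import Pool.Agent.Helper28.Tg.Defs6
import Pool.Graph.R_pool_sql_team_seeded_b3bd081e.H541R3.AND.Model

/-! # The transport gap: assembly -/

set_option autoImplicit false

open MeasureTheory Filter Topology
open scoped BigOperators ENNReal NNReal InnerProductSpace ComplexConjugate

namespace Pool.Agent.Helper28.Tg

open Pool.Agent.H4R2.LO (Zd dd bx Hg L2f IsSpec PolyB IsGen)
open Pool.Agent.H5R2.NB (UG L2 dl IsGrp PP)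

theorem esc_anti {d : ℕ} (ev : (Zd d → ℝ) → UG (L2 (Zd d))) (ν : Measure ℝ)
    [IsProbabilityMeasure ν] (I I' : Set ℝ) (hI : I ⊆ I') (T R R' : ℝ) (hR : R ≤ R') :
    esc ev ν I T R' ≤ esc ev ν I' T R := by
  unfold esc
  refine mul_le_mul_right ?_ _
  refine (lintegral_mono_set hI).trans ?_
  refine lintegral_mono fun E => lintegral_mono fun V => ENNReal.tsum_le_tsum fun y => ?_
  by_cases h : R' ≤ ‖y‖
  · rw [if_pos h, if_pos (hR.trans h)]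
  · rw [if_neg h]
    exact zero_le

/-- the transport gap, in terms of the potential -/
theorem gap (hBSM : St_BSM) (d : ℕ) (hd : 1 ≤ d) (C : ℝ≥0) (α : ℝ) (hα : α < 1 / d)
    (a' a b b' : ℝ) (ha : a' < a) (hb : b < b') :
    ∃ T0 : ℝ, ∀ (ν : Measure ℝ) [IsProbabilityMeasure ν], ν ≤ C • volume →
      ∀ ev : (Zd d → ℝ) → UG (L2 (Zd d)), (∀ V, IsGrp (-1) V (ev V)) → ∀ T : ℝ, T0 ≤ T →
      esc ev ν (Set.Icc a' b') T (T ^ α) ≤ ENNReal.ofReal (T ^ (-20 : ℝ)) →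
      (∀ᵐ V ∂(PP d ν), ∀ (x : Zd d) (m : Measure ℝ), IsSpec (-1) V (Pi.single x 1) m →
        ∃ N : Set ℝ, N.Countable ∧ m (Set.Icc a b \ N) = 0) ∧
      ∀ P : ℕ, ∃ A : ℝ, 0 < A ∧ ∀ x y : Zd d,
        ∃ g : (Zd d → ℝ) → ℝ≥0∞, Measurable g ∧ (∀ V, corr V (Set.Icc a b) x y ≤ g V) ∧
          ∫⁻ V, g V ∂(PP d ν) ≤ ENNReal.ofReal (A * (1 + ‖x - y‖) ^ (-(P : ℝ) / 2)) := by
  have hd0 : (0 : ℝ) < d := by exact_mod_cast hd
  set α' : ℝ := max α (1 / (2 * d)) with hα'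
  have h1 : 0 < α' := lt_of_lt_of_le (by positivity) (le_max_right _ _)
  have h2 : α' < 1 / d := max_lt hα (by
    rw [div_lt_div_iff₀ (by positivity) hd0]
    linarith)
  have h3 : α' * d < 1 := by
    rw [lt_div_iff₀ hd0] at h2
    exact h2
  obtain ⟨κ, hκ0, hκ4, hκ⟩ := t_INJ d hd C α' h1 h3
  obtain ⟨n0, hn0⟩ := hBSM d hd C κ hκ0 hκ4
  have hbm : (b + b') / 2 < b' := by linarith
  obtain ⟨T0, hT0⟩ := hκ a' b' ((b + b') / 2) hbm n0
  refine ⟨max T0 1, fun ν _ hC ev hev T hT hesc => ?_⟩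
  have hT1 : 1 ≤ T := (le_max_right _ _).trans hT
  have hesc' : esc ev ν (Set.Icc a' b') T (T ^ α') ≤ ENNReal.ofReal (T ^ (-20 : ℝ)) :=
    (esc_anti ev ν _ _ subset_rfl T _ _
      (Real.rpow_le_rpow_of_exponent_le hT1 (le_max_left _ _))).trans hesc
  obtain ⟨n, B, hn, hB⟩ := hT0 T ((le_max_left _ _).trans hT) ν hC ev hev hesc'
  obtain ⟨hpp, hco⟩ := hn0 ν hC a' ((b + b') / 2) n hn B hB
  refine ⟨?_, hco a b ha (by linarith)⟩
  filter_upwards [hpp] with V hV x m hm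
  obtain ⟨N, hN, hN0⟩ := hV x m hm
  refine ⟨N, hN, measure_mono_null ?_ hN0⟩
  exact Set.sdiff_subset_sdiff_left (Set.Icc_subset_Icc ha.le (by linarith))

end Pool.Agent.Helper28.Tg
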