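import Pool.Agent.Helper28.Tg.Ini

/-! # The initial scale: choice of the parameters -/

set_option autoImplicit false

open MeasureTheory Filter Topology
open scoped BigOperators ENNReal NNReal InnerProductSpace ComplexConjugate

namespace Pool.Agent.Helper28.Tg

open Pool.Agent.H4R2.LO (Zd dd bx Hg L2f IsSpec PolyB IsGen Hm AL rs adj Near)
open Pool.Agent.H5R2.NB (UG L2 dl IsGrp PP)

namespace Ini

/-- the scale -/
theorem scale (α T : ℝ) (hα : 0 < α) (hT : 1 ≤ T) : ∃ n : ℕ, 2 * T ^ α ≤ (2 : ℝ) ^ n ∧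
    (2 : ℝ) ^ n ≤ 4 * T ^ α := by
  have hT0 : 0 < T := by linarith
  set x : ℝ := α * Real.logb 2 T with hx
  have hx0 : 0 ≤ x := mul_nonneg hα.le (Real.logb_nonneg (by norm_num) hT)
  have h1 : (2 : ℝ) ^ x = T ^ α := by
    rw [hx, mul_comm, Real.rpow_mul (by norm_num), Real.rpow_logb (by norm_num) (by norm_num) hT0]
  refine ⟨⌈x⌉₊ + 1, ?_, ?_⟩
  · rw [pow_succ, mul_comm]
    refine mul_le_mul_of_nonneg_right ?_ (by norm_num)
    rw [← h1, ← Real.rpow_natCast]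
    exact Real.rpow_le_rpow_of_exponent_le (by norm_num) (Nat.le_ceil x)
  · have h2 : (2 : ℝ) ^ (⌈x⌉₊ : ℕ) ≤ 2 * T ^ α := by
      rw [← h1, ← Real.rpow_natCast]
      calc (2 : ℝ) ^ ((⌈x⌉₊ : ℕ) : ℝ) ≤ (2 : ℝ) ^ (x + 1) :=
            Real.rpow_le_rpow_of_exponent_le (by norm_num) (Nat.ceil_lt_add_one hx0).le
        _ = 2 * 2 ^ x := by
            rw [Real.rpow_add (by norm_num), Real.rpow_one]
            ring
    rw [pow_succ]
    linarith

/-- powers of the scale -/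
theorem pow_le (α T L e a : ℝ) (hT : 1 ≤ T) (hL : 0 < L) (hL4 : L ≤ 4 * T ^ α)
    (he : 0 ≤ e) (ha : α * e ≤ a) : L ^ e ≤ 4 ^ e * T ^ a := by
  have hT0 : 0 < T := by linarith
  calc L ^ e ≤ (4 * T ^ α) ^ e := Real.rpow_le_rpow hL.le hL4 he
    _ = 4 ^ e * T ^ (α * e) := by
        rw [Real.mul_rpow (by norm_num) (by positivity), ← Real.rpow_mul hT0.le]
    _ ≤ 4 ^ e * T ^ a := by
        refine mul_le_mul_of_nonneg_left ?_ (by positivity)
        exact Real.rpow_le_rpow_of_exponent_le hT ha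

end Ini

open Ini in
theorem t_INI : St_INI := by
  intro d hd C α hα hαd
  have hd1 : (1 : ℝ) ≤ d := by exact_mod_cast hd
  have hd0 : (0 : ℝ) < d := by linarith
  set g : ℝ := 1 - α * d with hg
  have hg0 : 0 < g := by rw [hg]; linarith
  have hα1 : α ≤ 1 := by nlinarith
  set κ : ℝ := min (1 / 4) (g / (4 * α)) with hκ
  have hκ0 : 0 < κ := lt_min (by norm_num) (by positivity)
  have hκ4 : κ ≤ 1 / 4 := min_le_left _ _
  have hακ : α * κ ≤ g / 4 := by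
    have h1 : κ ≤ g / (4 * α) := min_le_right _ _
    calc α * κ ≤ α * (g / (4 * α)) := mul_le_mul_of_nonneg_left h1 hα.le
      _ = g / 4 := by field_simp
  refine ⟨κ, hκ0, hκ4, fun n0 => ?_⟩
  set ζ : ℝ := 1 - α * (d + 2 * κ) with hζ
  have hζ0 : 0 < ζ := by rw [hζ]; nlinarith
  obtain ⟨K, hK⟩ : ∃ K : ℕ, 8 / ζ ≤ K := exists_nat_ge _
  rw [div_le_iff₀ hζ0] at hK
  set eB : ℝ := 3 * d + 2 + (d + 2 * κ) * (K + 1) with heB
  have heB0 : 0 ≤ eB := by rw [heB]; positivity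
  set cA : ℝ := 12 * d ^ 2 * 9 ^ d * 2 ^ K * 4 ^ (4 * d + 2 : ℝ) with hcA
  set cB : ℝ := 4 * d * 3 ^ d * K.factorial * 4 ^ eB with hcB
  set cC : ℝ := 16 * C * 3 ^ d with hcC
  set cD : ℝ := 2 * 25 ^ d * 4 ^ (2 * d + κ) with hcD
  have hev1 : ∀ᶠ T : ℝ in atTop, 1 ≤ T := eventually_ge_atTop 1
  have hevA : ∀ᶠ T : ℝ in atTop, cA ≤ T := eventually_ge_atTop cA
  have hevB : ∀ᶠ T : ℝ in atTop, cB ≤ T := eventually_ge_atTop cB
  have hevC : ∀ᶠ T : ℝ in atTop, cC ≤ T ^ (α * κ) :=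
    (tendsto_rpow_atTop (mul_pos hα hκ0)).eventually_ge_atTop _
  have hevD : ∀ᶠ T : ℝ in atTop, cD ≤ T ^ g := (tendsto_rpow_atTop hg0).eventually_ge_atTop _
  have hevn : ∀ᶠ T : ℝ in atTop, (2 : ℝ) ^ n0 ≤ T ^ α :=
    (tendsto_rpow_atTop hα).eventually_ge_atTop _
  obtain ⟨T0, hT0⟩ := (((hev1.and hevA).and (hevB.and hevC)).and (hevD.and hevn)).exists_forall_of_atTop
  refine ⟨T0, fun T hT ν _ hC ev hev htail => ?_⟩
  obtain ⟨⟨⟨hT1, hTA⟩, hTB, hTC⟩, hTD, hTn⟩ := hT0 T hT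
  have hTp : 0 < T := by linarith
  obtain ⟨n, hn1, hn2⟩ := scale α T hα hT1
  set L : ℝ := (2 : ℝ) ^ n with hL
  have hTα1 : 1 ≤ T ^ α := Real.one_le_rpow hT1 hα.le
  have hL1 : 1 ≤ L := by linarith
  have hL0 : 0 < L := by linarith
  have hnn : n0 ≤ n := by
    by_contra hlt
    rw [not_le] at hlt
    have h1 : (2 : ℝ) ^ n ≤ 2 ^ n0 := pow_le_pow_right₀ (by norm_num) hlt.le
    have h2 : L ≤ T ^ α := by rw [hL]; linarith
    linarith
  set δ : ℝ := L ^ (-(d + 2 * κ)) with hδ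
  have hδ0 : 0 < δ := by positivity
  set ε0 : ℝ := T ^ (-8 : ℝ) with hε0
  have hε0p : 0 < ε0 := by positivity
  have heta : eta d n = L ^ (-(2 * d + 2 : ℝ)) := by
    unfold eta
    rw [hL, Real.rpow_neg (by positivity), pow_mul', ← Real.rpow_natCast ((2 : ℝ) ^ n)]
    push_cast
    rfl
  have hpro : pro κ n = L ^ (-κ) := by
    unfold pro
    rw [hL, ← Real.rpow_natCast, ← Real.rpow_mul (by norm_num)]
    congr 1
    ring
  have hc : (2 * L + 1) ^ d ≤ 3 ^ d * L ^ (d : ℝ) := by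
    rw [Real.rpow_natCast, ← mul_pow]
    exact pow_le_pow_left₀ (by positivity) (by linarith) d
  have hc' : (2 * (L + 1) + 1) ^ d ≤ 5 ^ d * L ^ (d : ℝ) := by
    rw [Real.rpow_natCast, ← mul_pow]
    exact pow_le_pow_left₀ (by positivity) (by linarith) d
  set c : ℝ := (2 * L + 1) ^ d with hcdef
  have hc0 : 0 < c := by positivity
  -- the term A
  have hA : 2 * d * c * (2 ^ K * (ε0 + 2 * d * c * ε0 * T)) ≤ eta d n / 2 := by
    have h1 : ε0 + 2 * d * c * ε0 * T ≤ 3 * d * (3 ^ d * L ^ (d : ℝ)) * ε0 * T := by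
      have h2 : 1 ≤ d * (3 ^ d * L ^ (d : ℝ)) * T := by
        have h3 : (1 : ℝ) ≤ 3 ^ d := one_le_pow₀ (by norm_num)
        have h4 : (1 : ℝ) ≤ L ^ (d : ℝ) := Real.one_le_rpow hL1 hd0.le
        have h5 : (1 : ℝ) ≤ 3 ^ d * L ^ (d : ℝ) := by nlinarith
        have h6 : (1 : ℝ) ≤ d * (3 ^ d * L ^ (d : ℝ)) := by nlinarith
        nlinarith
      have h7 : 2 * d * c * ε0 * T ≤ 2 * d * (3 ^ d * L ^ (d : ℝ)) * ε0 * T := by gcongr
      nlinarith
    have hb : L ^ (4 * d + 2 : ℝ) ≤ 4 ^ (4 * d + 2 : ℝ) * T ^ (6 : ℝ) :=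
      pow_le α T L _ 6 hT1 hL0 hn2 (by positivity) (by nlinarith)
    calc 2 * d * c * (2 ^ K * (ε0 + 2 * d * c * ε0 * T))
        ≤ 2 * d * (3 ^ d * L ^ (d : ℝ)) * (2 ^ K * (3 * d * (3 ^ d * L ^ (d : ℝ)) * ε0 * T)) := by
          gcongr
      _ = (6 * d ^ 2 * 9 ^ d * 2 ^ K) * (L ^ (d : ℝ) * L ^ (d : ℝ)) * (ε0 * T) := by
          have : (9 : ℝ) ^ d = 3 ^ d * 3 ^ d := by rw [← mul_pow]; norm_num
          rw [this]
          ring
      _ = (6 * d ^ 2 * 9 ^ d * 2 ^ K) * L ^ (4 * d + 2 : ℝ) * T ^ (-7 : ℝ) *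
            L ^ (-(2 * d + 2 : ℝ)) := by
          have e1 : L ^ (d : ℝ) * L ^ (d : ℝ) = L ^ (4 * d + 2 : ℝ) * L ^ (-(2 * d + 2 : ℝ)) := by
            rw [← Real.rpow_add hL0, ← Real.rpow_add hL0]
            congr 1
            ring
          have e2 : ε0 * T = T ^ (-7 : ℝ) := by
            rw [hε0]
            nth_rewrite 2 [← Real.rpow_one T]
            rw [← Real.rpow_add hTp]
            norm_num
          rw [e1, e2]
          ring
      _ ≤ (6 * d ^ 2 * 9 ^ d * 2 ^ K) * (4 ^ (4 * d + 2 : ℝ) * T ^ (6 : ℝ)) * T ^ (-7 : ℝ) *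
            L ^ (-(2 * d + 2 : ℝ)) := by gcongr
      _ = (cA / T) / 2 * L ^ (-(2 * d + 2 : ℝ)) := by
          have e3 : T ^ (6 : ℝ) * T ^ (-7 : ℝ) = 1 / T := by
            rw [← Real.rpow_add hTp, one_div, ← Real.rpow_neg_one]
            norm_num
          have e4 : (6 * d ^ 2 * 9 ^ d * 2 ^ K) * (4 ^ (4 * d + 2 : ℝ) * T ^ (6 : ℝ)) *
              T ^ (-7 : ℝ) = (6 * d ^ 2 * 9 ^ d * 2 ^ K) * 4 ^ (4 * d + 2 : ℝ) *
                (T ^ (6 : ℝ) * T ^ (-7 : ℝ)) := by ring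
          rw [e4, e3, hcA]
          ring
      _ ≤ 1 / 2 * L ^ (-(2 * d + 2 : ℝ)) := by
          have : cA / T ≤ 1 := (div_le_one hTp).2 hTA
          gcongr
      _ = eta d n / 2 := by rw [heta]; ring
  -- the term B
  have hB : 2 * d * c * (K.factorial * (1 / T) ^ K / δ ^ (K + 1)) ≤ eta d n / 2 := by
    have hb : L ^ eB ≤ 4 ^ eB * T ^ ((K : ℝ) - 1) :=
      pow_le α T L _ _ hT1 hL0 hn2 heB0 (by
        have h1 : α * eB = α * (3 * d + 2) + α * (d + 2 * κ) + α * (d + 2 * κ) * K := by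
          rw [heB]; ring
        have h2 : α * (d + 2 * κ) = 1 - ζ := by rw [hζ]; ring
        rw [h1, h2]
        nlinarith)
    have e5 : (δ ^ (K + 1))⁻¹ = L ^ ((d + 2 * κ) * (K + 1)) := by
      rw [hδ, ← Real.rpow_natCast, ← Real.rpow_mul hL0.le, ← Real.rpow_neg hL0.le]
      congr 1
      push_cast
      ring
    calc 2 * d * c * (K.factorial * (1 / T) ^ K / δ ^ (K + 1))
        ≤ 2 * d * (3 ^ d * L ^ (d : ℝ)) * (K.factorial * (1 / T) ^ K / δ ^ (K + 1)) := by gcongr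
      _ = (2 * d * 3 ^ d * K.factorial) * (L ^ (d : ℝ) * L ^ ((d + 2 * κ) * (K + 1))) *
            (1 / T) ^ K := by
          rw [div_eq_mul_inv _ (δ ^ (K + 1)), e5]
          ring
      _ = (2 * d * 3 ^ d * K.factorial) * L ^ eB * (1 / T) ^ K * L ^ (-(2 * d + 2 : ℝ)) := by
          have e6 : L ^ (d : ℝ) * L ^ ((d + 2 * κ) * (K + 1)) =
              L ^ eB * L ^ (-(2 * d + 2 : ℝ)) := by
            rw [← Real.rpow_add hL0, ← Real.rpow_add hL0]
            congr 1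
            rw [heB]
            ring
          rw [e6]
          ring
      _ ≤ (2 * d * 3 ^ d * K.factorial) * (4 ^ eB * T ^ ((K : ℝ) - 1)) * (1 / T) ^ K *
            L ^ (-(2 * d + 2 : ℝ)) := by gcongr
      _ = (cB / T) / 2 * L ^ (-(2 * d + 2 : ℝ)) := by
          have e7 : T ^ ((K : ℝ) - 1) * (1 / T) ^ K = 1 / T := by
            rw [Real.rpow_sub_one hTp.ne', Real.rpow_natCast, one_div_pow]
            field_simp
          have e8 : (2 * d * 3 ^ d * K.factorial) * (4 ^ eB * T ^ ((K : ℝ) - 1)) * (1 / T) ^ K =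
              (2 * d * 3 ^ d * K.factorial) * 4 ^ eB * (T ^ ((K : ℝ) - 1) * (1 / T) ^ K) := by
            ring
          rw [e8, e7, hcB]
          ring
      _ ≤ 1 / 2 * L ^ (-(2 * d + 2 : ℝ)) := by
          have : cB / T ≤ 1 := (div_le_one hTp).2 hTB
          gcongr
      _ = eta d n / 2 := by rw [heta]; ring
  -- the term C
  have hC' : 8 * C * δ * c ≤ pro κ n / 2 := by
    have h1 : cC ≤ L ^ κ := by
      refine hTC.trans ?_
      rw [Real.rpow_mul hTp.le]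
      exact Real.rpow_le_rpow (by positivity) (by linarith) hκ0.le
    calc 8 * C * δ * c ≤ 8 * C * δ * (3 ^ d * L ^ (d : ℝ)) := by gcongr
      _ = cC / 2 * (L ^ (d : ℝ) * δ) := by rw [hcC]; ring
      _ = cC / 2 * (L ^ (-κ) * L ^ (-κ)) := by
          congr 1
          rw [hδ, ← Real.rpow_add hL0, ← Real.rpow_add hL0]
          congr 1
          ring
      _ ≤ L ^ κ / 2 * (L ^ (-κ) * L ^ (-κ)) := by gcongr
      _ = pro κ n / 2 := by
          have e9 : L ^ κ * L ^ (-κ) = 1 := by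
            rw [← Real.rpow_add hL0]; simp
          rw [hpro]
          linear_combination (L ^ (-κ) / 2) * e9
  -- the term D
  have hD : ((2 * (L + 1) + 1) ^ d) ^ 2 * (T ^ 2 / ε0 ^ 2 * T ^ (-20 : ℝ)) ≤ pro κ n / 2 := by
    have e10 : T ^ 2 / ε0 ^ 2 * T ^ (-20 : ℝ) = T ^ (-2 : ℝ) := by
      rw [hε0, div_eq_mul_inv, ← Real.rpow_natCast (T ^ (-8 : ℝ)), ← Real.rpow_mul hTp.le,
        ← Real.rpow_neg hTp.le, ← Real.rpow_natCast T, ← Real.rpow_add hTp, ← Real.rpow_add hTp]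
      norm_num
    have hb : L ^ (2 * d + κ) ≤ 4 ^ (2 * d + κ) * T ^ (2 - g) :=
      pow_le α T L _ _ hT1 hL0 hn2 (by positivity) (by nlinarith)
    rw [e10]
    calc ((2 * (L + 1) + 1) ^ d) ^ 2 * T ^ (-2 : ℝ)
        ≤ (5 ^ d * L ^ (d : ℝ)) ^ 2 * T ^ (-2 : ℝ) := by gcongr
      _ = 25 ^ d * L ^ (2 * d + κ) * T ^ (-2 : ℝ) * L ^ (-κ) := by
          have e11 : (5 ^ d * L ^ (d : ℝ)) ^ 2 = 25 ^ d * (L ^ (2 * d + κ) * L ^ (-κ)) := by
            have a1 : ((5 : ℝ) ^ d) ^ 2 = 25 ^ d := by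
              rw [← pow_mul, mul_comm d 2, pow_mul]
              norm_num
            have a2 : (L ^ (d : ℝ)) ^ 2 = L ^ (2 * d + κ + -κ) := by
              rw [← Real.rpow_natCast (L ^ (d : ℝ)), ← Real.rpow_mul hL0.le]
              congr 1
              push_cast
              ring
            rw [mul_pow, ← Real.rpow_add hL0, a1, a2]
          rw [e11]
          ring
      _ ≤ 25 ^ d * (4 ^ (2 * d + κ) * T ^ (2 - g)) * T ^ (-2 : ℝ) * L ^ (-κ) := by gcongr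
      _ = (cD / T ^ g) / 2 * L ^ (-κ) := by
          have e12 : T ^ (2 - g) * T ^ (-2 : ℝ) = 1 / T ^ g := by
            rw [← Real.rpow_add hTp, one_div, ← Real.rpow_neg hTp.le]
            congr 1
            ring
          have e13 : 25 ^ d * (4 ^ (2 * d + κ) * T ^ (2 - g)) * T ^ (-2 : ℝ) =
              25 ^ d * 4 ^ (2 * d + κ) * (T ^ (2 - g) * T ^ (-2 : ℝ)) := by ring
          rw [e13, e12, hcD]
          ring
      _ ≤ 1 / 2 * L ^ (-κ) := by
          have : cD / T ^ g ≤ 1 := (div_le_one (by positivity)).2 hTD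
          gcongr
      _ = pro κ n / 2 := by rw [hpro]; ring
  obtain ⟨B, hBf⟩ := core hd ν C hC hev T (T ^ α) hTp n K δ ε0 (T ^ (-20 : ℝ)) (pro κ n) hδ0 hε0p
    (by positivity) (by rw [← hL]; exact hn1) htail
    (by
      rw [← hL, ← hcdef, mul_add]
      linarith)
    (by
      rw [← hL, ← hcdef]
      linarith)
  exact ⟨n, B, hnn, hBf⟩

end Pool.Agent.Helper28.Tg
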