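import Pool.Agent.Helper28.Tg.Inj
import Pool.Agent.Helper28.Tg.Ini2
import Pool.Agent.Helper28.Tg.Defs9

/-! # Probability of the square sum estimate -/

set_option autoImplicit false

open MeasureTheory Filter Topology
open scoped BigOperators ENNReal NNReal InnerProductSpace ComplexConjugate

namespace Pool.Agent.Helper28.Tg

open Pool.Agent.H4R2.LO (Zd dd bx Hg L2f IsSpec PolyB IsGen Hm AL rs adj Near)
open Pool.Agent.H4R2.LO.Em (dd_le_iff le_dd dd_self dd_comm dd_tri mem_bx card_bx adj_symm adj_self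
  AL_symm em_count rs_map dd_norm)
open Pool.Agent.H5R2.NB (UG L2 dl IsGrp PP)

namespace Pr2

open Inj

theorem lapc {d : ℕ} {c : ℝ}
    {ev : (Zd d → ℝ) → UG (L2 (Zd d))} (hev : ∀ V, IsGrp c V (ev V)) (η : ℝ) (hη : 0 < η)
    (E : ℝ) (u w : Zd d) : Continuous fun V : Zd d → ℝ =>
      lap (ev V) ((E : ℂ) + (η : ℝ) * Complex.I) u w := by
  have hL := t_LCT d c ev hev η hη u w
  have hg : Continuous fun V : Zd d → ℝ => ((V, E) : (Zd d → ℝ) × ℝ) := by fun_prop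
  have := hL.comp hg
  exact this

theorem g2_mono {d : ℕ} (x : Zd d) (l : ℕ) (q q' A : ℝ) (hq : q ≤ q') (V : Zd d → ℝ) (E : ℝ)
    (h : G2 x l q A V E) : G2 x l q' A V E := by
  intro f hf
  refine (h f hf).trans ?_
  have h1 : 0 ≤ ∑ y ∈ bx x l, f y ^ 2 +
        ∑ w ∈ (bx x l).filter (fun w => dd x w = l), (Hr V f w - E * f w) ^ 2 :=
    add_nonneg (Finset.sum_nonneg fun _ _ => by positivity)
      (Finset.sum_nonneg fun _ _ => by positivity)
  have := mul_le_mul_of_nonneg_right hq h1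
  linarith

/-- the mean square sum at one site -/
theorem mean {d : ℕ} (ν : Measure ℝ) [IsProbabilityMeasure ν] {c : ℝ}
    {ev : (Zd d → ℝ) → UG (L2 (Zd d))} (hev : ∀ V, IsGrp c V (ev V)) (η : ℝ) (hη : 0 < η)
    (R E : ℝ) (u : Zd d) (s : Finset (Zd d)) (hR : ∀ y ∈ s, R ≤ ‖y - u‖) :
    ∫⁻ V, ∑ y ∈ s, ‖lap (ev V) ((E : ℂ) + (η : ℝ) * Complex.I) u y‖ₑ ^ 2 ∂(PP d ν) ≤
      Fe ev ν η R E := by
  classical
  have hmp := (Pool.Agent.H5R2.NB.t_RES d ν).2 u
  have h1 : ∫⁻ V, ∑ y ∈ s, ‖lap (ev V) ((E : ℂ) + (η : ℝ) * Complex.I) u y‖ₑ ^ 2 ∂(PP d ν) =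
      ∫⁻ V, ∑ y ∈ s, ‖lap (ev V) ((E : ℂ) + (η : ℝ) * Complex.I) 0 (y - u)‖ₑ ^ 2 ∂(PP d ν) := by
    have hm : Measurable fun V : Zd d → ℝ =>
        ∑ y ∈ s, ‖lap (ev V) ((E : ℂ) + (η : ℝ) * Complex.I) 0 (y - u)‖ₑ ^ 2 :=
      Finset.measurable_sum _ fun y _ => (lapc hev η hη E 0 (y - u)).enorm.measurable.pow_const 2
    rw [← hmp.lintegral_comp hm]
    refine lintegral_congr fun V => Finset.sum_congr rfl fun y _ => ?_
    rw [lap_cov hev V]
  rw [h1]
  unfold Fe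
  refine lintegral_mono fun V => ?_
  have h2 : ∑ y ∈ s, ‖lap (ev V) ((E : ℂ) + (η : ℝ) * Complex.I) 0 (y - u)‖ₑ ^ 2 =
      ∑ y ∈ s, (fun y : Zd d => if R ≤ ‖y - u‖ then
        ‖lap (ev V) ((E : ℂ) + (η : ℝ) * Complex.I) 0 (y - u)‖ₑ ^ 2 else 0) y := by
    refine Finset.sum_congr rfl fun y hy => ?_
    simp only []
    rw [if_pos (hR y hy)]
  have h3 : ∑' y : Zd d, (if R ≤ ‖y‖ then ‖lap (ev V) ((E : ℂ) + (η : ℝ) * Complex.I) 0 y‖ₑ ^ 2
      else 0) = ∑' y : Zd d, (fun y : Zd d => if R ≤ ‖y - u‖ then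
        ‖lap (ev V) ((E : ℂ) + (η : ℝ) * Complex.I) 0 (y - u)‖ₑ ^ 2 else 0) y :=
    ((Equiv.subRight u).tsum_eq (fun y : Zd d =>
      if R ≤ ‖y‖ then ‖lap (ev V) ((E : ℂ) + (η : ℝ) * Complex.I) 0 y‖ₑ ^ 2 else 0)).symm
  simp only []
  rw [h3]
  simp only []
  rw [Finset.sum_congr rfl fun y hy => if_pos (hR y hy) |>.symm]
  exact ENNReal.sum_le_tsum s

/-- Markov's inequality for the square sums -/
theorem mark {d : ℕ} (ν : Measure ℝ) [IsProbabilityMeasure ν] {c : ℝ}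
    {ev : (Zd d → ℝ) → UG (L2 (Zd d))} (hev : ∀ V, IsGrp c V (ev V)) (η : ℝ) (hη : 0 < η)
    (R E ε τ : ℝ) (hε : 0 < ε) (hτ : 0 ≤ τ) (hF : Fe ev ν η R E ≤ ENNReal.ofReal τ)
    (x : Zd d) (l : ℕ) (hR : 2 * R ≤ l) :
    (PP d ν) {V | ε < ∑ u ∈ (bx x l).filter (fun u => 2 * dd x u ≤ l),
      ∑ y ∈ (bx x (l + 1)).filter (fun y => l ≤ dd x y),
        ‖lap (ev V) ((E : ℂ) + (η : ℝ) * Complex.I) u y‖ ^ 2} ≤
      ENNReal.ofReal ((bx x l).card * τ / ε) := by
  classical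
  set z : ℂ := (E : ℂ) + (η : ℝ) * Complex.I with hz
  set X : (Zd d → ℝ) → ℝ≥0∞ := fun V => ∑ u ∈ (bx x l).filter (fun u => 2 * dd x u ≤ l),
      ∑ y ∈ (bx x (l + 1)).filter (fun y => l ≤ dd x y), ‖lap (ev V) z u y‖ₑ ^ 2 with hX
  have hXm : Measurable X :=
    Finset.measurable_sum _ fun u _ => Finset.measurable_sum _ fun y _ =>
      (lapc hev η hη E u y).enorm.measurable.pow_const 2
  have hsub : {V | ε < ∑ u ∈ (bx x l).filter (fun u => 2 * dd x u ≤ l),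
      ∑ y ∈ (bx x (l + 1)).filter (fun y => l ≤ dd x y), ‖lap (ev V) z u y‖ ^ 2} ⊆
      {V | ENNReal.ofReal ε ≤ X V} := by
    intro V hV
    rw [Set.mem_ofPred_eq] at hV ⊢
    have h1 : X V = ENNReal.ofReal (∑ u ∈ (bx x l).filter (fun u => 2 * dd x u ≤ l),
      ∑ y ∈ (bx x (l + 1)).filter (fun y => l ≤ dd x y), ‖lap (ev V) z u y‖ ^ 2) := by
      rw [hX]
      simp only []
      rw [ENNReal.ofReal_sum_of_nonneg fun _ _ => Finset.sum_nonneg fun _ _ => by positivity]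
      refine Finset.sum_congr rfl fun u _ => ?_
      rw [ENNReal.ofReal_sum_of_nonneg fun _ _ => by positivity]
      refine Finset.sum_congr rfl fun y _ => ?_
      rw [ENNReal.ofReal_pow (norm_nonneg _), ofReal_norm]
    rw [h1]
    exact ENNReal.ofReal_le_ofReal hV.le
  refine (measure_mono hsub).trans ?_
  have h5 := meas_ge_le_lintegral_div (μ := PP d ν) (f := X) hXm.aemeasurable
    (ε := ENNReal.ofReal ε) (by
      rw [Ne, ENNReal.ofReal_eq_zero, not_le]; positivity) ENNReal.ofReal_ne_top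
  refine h5.trans ?_
  have h6 : ∫⁻ V, X V ∂(PP d ν) ≤ (bx x l).card * ENNReal.ofReal τ := by
    rw [hX]
    simp only []
    rw [lintegral_finsetSum _ fun u _ => Finset.measurable_sum _ fun y _ =>
      (lapc hev η hη E u y).enorm.measurable.pow_const 2]
    calc ∑ u ∈ (bx x l).filter (fun u => 2 * dd x u ≤ l),
          ∫⁻ V, ∑ y ∈ (bx x (l + 1)).filter (fun y => l ≤ dd x y), ‖lap (ev V) z u y‖ₑ ^ 2
            ∂(PP d ν) ≤ ∑ _u ∈ (bx x l).filter (fun u => 2 * dd x u ≤ l), ENNReal.ofReal τ := by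
          refine Finset.sum_le_sum fun u hu => ?_
          refine (mean ν hev η hη R E u _ ?_).trans hF
          intro y hy
          rw [Finset.mem_filter, mem_bx] at hu hy
          have h4 := dd_tri x u y
          have h5 : l ≤ 2 * dd u y := by omega
          have h6 : (l : ℝ) ≤ 2 * (dd u y : ℝ) := by exact_mod_cast h5
          rw [dd_norm] at h6
          rw [norm_sub_rev]
          linarith
      _ ≤ (bx x l).card * ENNReal.ofReal τ := by
          rw [Finset.sum_const, nsmul_eq_mul]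
          gcongr
          exact Finset.filter_subset _ _
  calc (∫⁻ V, X V ∂(PP d ν)) / ENNReal.ofReal ε
      ≤ ((bx x l).card * ENNReal.ofReal τ) / ENNReal.ofReal ε := by gcongr
    _ = ENNReal.ofReal ((bx x l).card * τ / ε) := by
        rw [ENNReal.ofReal_div_of_pos hε, ENNReal.ofReal_mul (by positivity),
          ENNReal.ofReal_natCast]

/-- the probability with explicit parameters -/
theorem prb {d : ℕ} (hDT : St_DT2) (hd : 1 ≤ d) (ν : Measure ℝ) [IsProbabilityMeasure ν] (C : ℝ≥0)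
    (hC : ν ≤ C • volume) {ev : (Zd d → ℝ) → UG (L2 (Zd d))} (hev : ∀ V, IsGrp (-1) V (ev V))
    (T R a b b1 : ℝ) (hT : 0 < T) (n K : ℕ) (hK : 1 ≤ K) (δ ε τ q : ℝ) (hδ : 0 < δ) (hε : 0 < ε)
    (hτ : 0 < τ) (hR : 2 * R ≤ 2 ^ n)
    (hesc : esc ev ν (Set.Icc a b) T R ≤ ENNReal.ofReal τ)
    (hb : b1 + δ / 16 ≤ b) (hη : 1 / (2 * T) ≤ δ / 16)
    (h1 : 100 * d ^ 2 * ((8 * K + 1) ^ K) ^ 2 * ε + 2 * ((1 / 4) ^ K) ^ 2 ≤ q) (x : Zd d) (E : ℝ)
    (hE : E ∈ Set.Icc a b1) :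
    (PP d ν) {V | ¬ G2 x (2 ^ n) q (6 * ((8 * K + 1) ^ K) ^ 2 *
      ((2 * 2 ^ n + 1) ^ d / (1 / (2 * T))) ^ 2) V E} ≤
      ENNReal.ofReal (8 * C * δ * ((2 * 2 ^ n + 1 : ℝ) ^ d) +
        K * ((2 * 2 ^ n + 1 : ℝ) ^ d * (128 * Real.pi * K * T * τ / δ) / ε)) := by
  classical
  set l : ℕ := 2 ^ n with hl
  set η : ℝ := 1 / (2 * T) with hηd
  have hη0 : 0 < η := by positivity
  have hpi := Real.pi_pos
  have hK0 : (0 : ℝ) < K := by exact_mod_cast hK
  have hcard : ∀ x : Zd d, ((bx x l).card : ℝ) = (2 * 2 ^ n + 1 : ℝ) ^ d := by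
    intro x
    rw [card_bx, hl]
    push_cast
    rfl
  set σ : ℝ := δ / (16 * K) with hσ
  have hσ0 : 0 < σ := by positivity
  have hσK : σ * K = δ / 16 := by
    rw [hσ]
    field_simp
  -- the integral over the energies
  have hint : ∫⁻ E in Set.Icc a b, Fe ev ν η R E ≤ ENNReal.ofReal (2 * Real.pi * T * τ) := by
    have h3 : ENNReal.ofReal (1 / (2 * Real.pi * T)) * ∫⁻ E in Set.Icc a b, Fe ev ν η R E ≤
        ENNReal.ofReal τ := hesc
    have h4 : ENNReal.ofReal (2 * Real.pi * T) * (ENNReal.ofReal (1 / (2 * Real.pi * T)) *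
        ∫⁻ E in Set.Icc a b, Fe ev ν η R E) ≤ ENNReal.ofReal (2 * Real.pi * T) *
          ENNReal.ofReal τ := by gcongr
    rw [← mul_assoc, ← ENNReal.ofReal_mul (by positivity), ← ENNReal.ofReal_mul (by positivity),
      mul_one_div_cancel (by positivity), ENNReal.ofReal_one, one_mul] at h4
    exact h4
  -- the nodes
  have hnode : ∀ j : ℕ, ∃ E' : ℝ, j < K → (E + j * σ ≤ E' ∧ E' ≤ E + j * σ + σ / 2 ∧
      Fe ev ν η R E' ≤ ENNReal.ofReal (128 * Real.pi * K * T * τ / δ)) := by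
    intro j
    by_cases hj : j < K
    · obtain ⟨E', h3, h4, h5⟩ := pick (Fe ev ν η R) a b (E + j * σ) σ (2 * Real.pi * T * τ) hσ0
        (by positivity) (by
          have : 0 ≤ j * σ := by positivity
          linarith [hE.1]) (by
          have h6 : (j : ℝ) + 1 ≤ K := by exact_mod_cast hj
          have h7 : (j + 1) * σ ≤ K * σ := by gcongr
          have h8 := hE.2
          linarith) hint
      refine ⟨E', fun _ => ⟨h3, h4, ?_⟩⟩
      have h6 : 4 / σ * (2 * Real.pi * T * τ) = 128 * Real.pi * K * T * τ / δ := by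
        rw [hσ]
        field_simp
        ring
      rwa [h6] at h5
    · exact ⟨0, fun h => absurd h hj⟩
  choose E' hE' using hnode
  have hsub : {V : Zd d → ℝ | ¬ G2 x l q (6 * ((8 * K + 1) ^ K) ^ 2 *
      ((2 * 2 ^ n + 1) ^ d / η) ^ 2) V E} ⊆
      {V | ¬ ∀ f : Zd d → ℝ, (∀ y, l < dd x y → f y = 0) →
        δ ^ 2 * ∑ y ∈ bx x l, f y ^ 2 ≤ ∑ y ∈ bx x l, (Hr V f y - E * f y) ^ 2} ∪
      ⋃ j ∈ Finset.range K,
        {V | ε < ∑ u ∈ (bx x l).filter (fun u => 2 * dd x u ≤ l),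
          ∑ y ∈ (bx x (l + 1)).filter (fun y => l ≤ dd x y),
            ‖lap (ev V) ((E' j : ℂ) + (η : ℝ) * Complex.I) u y‖ ^ 2} := by
    intro V hV
    rw [Set.mem_ofPred_eq] at hV
    by_contra hcon
    apply hV
    rw [Set.mem_union, not_or] at hcon
    obtain ⟨ha, hb'⟩ := hcon
    rw [Set.mem_ofPred_eq, not_not] at ha
    have hdet := hDT d hd V (ev V) (hev V) x l η δ ε E K hη0 hδ hε.le hη hK ha E'
      (by
        intro j hj
        have h3 := hE' j hj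
        refine ⟨h3.1, ?_⟩
        have h4 : E + (j + 1 / 2) * (δ / (16 * K)) = E + j * σ + σ / 2 := by
          rw [← hσ]
          ring
        rw [h4]
        exact h3.2.1)
      (by
        intro j hj
        by_contra hlt
        rw [not_le] at hlt
        apply hb'
        rw [Set.mem_iUnion₂]
        exact ⟨j, Finset.mem_range.2 hj, hlt⟩)
    rw [hcard x] at hdet
    exact g2_mono x l _ q _ h1 V E hdet
  refine (measure_mono hsub).trans ((measure_union_le _ _).trans ?_)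
  have hN := Ini.nr_prob ν C hC x l E δ hδ
  rw [hcard x] at hN
  have hA : (PP d ν) (⋃ j ∈ Finset.range K,
        {V | ε < ∑ u ∈ (bx x l).filter (fun u => 2 * dd x u ≤ l),
          ∑ y ∈ (bx x (l + 1)).filter (fun y => l ≤ dd x y),
            ‖lap (ev V) ((E' j : ℂ) + (η : ℝ) * Complex.I) u y‖ ^ 2}) ≤
      ENNReal.ofReal (K * ((2 * 2 ^ n + 1 : ℝ) ^ d * (128 * Real.pi * K * T * τ / δ) / ε)) := by
    refine (measure_biUnion_finset_le _ _).trans ?_
    have hj : ∀ j ∈ Finset.range K, (PP d ν)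
        {V | ε < ∑ u ∈ (bx x l).filter (fun u => 2 * dd x u ≤ l),
          ∑ y ∈ (bx x (l + 1)).filter (fun y => l ≤ dd x y),
            ‖lap (ev V) ((E' j : ℂ) + (η : ℝ) * Complex.I) u y‖ ^ 2} ≤
        ENNReal.ofReal ((2 * 2 ^ n + 1 : ℝ) ^ d * (128 * Real.pi * K * T * τ / δ) / ε) := by
      intro j hj
      have h3 := mark ν hev η hη0 R (E' j) ε (128 * Real.pi * K * T * τ / δ) hε (by positivity)
        (hE' j (Finset.mem_range.1 hj)).2.2 x l (by rw [hl]; push_cast; exact hR)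
      rwa [hcard x] at h3
    refine (Finset.sum_le_sum hj).trans ?_
    rw [Finset.sum_const, nsmul_eq_mul, Finset.card_range,
      ENNReal.ofReal_mul (p := (K : ℝ)) (by positivity), ENNReal.ofReal_natCast]
  refine (add_le_add hN hA).trans ?_
  rw [← ENNReal.ofReal_add (by positivity) (by positivity)]

end Pr2

open Ini Pr2 in
theorem pr2 (hDT : St_DT2) : St_PR2 := by
  intro d hd C α s hα hαd hs
  have hd1 : (1 : ℝ) ≤ d := by exact_mod_cast hd
  have hd0 : (0 : ℝ) < d := by linarith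
  have hpi := Real.pi_pos
  set g : ℝ := 1 - α * d with hg
  have hg0 : 0 < g := by rw [hg]; linarith
  set r : ℝ := s - 1 - 2 * α * d with hr
  have hr0 : 0 < r := by rw [hr]; linarith
  set κ : ℝ := min (1 / 4) (min (g / (4 * α)) (r / (4 * α))) with hκ
  have hκ0 : 0 < κ := lt_min (by norm_num) (lt_min (by positivity) (by positivity))
  have hκ4 : κ ≤ 1 / 4 := min_le_left _ _
  have hακ : 4 * (α * κ) ≤ g := by
    have h1 : κ ≤ g / (4 * α) := (min_le_right _ _).trans (min_le_left _ _)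
    rw [le_div_iff₀ (by positivity)] at h1
    linarith
  have hακ' : 4 * (α * κ) ≤ r := by
    have h1 : κ ≤ r / (4 * α) := (min_le_right _ _).trans (min_le_right _ _)
    rw [le_div_iff₀ (by positivity)] at h1
    linarith
  have hακ0 : 0 < α * κ := by positivity
  -- the constants
  have hq : 0 < qd d := by unfold qd; positivity
  obtain ⟨K0, hK0⟩ := exists_pow_lt_of_lt_one (show 0 < qd d / 4 by positivity)
    (show (1 / 4 : ℝ) < 1 by norm_num)
  set K : ℕ := K0 + 1 with hK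
  have hK1 : 1 ≤ K := by omega
  have hKq : 2 * ((1 / 4 : ℝ) ^ K) ^ 2 ≤ qd d / 2 := by
    have h1 : (1 / 4 : ℝ) ^ K ≤ (1 / 4) ^ K0 :=
      pow_le_pow_of_le_one (by norm_num) (by norm_num) (by omega)
    have h2 : (1 / 4 : ℝ) ^ K ≤ 1 := pow_le_one₀ (by norm_num) (by norm_num)
    have h3 : (0 : ℝ) ≤ (1 / 4) ^ K := by positivity
    nlinarith
  set S : ℝ := ((8 * (K : ℝ) + 1) ^ K) ^ 2 with hS
  have hS0 : 0 < S := by positivity
  set ε : ℝ := qd d / (200 * d ^ 2 * S) with hε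
  have hε0 : 0 < ε := by positivity
  have hεq : 100 * d ^ 2 * S * ε + 2 * ((1 / 4 : ℝ) ^ K) ^ 2 ≤ qd d := by
    have h1 : 100 * d ^ 2 * S * ε = qd d / 2 := by
      rw [hε]
      field_simp
      ring
    linarith
  have hKr : (0 : ℝ) < K := by exact_mod_cast hK1
  set c2 : ℝ := 128 * Real.pi * K ^ 2 * 3 ^ d / ε * 4 ^ (2 * d + 4 * κ) with hc2
  have hc20 : 0 < c2 := by positivity
  set c1 : ℝ := 8 * C * 3 ^ d + c2 with hc1
  have hc10 : 0 < c1 := by
    have : (0 : ℝ) ≤ 8 * C * 3 ^ d := by positivity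
    linarith
  refine ⟨κ, hκ0, hκ4, c1, hc10, fun a b b1 hb1 n0 => ?_⟩
  set ζ : ℝ := 1 - α * (d + 2 * κ) with hζ
  have hζ0 : 0 < ζ := by rw [hζ]; nlinarith
  set cE : ℝ := 8 * 4 ^ (d + 2 * κ) with hcE
  have hev1 : ∀ᶠ T : ℝ in atTop, 1 ≤ T := eventually_ge_atTop 1
  have hevn : ∀ᶠ T : ℝ in atTop, (2 : ℝ) ^ n0 ≤ T ^ α :=
    (tendsto_rpow_atTop hα).eventually_ge_atTop _
  have hevE : ∀ᶠ T : ℝ in atTop, cE ≤ T ^ ζ := (tendsto_rpow_atTop hζ0).eventually_ge_atTop _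
  have hevb : ∀ᶠ T : ℝ in atTop, 1 / (b - b1) ≤ T ^ α :=
    (tendsto_rpow_atTop hα).eventually_ge_atTop _
  obtain ⟨T0, hT0⟩ := ((hev1.and hevn).and (hevE.and hevb)).exists_forall_of_atTop
  refine ⟨T0, fun T hT ν _ hC ev hev hesc => ?_⟩
  obtain ⟨⟨hT1, hTn⟩, hTE, hTb⟩ := hT0 T hT
  have hTp : 0 < T := by linarith
  obtain ⟨n, hn1, hn2⟩ := scale α T hα hT1
  set L : ℝ := (2 : ℝ) ^ n with hL
  have hTα1 : 1 ≤ T ^ α := Real.one_le_rpow hT1 hα.le
  have hL1 : 1 ≤ L := by linarith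
  have hL0 : 0 < L := by linarith
  have hnn : n0 ≤ n := by
    by_contra hlt
    rw [not_le] at hlt
    have h1 : (2 : ℝ) ^ n ≤ 2 ^ n0 := pow_le_pow_right₀ (by norm_num) hlt.le
    have h2 : L ≤ T ^ α := by rw [hL]; linarith
    linarith
  set δ : ℝ := L ^ (-(d + 2 * κ)) with hδ
  have hδ0 : 0 < δ := by positivity
  have hδi : δ⁻¹ = L ^ (d + 2 * κ) := by
    rw [hδ, Real.rpow_neg hL0.le, inv_inv]
  have hc : (2 * L + 1) ^ d ≤ 3 ^ d * L ^ (d : ℝ) := by
    rw [Real.rpow_natCast, ← mul_pow]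
    exact pow_le_pow_left₀ (by positivity) (by linarith) d
  have hbb : b1 + δ / 16 ≤ b := by
    have h1 : 0 < b - b1 := by linarith
    rw [div_le_iff₀ h1] at hTb
    have h2 : δ ≤ L⁻¹ := by
      rw [hδ, ← Real.rpow_neg_one]
      exact Real.rpow_le_rpow_of_exponent_le hL1 (by linarith)
    have h3 : L⁻¹ ≤ b - b1 := by
      rw [inv_le_iff_one_le_mul₀ hL0]
      nlinarith
    linarith
  have hηδ : 1 / (2 * T) ≤ δ / 16 := by
    have hb : L ^ (d + 2 * κ) ≤ 4 ^ (d + 2 * κ) * T ^ (1 - ζ) :=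
      pow_le α T L _ _ hT1 hL0 hn2 (by positivity) (by rw [hζ]; linarith)
    have h1 : 8 * L ^ (d + 2 * κ) ≤ T := by
      calc 8 * L ^ (d + 2 * κ) ≤ 8 * (4 ^ (d + 2 * κ) * T ^ (1 - ζ)) := by gcongr
        _ = cE * T ^ (1 - ζ) := by rw [hcE]; ring
        _ ≤ T ^ ζ * T ^ (1 - ζ) := by gcongr
        _ = T := by
            rw [← Real.rpow_add hTp]
            simp
    have h2 : δ = 1 / L ^ (d + 2 * κ) := by
      rw [hδ, Real.rpow_neg hL0.le, one_div]
    have h3 : 0 < L ^ (d + 2 * κ) := by positivity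
    rw [h2, div_div, div_le_div_iff₀ (by positivity) (by positivity)]
    linarith
  refine ⟨n, 6 * ((8 * K + 1) ^ K) ^ 2 * ((2 * 2 ^ n + 1) ^ d / (1 / (2 * T))) ^ 2, hnn,
    by positivity, fun x E hE => ?_⟩
  refine (prb hDT hd ν C hC hev T (T ^ α) a b b1 hTp n K hK1 δ ε (T ^ (-s)) (qd d) hδ0 hε0
    (by positivity) (by rw [← hL]; exact hn1) hesc hbb hηδ hεq x E hE).trans ?_
  refine ENNReal.ofReal_le_ofReal ?_
  have hpow : (2 : ℝ) ^ (-(2 * κ * n)) = L ^ (-(2 * κ)) := by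
    rw [hL, ← Real.rpow_natCast, ← Real.rpow_mul (by norm_num)]
    congr 1
    ring
  rw [hpow, ← hL]
  -- the resonance term
  have hC' : 8 * C * δ * (2 * L + 1) ^ d ≤ 8 * C * 3 ^ d * L ^ (-(2 * κ)) := by
    calc 8 * C * δ * (2 * L + 1) ^ d ≤ 8 * C * δ * (3 ^ d * L ^ (d : ℝ)) := by gcongr
      _ = 8 * C * 3 ^ d * (L ^ (d : ℝ) * δ) := by ring
      _ = 8 * C * 3 ^ d * L ^ (-(2 * κ)) := by
          congr 1
          rw [hδ, ← Real.rpow_add hL0]
          congr 1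
          ring
  -- the transport term
  have hD : K * ((2 * L + 1) ^ d * (128 * Real.pi * K * T * T ^ (-s) / δ) / ε) ≤
      c2 * L ^ (-(2 * κ)) := by
    have hb : L ^ (2 * d + 4 * κ) ≤ 4 ^ (2 * d + 4 * κ) * T ^ (s - 1) :=
      pow_le α T L _ _ hT1 hL0 hn2 (by positivity) (by
        have : α * (2 * d + 4 * κ) = 2 * α * d + 4 * (α * κ) := by ring
        rw [this]
        linarith)
    calc K * ((2 * L + 1) ^ d * (128 * Real.pi * K * T * T ^ (-s) / δ) / ε)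
        ≤ K * ((3 ^ d * L ^ (d : ℝ)) * (128 * Real.pi * K * T * T ^ (-s) / δ) / ε) := by gcongr
      _ = 128 * Real.pi * K ^ 2 * 3 ^ d / ε * (L ^ (d : ℝ) * δ⁻¹) * (T * T ^ (-s)) := by
          rw [div_eq_mul_inv _ δ]
          ring
      _ = 128 * Real.pi * K ^ 2 * 3 ^ d / ε * (L ^ (2 * d + 4 * κ) * L ^ (-(2 * κ))) *
          (T * T ^ (-s)) := by
          rw [hδi, ← Real.rpow_add hL0, ← Real.rpow_add hL0]
          congr 3
          ring
      _ ≤ 128 * Real.pi * K ^ 2 * 3 ^ d / ε * ((4 ^ (2 * d + 4 * κ) * T ^ (s - 1)) *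
          L ^ (-(2 * κ))) * (T * T ^ (-s)) := by gcongr
      _ = c2 * L ^ (-(2 * κ)) * (T ^ (s - 1) * T * T ^ (-s)) := by
          rw [hc2]
          ring
      _ = c2 * L ^ (-(2 * κ)) := by
          have h1 : T ^ (s - 1) * T * T ^ (-s) = 1 := by
            rw [← Real.rpow_add_one hTp.ne', ← Real.rpow_add hTp]
            have : s - 1 + 1 + -s = 0 := by ring
            rw [this, Real.rpow_zero]
          rw [h1, mul_one]
  calc _ ≤ 8 * C * 3 ^ d * L ^ (-(2 * κ)) + c2 * L ^ (-(2 * κ)) := add_le_add hC' hD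
    _ = c1 * L ^ (-(2 * κ)) := by rw [hc1]; ring

end Pool.Agent.Helper28.Tg
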