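import Pool.Agent.Helper28.Tg.Defs7
import Pool.Agent.Helper28.Tg.Base

/-! # Exponential decay at a sequence of scales -/

set_option autoImplicit false

open MeasureTheory Filter Topology
open scoped BigOperators ENNReal NNReal InnerProductSpace ComplexConjugate

namespace Pool.Agent.Helper28.Tg

open Pool.Agent.H4R2.LO (Zd dd bx Hg L2f IsSpec PolyB IsGen)
open Pool.Agent.H5R2.NB (UG L2 dl IsGrp PP)

namespace Seq

theorem Ce_mono {d : ℕ} {x : Zd d} {l : ℕ} {ρ ρ' E : ℝ} {V : Zd d → ℝ} (h : ρ' ≤ ρ)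
    (hC : Ce x l ρ E V) : Ce x l ρ' E V := by
  intro ψ hψ b hb
  have hb0 : 0 ≤ b := (abs_nonneg _).trans (hb x (by
    have : dd x x = 0 := by simp [dd]
    omega))
  refine (hC ψ hψ b hb).trans (mul_le_mul_of_nonneg_right ?_ hb0)
  exact Real.exp_le_exp.2 (by linarith)

theorem Bt_mono {d : ℕ} {ν : Measure ℝ} [IsProbabilityMeasure ν] {J : Set ℝ} {l : ℕ}
    {ρ ρ' p : ℝ} {B : Zd d → Set ((Zd d → ℝ) × ℝ)} (h : Bt d ν J l ρ p B) (hρ : ρ' ≤ ρ) :
    Bt d ν J l ρ' p B :=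
  ⟨h.op, h.loc, h.pr, fun x V E hV => Ce_mono hρ (h.ce x V E hV)⟩

/-- the loss of mass at one step -/
theorem step_mass (n s : ℕ) (hs : n ≤ 4 * s) (ρ : ℝ) (hρ : 0 ≤ ρ) :
    ρ / 2 ^ n * (1 - 301 * (2 : ℝ) ^ (-(n / 4 : ℝ))) * 2 ^ (n + s) ≤
      ρ * (2 ^ (n + s) - 300 * 2 ^ n) / (2 ^ n + 1) := by
  set t : ℝ := 2 ^ n with ht
  set u : ℝ := 2 ^ s with hu
  have ht1 : 1 ≤ t := one_le_pow₀ (by norm_num)
  have hu1 : 1 ≤ u := one_le_pow₀ (by norm_num)
  set v : ℝ := (2 : ℝ) ^ (-(n / 4 : ℝ)) with hv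
  have hv0 : 0 < v := by positivity
  have huv : 1 ≤ u * v := by
    rw [hu, hv, ← Real.rpow_natCast 2 s, ← Real.rpow_add (by norm_num)]
    apply Real.one_le_rpow (by norm_num)
    have : (n : ℝ) ≤ 4 * s := by exact_mod_cast hs
    linarith
  have htv : 1 ≤ t * v := by
    rw [ht, hv, ← Real.rpow_natCast 2 n, ← Real.rpow_add (by norm_num)]
    apply Real.one_le_rpow (by norm_num)
    have : (0 : ℝ) ≤ n := Nat.cast_nonneg _
    linarith
  have e1 : (2 : ℝ) ^ (n + s) = t * u := by rw [pow_add]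
  rw [e1]
  rw [le_div_iff₀ (by linarith)]
  have e2 : ρ / t * (1 - 301 * v) * (t * u) * (t + 1) = ρ * ((1 - 301 * v) * u * (t + 1)) := by
    field_simp
  have e3 : ρ * (t * u - 300 * t) = ρ * (t * u - 300 * t) := rfl
  rw [e2]
  refine mul_le_mul_of_nonneg_left ?_ hρ
  -- (1 - 301 v) u (t+1) ≤ t u - 300 t
  have h1 : t ≤ t * (u * v) := le_mul_of_one_le_right (by linarith) huv
  have h2 : u ≤ u * (t * v) := le_mul_of_one_le_right (by linarith) htv
  have h3 : 0 ≤ 301 * v * u := by positivity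
  nlinarith

/-- the sum of the losses -/
theorem small (n0 : ℕ) (hn0 : 80 ≤ n0) (k n : ℕ) (hn : n0 + 4 * k ≤ n) :
    301 * (2 : ℝ) ^ (-(n / 4 : ℝ)) ≤ (1 / 2) ^ (k + 2) := by
  have h1 : (20 : ℝ) + k ≤ n / 4 := by
    have h2 : 80 + 4 * k ≤ n := by omega
    have h3 : ((80 + 4 * k : ℕ) : ℝ) ≤ n := by exact_mod_cast h2
    push_cast at h3
    linarith
  calc 301 * (2 : ℝ) ^ (-(n / 4 : ℝ)) ≤ 301 * (2 : ℝ) ^ (-(20 + k : ℝ)) := by
        gcongr
        norm_num
    _ = 301 * (1 / 2) ^ 20 * (1 / 2) ^ k := by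
        rw [Real.rpow_neg (by norm_num), Real.rpow_add (by norm_num), Real.rpow_natCast]
        rw [show (20 : ℝ) = ((20 : ℕ) : ℝ) by norm_num, Real.rpow_natCast]
        rw [mul_inv, one_div, inv_pow, inv_pow]
        ring
    _ ≤ (1 / 4) * (1 / 2) ^ k := by
        gcongr
        norm_num
    _ = (1 / 2) ^ (k + 2) := by
        rw [pow_add]
        norm_num
        ring

end Seq

open Seq in
theorem t_SEQ (hBTS : St_BTS) : St_SEQ := by
  intro d hd C a b P hP
  obtain ⟨n1, hn1⟩ := hBTS d hd C a b P hP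
  refine ⟨3 * (2 * P + 10 * d + 10), n1 + 80, ?_⟩
  intro ν _ hC n hn B hB
  set Q : ℝ := 2 * P + 10 * d + 10 with hQ
  have hQ0 : 0 < Q := by positivity
  set q : ℕ := 3 * (2 * P + 10 * d + 10) with hq
  have hqQ : (q : ℝ) = 3 * Q := by
    rw [hq, hQ]
    push_cast
    ring
  set m0 : ℝ := q * n * Real.log 2 / 2 ^ n with hm0
  have hnpos : 0 < n := by omega
  have hlog : (1 / 2 : ℝ) < Real.log 2 := by
    have := Real.log_two_gt_d9
    linarith
  have hlog2 : (0.69 : ℝ) < Real.log 2 := by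
    have := Real.log_two_gt_d9
    linarith
  have hm0p : 0 < m0 := by
    have : (0 : ℝ) < n := by exact_mod_cast hnpos
    have h2 : (0 : ℝ) < q := by rw [hqQ]; positivity
    positivity
  -- the state at stage `k`
  let S : ℕ → Type := fun k => {p : ℕ × (Zd d → Set ((Zd d → ℝ) × ℝ)) //
    n + 4 * k ≤ p.1 ∧ Bt d ν (Set.Icc a b) (2 ^ p.1)
      (m0 * (1 / 2 + (1 / 2) ^ (k + 1)) * 2 ^ p.1) (pro P p.1) p.2}
  have hstep : ∀ k, ∀ p : S k, ∃ r : S (k + 1), r.1.1 = p.1.1 + p.1.1 / 2 := by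
    intro k p
    obtain ⟨⟨np, Bp⟩, hnp, hBp⟩ := p
    simp only at hnp hBp
    set s : ℕ := np / 2 with hs
    have hs1 : np ≤ 4 * s := by omega
    have hs2 : 2 * s ≤ np := by omega
    set mk : ℝ := m0 * (1 / 2 + (1 / 2) ^ (k + 1)) with hmk
    have hmk1 : m0 / 2 ≤ mk := by
      rw [hmk]
      have : (0 : ℝ) ≤ (1 / 2) ^ (k + 1) := by positivity
      nlinarith
    have hmk2 : mk ≤ m0 := by
      rw [hmk]
      have h1 : ((1 : ℝ) / 2) ^ (k + 1) ≤ 1 / 2 := by
        calc ((1 : ℝ) / 2) ^ (k + 1) ≤ (1 / 2) ^ 1 :=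
              pow_le_pow_of_le_one (by norm_num) (by norm_num) (by omega)
          _ = 1 / 2 := pow_one _
      nlinarith
    have hρ0 : 0 ≤ mk * 2 ^ np := by
      have : 0 ≤ mk := by linarith
      positivity
    -- the condition of the step
    have hcond : Q * np ≤ mk * 2 ^ np := by
      obtain ⟨j, hj⟩ : ∃ j, np = n + j := ⟨np - n, by omega⟩
      have h1 : (np : ℝ) ≤ n * 2 ^ j := by
        have h2 : j + 1 ≤ 2 ^ j := Nat.lt_two_pow_self
        have h3 : n + j ≤ n * 2 ^ j := by nlinarith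
        rw [hj]
        exact_mod_cast h3
      have h4 : m0 * 2 ^ np = q * n * Real.log 2 * 2 ^ j := by
        rw [hm0, hj, pow_add]
        field_simp
      calc Q * np ≤ Q * (n * 2 ^ j) := by gcongr
        _ = Q * n * 2 ^ j := by ring
        _ ≤ (3 * Q * Real.log 2 / 2) * n * 2 ^ j := by
            have h5 : Q ≤ 3 * Q * Real.log 2 / 2 := by nlinarith
            gcongr
        _ = (m0 * 2 ^ np) / 2 := by
            rw [h4, hqQ]
            ring
        _ = m0 / 2 * 2 ^ np := by ring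
        _ ≤ mk * 2 ^ np := by gcongr
    obtain ⟨B', hB'⟩ := hn1 ν hC np s (by omega) hs1 hs2 (mk * 2 ^ np) hcond Bp hBp
    refine ⟨⟨(np + s, B'), ?_, ?_⟩, rfl⟩
    · simp only
      omega
    · refine Bt_mono hB' ?_
      refine le_trans ?_ (step_mass np s hs1 (mk * 2 ^ np) hρ0)
      have h6 := small (n + 0) (by omega) k np (by omega)
      have h7 : mk * 2 ^ np / 2 ^ np = mk := by field_simp
      rw [h7]
      refine mul_le_mul_of_nonneg_right ?_ (by positivity)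
      -- m0 (1/2 + (1/2)^(k+2)) ≤ mk (1 - small)
      have h8 : mk * (301 * (2 : ℝ) ^ (-(np / 4 : ℝ))) ≤ m0 * (1 / 2) ^ (k + 2) := by
        gcongr
      have h9 : m0 * (1 / 2 + (1 / 2) ^ (k + 1 + 1)) = mk - m0 * (1 / 2) ^ (k + 2) := by
        rw [hmk]
        ring
      rw [h9, mul_sub, mul_one]
      linarith
  choose g hg using hstep
  let p0 : S 0 := ⟨(n, B), by simp, by
    have h1 : m0 * (1 / 2 + (1 / 2) ^ (0 + 1)) * 2 ^ n = q * n * Real.log 2 := by
      rw [hm0]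
      field_simp
      ring
    simp only
    rw [h1]
    exact hB⟩
  let f : ∀ k, S k := fun k => Nat.rec p0 (fun k p => g k p) k
  have hf : ∀ k, (f (k + 1)).1.1 = (f k).1.1 + (f k).1.1 / 2 := fun k => hg k (f k)
  refine ⟨m0 / 2, by positivity, fun k => (f k).1.1, fun k => (f k).1.2, ?_, ?_, ?_, ?_⟩
  · intro k
    have := (f k).2.1
    show 1 ≤ (f k).1.1
    omega
  · intro k
    have h1 := (f k).2.1
    have h2 := hf k
    show (f k).1.1 < (f (k + 1)).1.1
    omega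
  · intro k
    have h2 := hf k
    show (f (k + 1)).1.1 ≤ 2 * (f k).1.1
    omega
  · intro k
    refine Bt_mono (f k).2.2 ?_
    have h1 : m0 / 2 ≤ m0 * (1 / 2 + (1 / 2) ^ (k + 1)) := by
      have : (0 : ℝ) ≤ (1 / 2) ^ (k + 1) := by positivity
      nlinarith
    gcongr

end Pool.Agent.Helper28.Tg
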