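import Pool.Agent.Helper28.Tg.Fin
import Pool.Agent.Helper28.Tg.Pr2
import Pool.Agent.Helper28.Tg.Dt2
import Pool.Agent.Helper28.Tg.Exa
import Pool.Agent.Helper28.Tg.Seq
import Pool.Agent.Helper18.Tg.Gex
import Pool.Agent.Helper36.Tg.Vre
import Pool.Agent.Helper8.Stp.Des
import Pool.Agent.Helper8.Stp.Stj
import Pool.Agent.Helper82.Tg.Bts

/-! # The transport gap: assembly, with exponential decay and the better exponent -/

set_option autoImplicit false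

open MeasureTheory Filter Topology
open scoped BigOperators ENNReal NNReal InnerProductSpace ComplexConjugate

namespace Pool.Agent.Helper28.Tg

open Pool.Agent.H4R2.LO (Zd dd bx Hg L2f IsSpec PolyB IsGen)
open Pool.Agent.H5R2.NB (UG L2 dl IsGrp PP)

/-- **exponential decay of the eigenfunctions from one good scale** -/
theorem t_EXP : St_EXP :=
  t_EXPa Pool.Agent.Helper8.Stp.t_STJ Pool.Agent.Helper36.Tg.Vre.t_VRE
    (t_SEQ (Pool.Agent.Helper82.Tg.bts Pool.Agent.Helper8.Stp.Des.t_DES))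
    Pool.Agent.Helper18.Tg.Gex.t_GEX

/-- the transport gap, in terms of the potential -/
theorem gap2 (hIN2 : St_IN2) (hBSM : St_BSM) (d : ℕ) (hd : 1 ≤ d) (C : ℝ≥0) (α s : ℝ)
    (hα0 : 0 ≤ α) (hα : α < 1 / d) (hs : 1 + 2 * d * α < s)
    (a' a b b' : ℝ) (ha : a' < a) (hb : b < b') :
    ∃ T0 : ℝ, ∀ (ν : Measure ℝ) [IsProbabilityMeasure ν], ν ≤ C • volume →
      ∀ ev : (Zd d → ℝ) → UG (L2 (Zd d)), (∀ V, IsGrp (-1) V (ev V)) → ∀ T : ℝ, T0 ≤ T →
      esc ev ν (Set.Icc a' b') T (T ^ α) ≤ ENNReal.ofReal (T ^ (-s)) →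
      (∀ᵐ V ∂(PP d ν), ∀ (x : Zd d) (m : Measure ℝ), IsSpec (-1) V (Pi.single x 1) m →
        ∃ N : Set ℝ, N.Countable ∧ m (Set.Icc a b \ N) = 0) ∧
      (∃ c : ℝ, 0 < c ∧ ∀ᵐ V ∂(PP d ν), ∀ E ∈ Set.Icc a b, ∀ ψ : Zd d → ℂ, PolyB ψ →
        IsGen (-1) V E ψ → ∃ A : ℝ, ∀ x, ‖ψ x‖ ≤ A * Real.exp (-(c * ‖x‖))) ∧
      ∀ P : ℕ, ∃ A : ℝ, 0 < A ∧ ∀ x y : Zd d,
        ∃ g : (Zd d → ℝ) → ℝ≥0∞, Measurable g ∧ (∀ V, corr V (Set.Icc a b) x y ≤ g V) ∧
          ∫⁻ V, g V ∂(PP d ν) ≤ ENNReal.ofReal (A * (1 + ‖x - y‖) ^ (-(P : ℝ) / 2)) := by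
  have hd0 : (0 : ℝ) < d := by exact_mod_cast hd
  -- a slightly larger exponent
  obtain ⟨α', h0, h1, h2, h3⟩ : ∃ α' : ℝ, 0 < α' ∧ α ≤ α' ∧ α' * d < 1 ∧ 1 + 2 * α' * d < s := by
    have hα1 : α * d < 1 := by
      rw [lt_div_iff₀ hd0] at hα
      exact hα
    refine ⟨α + min (1 - α * d) (s - 1 - 2 * d * α) / (4 * d), ?_, ?_, ?_, ?_⟩
    · have : 0 < min (1 - α * d) (s - 1 - 2 * d * α) := lt_min (by linarith) (by linarith)
      positivity
    · have : 0 < min (1 - α * d) (s - 1 - 2 * d * α) := lt_min (by linarith) (by linarith)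
      have : 0 < min (1 - α * d) (s - 1 - 2 * d * α) / (4 * d) := by positivity
      linarith
    · have h4 := min_le_left (1 - α * d) (s - 1 - 2 * d * α)
      have h5 : (α + min (1 - α * d) (s - 1 - 2 * d * α) / (4 * d)) * d =
          α * d + min (1 - α * d) (s - 1 - 2 * d * α) / 4 := by
        field_simp
      rw [h5]
      linarith
    · have h4 := min_le_right (1 - α * d) (s - 1 - 2 * d * α)
      have h5 : 2 * (α + min (1 - α * d) (s - 1 - 2 * d * α) / (4 * d)) * d =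
          2 * d * α + min (1 - α * d) (s - 1 - 2 * d * α) / 2 := by
        field_simp
        ring
      rw [h5]
      linarith
  obtain ⟨κ, hκ0, hκ4, hκ⟩ := hIN2 d hd C α' s h0 h2 h3
  obtain ⟨n0, hn0⟩ := hBSM d hd C κ hκ0 hκ4
  obtain ⟨n1, hn1⟩ := t_EXP d hd C κ hκ0 hκ4
  have hbm : (b + b') / 2 < b' := by linarith
  obtain ⟨T0, hT0⟩ := hκ a' b' ((b + b') / 2) hbm (max n0 n1)
  refine ⟨max T0 1, fun ν _ hC ev hev T hT hesc => ?_⟩
  have hT1 : 1 ≤ T := (le_max_right _ _).trans hT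
  have hesc' : esc ev ν (Set.Icc a' b') T (T ^ α') ≤ ENNReal.ofReal (T ^ (-s)) :=
    (esc_anti ev ν _ _ subset_rfl T _ _
      (Real.rpow_le_rpow_of_exponent_le hT1 h1)).trans hesc
  obtain ⟨n, B, hn, hB⟩ := hT0 T ((le_max_left _ _).trans hT) ν hC ev hev hesc'
  obtain ⟨hpp, hco⟩ := hn0 ν hC a' ((b + b') / 2) n ((le_max_left _ _).trans hn) B hB
  refine ⟨?_, hn1 ν hC a' ((b + b') / 2) n ((le_max_right _ _).trans hn) B hB a b ha (by linarith),
    hco a b ha (by linarith)⟩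
  filter_upwards [hpp] with V hV x m hm
  obtain ⟨N, hN, hN0⟩ := hV x m hm
  refine ⟨N, hN, measure_mono_null ?_ hN0⟩
  exact Set.sdiff_subset_sdiff_left (Set.Icc_subset_Icc ha.le (by linarith))

end Pool.Agent.Helper28.Tg
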