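import Pool.Agent.Helper28.Tg.Det
import Pool.Agent.Helper28.Tg.Amp
import Pool.Graph.R_seed8.H4R2.LO.Wg

/-! # The initial scale -/

set_option autoImplicit false

open MeasureTheory Filter Topology
open scoped BigOperators ENNReal NNReal InnerProductSpace ComplexConjugate

namespace Pool.Agent.Helper28.Tg

open Pool.Agent.H4R2.LO (Zd dd bx Hg L2f IsSpec PolyB IsGen Hm AL rs adj Near)
open Pool.Agent.H4R2.LO.Em (dd_le_iff le_dd dd_self dd_comm dd_tri mem_bx card_bx adj_symm adj_self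
  AL_symm em_count rs_map dd_norm)
open Pool.Agent.H5R2.NB (UG L2 dl IsGrp PP)

namespace Ini

theorem C_pos (ν : Measure ℝ) [IsProbabilityMeasure ν] (C : ℝ≥0) (hC : ν ≤ C • volume) :
    0 < (C : ℝ) := by
  rcases (zero_le (a := C)).eq_or_lt with h | h
  · exfalso
    rw [← h, zero_smul] at hC
    have h1 := hC Set.univ
    rw [measure_univ] at h1
    simp at h1
  · exact_mod_cast h

/-- Wegner estimate for the box -/
theorem nr_prob {d : ℕ} (ν : Measure ℝ) [IsProbabilityMeasure ν] (C : ℝ≥0)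
    (hC : ν ≤ C • volume) (x : Zd d) (l : ℕ) (E δ : ℝ) (hδ : 0 < δ) :
    (PP d ν) {V | ¬ ∀ f : Zd d → ℝ, (∀ y, l < dd x y → f y = 0) →
      δ ^ 2 * ∑ y ∈ bx x l, f y ^ 2 ≤ ∑ y ∈ bx x l, (Hr V f y - E * f y) ^ 2} ≤
      ENNReal.ofReal (8 * C * δ * (bx x l).card) := by
  classical
  have hC0 := C_pos ν C hC
  have hC' : ν ≤ ENNReal.ofReal (C : ℝ) • volume := by
    rw [ENNReal.ofReal_coe_nnreal]
    exact hC
  obtain ⟨S, hSm, hS, hP⟩ := Pool.Agent.H4R2.LO.Wg.wegner ν C hC0 hC' (AL (bx x l)) (AL_symm _)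
    (fun i => adj_self _) 1 one_pos E δ hδ
  have hm : Measurable (rs (bx x l) : (Zd d → ℝ) → (bx x l → ℝ)) := by
    unfold rs
    fun_prop
  have h1 : (PP d ν) (rs (bx x l) ⁻¹' S) ≤ ENNReal.ofReal (8 * C * δ * (bx x l).card) := by
    rw [← Measure.map_apply hm hSm]
    unfold PP
    rw [rs_map]
    refine hP.trans (ENNReal.ofReal_le_ofReal ?_)
    rw [div_one, Fintype.card_coe]
  refine (measure_mono fun V hV => ?_).trans h1
  rw [Set.mem_ofPred_eq] at hV
  push Not at hV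
  obtain ⟨f, hf, hlt⟩ := hV
  refine hS _ ⟨fun y => f y, ?_, ?_⟩
  · intro h0
    have h2 : ∑ y ∈ bx x l, f y ^ 2 = 0 := by
      refine Finset.sum_eq_zero fun y hy => ?_
      have := congrFun h0 ⟨y, hy⟩
      simp only [Pi.zero_apply] at this
      rw [this]
      norm_num
    rw [h2, mul_zero] at hlt
    exact absurd hlt (not_lt.2 (Finset.sum_nonneg fun _ _ => sq_nonneg _))
  · have h3 : ∀ w : bx x l, (Hm (AL (bx x l)) 1 (rs (bx x l) V) E).mulVec (fun y => f y) w =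
        Hr V f w - E * f w := by
      intro w
      rw [← Det.MM_real x l V E f hf w]
      rfl
    rw [Finset.sum_congr rfl fun w _ => by rw [h3 w]]
    have h4 := Finset.sum_coe_sort (bx x l) (fun w => (Hr V f w - E * f w) ^ 2)
    have h5 := Finset.sum_coe_sort (bx x l) (fun w => f w ^ 2)
    rw [h4, h5]
    exact hlt.le

theorem Hr_cont {d : ℕ} (f : Zd d → ℝ) (w : Zd d) :
    Continuous fun p : (Zd d → ℝ) × ℝ => Hr p.1 f w - p.2 * f w := by
  unfold Hr
  fun_prop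

theorem gd_open {d : ℕ} (x : Zd d) (l : ℕ) (ε δ : ℝ) :
    IsOpen {p : (Zd d → ℝ) × ℝ | ¬ Gd x l ε δ p.1 p.2} := by
  have h1 : {p : (Zd d → ℝ) × ℝ | ¬ Gd x l ε δ p.1 p.2} =
      ⋃ (f : Zd d → ℝ) (_ : ∀ y, l < dd x y → f y = 0) (u : Zd d) (_ : dd x u ≤ l),
        {p | ∑ w ∈ bx x l, (if 2 * dd x u ≤ l ∧ dd x w = l then ε else 1 / δ) *
          |Hr p.1 f w - p.2 * f w| < |f u|} := by
    ext p
    simp only [Set.mem_ofPred_eq, Gd, Set.mem_iUnion]
    push Not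
    constructor
    · rintro ⟨f, hf, u, hu, h⟩
      exact ⟨f, hf, u, hu, h⟩
    · rintro ⟨f, hf, u, hu, h⟩
      exact ⟨f, hf, u, hu, h⟩
  rw [h1]
  refine isOpen_iUnion fun f => isOpen_iUnion fun _ => isOpen_iUnion fun u =>
    isOpen_iUnion fun _ => ?_
  refine isOpen_lt ?_ continuous_const
  refine continuous_finsetSum _ fun w _ => ?_
  exact continuous_const.mul (Hr_cont f w).abs

theorem gd_loc {d : ℕ} (x : Zd d) (l : ℕ) (ε δ : ℝ) (V V' : Zd d → ℝ) (E : ℝ)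
    (h : ∀ y, dd x y ≤ l → V y = V' y) (hG : Gd x l ε δ V E) : Gd x l ε δ V' E := by
  intro f hf u hu
  refine (hG f hf u hu).trans (le_of_eq ?_)
  refine Finset.sum_congr rfl fun w hw => ?_
  unfold Hr
  rw [h w ((mem_bx x w l).1 hw)]

theorem gd_mono {d : ℕ} (x : Zd d) (l : ℕ) (ε ε' δ : ℝ) (hε : ε ≤ ε') (V : Zd d → ℝ) (E : ℝ)
    (hG : Gd x l ε δ V E) : Gd x l ε' δ V E := by
  intro f hf u hu
  refine (hG f hf u hu).trans (Finset.sum_le_sum fun w _ => ?_)
  refine mul_le_mul_of_nonneg_right ?_ (abs_nonneg _)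
  split_ifs
  · exact hε
  · exact le_rfl

/-- the initial scale with explicit parameters -/
theorem core {d : ℕ} (hd : 1 ≤ d) (ν : Measure ℝ) [IsProbabilityMeasure ν] (C : ℝ≥0)
    (hC : ν ≤ C • volume) {ev : (Zd d → ℝ) → UG (L2 (Zd d))} (hev : ∀ V, IsGrp (-1) V (ev V))
    (T R : ℝ) (hT : 0 < T) (n K : ℕ) (δ ε0 τ p : ℝ) (hδ : 0 < δ) (hε0 : 0 < ε0) (hτ : 0 ≤ τ)
    (hR : 2 * R ≤ 2 ^ n) (htail : tail ev ν T R ≤ ENNReal.ofReal τ)
    (h1 : 2 * d * ((2 * 2 ^ n + 1 : ℝ) ^ d) * (2 ^ K * (ε0 + 2 * d * ((2 * 2 ^ n + 1 : ℝ) ^ d) *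
      ε0 * T) + K.factorial * (1 / T) ^ K / δ ^ (K + 1)) ≤ eta d n)
    (h2 : 8 * C * δ * ((2 * 2 ^ n + 1 : ℝ) ^ d) + ((2 * (2 ^ n + 1) + 1 : ℝ) ^ d) ^ 2 *
      (T ^ 2 / ε0 ^ 2 * τ) ≤ p) :
    ∃ B : Zd d → Set ((Zd d → ℝ) × ℝ), Bf d ν (2 ^ n) (eta d n) p B := by
  classical
  set l : ℕ := 2 ^ n with hl
  have hcard : ∀ x : Zd d, ((bx x l).card : ℝ) = (2 * 2 ^ n + 1 : ℝ) ^ d := by
    intro x
    rw [card_bx, hl]
    push_cast
    rfl
  set c : ℝ := (2 * 2 ^ n + 1 : ℝ) ^ d with hc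
  have hc0 : 0 < c := by positivity
  have hd0 : (0 : ℝ) < d := by exact_mod_cast hd
  set ε : ℝ := eta d n / (2 * d * c) with hε
  have heta : 0 < eta d n := by unfold eta; positivity
  have hε1 : 0 < ε := by positivity
  have hle : 2 ^ K * (ε0 + 2 * d * c * ε0 / (1 / T)) + K.factorial * (1 / T) ^ K / δ ^ (K + 1) ≤
      ε := by
    rw [hε, le_div_iff₀ (by positivity)]
    have : 2 * d * c * ε0 / (1 / T) = 2 * d * c * ε0 * T := by
      rw [div_div_eq_mul_div, div_one]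
    rw [this]
    linarith
  refine ⟨fun x => {p | ¬ Gd x l ε δ p.1 p.2}, fun x => gd_open x l ε δ, ?_, ?_, ?_⟩
  · intro x V V' E hVV hp
    rw [Set.mem_ofPred_eq] at hp ⊢
    intro hG
    exact hp (gd_loc x l ε δ V' V E (fun y hy => (hVV y (by omega)).symm) hG)
  · intro x E
    have hsub : {V : Zd d → ℝ | (V, E) ∈ {p : (Zd d → ℝ) × ℝ | ¬ Gd x l ε δ p.1 p.2}} ⊆
        {V | ¬ ∀ f : Zd d → ℝ, (∀ y, l < dd x y → f y = 0) →
          δ ^ 2 * ∑ y ∈ bx x l, f y ^ 2 ≤ ∑ y ∈ bx x l, (Hr V f y - E * f y) ^ 2} ∪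
        ⋃ q ∈ ((bx x (l + 1)) ×ˢ (bx x (l + 1))).filter
            (fun q => 2 * dd x q.1 ≤ l ∧ l ≤ dd x q.2),
          {V | ε0 < amp (ev V) (1 / T) q.1 q.2} := by
      intro V hV
      rw [Set.mem_ofPred_eq, Set.mem_ofPred_eq] at hV
      by_contra hcon
      apply hV
      rw [Set.mem_union, not_or] at hcon
      obtain ⟨ha, hb⟩ := hcon
      rw [Set.mem_ofPred_eq, not_not] at ha
      have hdet := Det.det V (ev V) (hev V) x l (1 / T) δ ε0 E K (by positivity) hδ hε0.le ha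
        (by
          intro u w hu hw hw'
          by_contra hlt
          rw [not_le] at hlt
          apply hb
          rw [Set.mem_iUnion₂]
          refine ⟨(u, w), ?_, hlt⟩
          rw [Finset.mem_filter, Finset.mem_product, mem_bx, mem_bx]
          exact ⟨⟨by simp only; omega, by simp only; omega⟩, hu, hw⟩)
      rw [hcard x] at hdet
      exact gd_mono x l _ ε δ hle V E hdet
    refine (measure_mono hsub).trans ((measure_union_le _ _).trans ?_)
    have hN := nr_prob ν C hC x l E δ hδ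
    rw [hcard x] at hN
    have hA : (PP d ν) (⋃ q ∈ ((bx x (l + 1)) ×ˢ (bx x (l + 1))).filter
            (fun q => 2 * dd x q.1 ≤ l ∧ l ≤ dd x q.2),
          {V | ε0 < amp (ev V) (1 / T) q.1 q.2}) ≤
        ENNReal.ofReal (((2 * (2 ^ n + 1) + 1 : ℝ) ^ d) ^ 2 * (T ^ 2 / ε0 ^ 2 * τ)) := by
      refine (measure_biUnion_finset_le _ _).trans ?_
      have hq : ∀ q ∈ ((bx x (l + 1)) ×ˢ (bx x (l + 1))).filter
            (fun q => 2 * dd x q.1 ≤ l ∧ l ≤ dd x q.2),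
          (PP d ν) {V | ε0 < amp (ev V) (1 / T) q.1 q.2} ≤
            ENNReal.ofReal (T ^ 2 / ε0 ^ 2 * τ) := by
        intro q hq
        rw [Finset.mem_filter] at hq
        have h3 := Amp.pr_amp ν hev T hT R ε0 hε0 q.1 q.2 (by
          have h4 := dd_tri x q.1 q.2
          have h5 : l ≤ 2 * dd q.1 q.2 := by omega
          have h6 : (l : ℝ) ≤ 2 * (dd q.1 q.2 : ℝ) := by exact_mod_cast h5
          rw [dd_norm, hl] at h6
          push_cast at h6
          rw [norm_sub_rev]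
          linarith)
        refine h3.trans ?_
        rw [ENNReal.ofReal_mul (by positivity)]
        gcongr
      refine (Finset.sum_le_sum hq).trans ?_
      rw [Finset.sum_const, nsmul_eq_mul]
      rw [ENNReal.ofReal_mul (p := ((2 * (2 ^ n + 1) + 1 : ℝ) ^ d) ^ 2) (by positivity)]
      have h7 : (((bx x (l + 1)) ×ˢ (bx x (l + 1))).filter
            (fun q => 2 * dd x q.1 ≤ l ∧ l ≤ dd x q.2)).card ≤
          ((2 * (l + 1) + 1) ^ d) ^ 2 := by
        refine (Finset.card_filter_le _ _).trans ?_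
        rw [Finset.card_product, card_bx, sq]
      have h8 : ENNReal.ofReal (((2 * (2 ^ n + 1) + 1 : ℝ) ^ d) ^ 2) =
          ((((2 * (l + 1) + 1) ^ d) ^ 2 : ℕ) : ℝ≥0∞) := by
        rw [← ENNReal.ofReal_natCast, hl]
        congr 1
        push_cast
        rfl
      rw [h8]
      have h9 : (((((bx x (l + 1)) ×ˢ (bx x (l + 1))).filter
            (fun q => 2 * dd x q.1 ≤ l ∧ l ≤ dd x q.2)).card : ℕ) : ℝ≥0∞) ≤
          ((((2 * (l + 1) + 1) ^ d) ^ 2 : ℕ) : ℝ≥0∞) := by exact_mod_cast h7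
      gcongr
    refine (add_le_add hN hA).trans ?_
    rw [← ENNReal.ofReal_add (by positivity) (by positivity)]
    exact ENNReal.ofReal_le_ofReal h2
  · intro x V E hV
    rw [Set.mem_ofPred_eq, not_not] at hV
    have h3 := Det.dc_of x l ε δ hε1.le V E hV
    rw [hcard x] at h3
    have h4 : 2 * d * c * ε = eta d n := by
      rw [hε]
      field_simp
    rwa [h4] at h3

end Ini

end Pool.Agent.Helper28.Tg
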