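import Pool.Agent.Helper28.Tg.Detj
import Pool.Agent.Helper28.Tg.Ini
import Pool.Agent.Helper28.Tg.Defs3

/-! # The initial scale, energy-resolved -/

set_option autoImplicit false

open MeasureTheory Filter Topology
open scoped BigOperators ENNReal NNReal InnerProductSpace ComplexConjugate

namespace Pool.Agent.Helper28.Tg

open Pool.Agent.H4R2.LO (Zd dd bx Hg L2f IsSpec PolyB IsGen Hm AL rs adj Near)
open Pool.Agent.H4R2.LO.Em (dd_le_iff le_dd dd_self dd_comm dd_tri mem_bx card_bx adj_symm adj_self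
  AL_symm em_count rs_map dd_norm)
open Pool.Agent.H5R2.NB (UG L2 dl IsGrp PP)

namespace Inj

theorem lap_cov {d : ℕ} {c : ℝ} {ev : (Zd d → ℝ) → UG (L2 (Zd d))}
    (hev : ∀ V, IsGrp c V (ev V)) (V : Zd d → ℝ) (z : ℂ) (u w : Zd d) :
    lap (ev V) z u w = lap (ev fun y => V (y + u)) z 0 (w - u) := by
  unfold lap
  congr 1
  refine integral_congr_ae (Eventually.of_forall fun t => ?_)
  simp only [Amp.cov hev V u w t]

theorem lap_cont {d : ℕ}  {c : ℝ}
    {ev : (Zd d → ℝ) → UG (L2 (Zd d))} (hev : ∀ V, IsGrp c V (ev V)) (η : ℝ) (hη : 0 < η)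
    (E : ℝ) (w : Zd d) : Continuous fun V : Zd d → ℝ =>
      lap (ev V) ((E : ℂ) + (η : ℝ) * Complex.I) 0 w := by
  have hL := t_LCT d c ev hev η hη 0 w
  have hg : Continuous fun V : Zd d → ℝ => ((V, E) : (Zd d → ℝ) × ℝ) := by fun_prop
  have := hL.comp hg
  exact this

/-- the mean tail of the resolvent -/
noncomputable def Fe {d : ℕ} (ev : (Zd d → ℝ) → UG (L2 (Zd d))) (ν : Measure ℝ)
    [IsProbabilityMeasure ν] (η R E : ℝ) : ℝ≥0∞ :=
  ∫⁻ V, (∑' y : Zd d, if R ≤ ‖y‖ then ‖lap (ev V) ((E : ℂ) + (η : ℝ) * Complex.I) 0 y‖ₑ ^ 2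
    else 0) ∂(PP d ν)

/-- **the resolvent is small with large probability** -/
theorem pr_lap {d : ℕ} (ν : Measure ℝ) [IsProbabilityMeasure ν] {c : ℝ}
    {ev : (Zd d → ℝ) → UG (L2 (Zd d))} (hev : ∀ V, IsGrp c V (ev V)) (η : ℝ) (hη : 0 < η)
    (R E ε0 : ℝ) (hε : 0 < ε0) (u w : Zd d) (hR : R ≤ ‖w - u‖) :
    (PP d ν) {V | ε0 < ‖lap (ev V) ((E : ℂ) + (η : ℝ) * Complex.I) u w‖} ≤
      ENNReal.ofReal (1 / ε0 ^ 2) * Fe ev ν η R E := by
  have hmp := (Pool.Agent.H5R2.NB.t_RES d ν).2 u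
  have hcont := lap_cont hev η hη E (w - u)
  have hmeas : MeasurableSet {V : Zd d → ℝ |
      ε0 < ‖lap (ev V) ((E : ℂ) + (η : ℝ) * Complex.I) 0 (w - u)‖} :=
    (isOpen_lt continuous_const hcont.norm).measurableSet
  have h1 : (PP d ν) {V | ε0 < ‖lap (ev V) ((E : ℂ) + (η : ℝ) * Complex.I) u w‖} =
      (PP d ν) {V | ε0 < ‖lap (ev V) ((E : ℂ) + (η : ℝ) * Complex.I) 0 (w - u)‖} := by
    rw [← hmp.measure_preimage hmeas.nullMeasurableSet]
    congr 1
    ext V
    simp only [Set.mem_ofPred_eq, Set.mem_preimage]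
    rw [lap_cov hev V]
  rw [h1]
  have h2 : {V : Zd d → ℝ | ε0 < ‖lap (ev V) ((E : ℂ) + (η : ℝ) * Complex.I) 0 (w - u)‖} ⊆
      {V | ENNReal.ofReal (ε0 ^ 2) ≤
        ‖lap (ev V) ((E : ℂ) + (η : ℝ) * Complex.I) 0 (w - u)‖ₑ ^ 2} := by
    intro V hV
    simp only [Set.mem_ofPred_eq] at hV ⊢
    rw [← ofReal_norm, ← ENNReal.ofReal_pow (norm_nonneg _)]
    exact ENNReal.ofReal_le_ofReal (pow_le_pow_left₀ hε.le hV.le 2)
  refine (measure_mono h2).trans ?_
  have h3 : ∫⁻ V, ‖lap (ev V) ((E : ℂ) + (η : ℝ) * Complex.I) 0 (w - u)‖ₑ ^ 2 ∂(PP d ν) ≤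
      Fe ev ν η R E := by
    unfold Fe
    refine lintegral_mono fun V => ?_
    have h4 := ENNReal.le_tsum (f := fun y : Zd d =>
      if R ≤ ‖y‖ then ‖lap (ev V) ((E : ℂ) + (η : ℝ) * Complex.I) 0 y‖ₑ ^ 2 else 0) (w - u)
    simp only [if_pos hR] at h4
    exact h4
  have h5 := meas_ge_le_lintegral_div (μ := PP d ν)
    (f := fun V : Zd d → ℝ => ‖lap (ev V) ((E : ℂ) + (η : ℝ) * Complex.I) 0 (w - u)‖ₑ ^ 2)
    (hcont.enorm.measurable.pow_const 2).aemeasurable
    (ε := ENNReal.ofReal (ε0 ^ 2)) (by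
      rw [Ne, ENNReal.ofReal_eq_zero, not_le]; positivity) ENNReal.ofReal_ne_top
  refine h5.trans ?_
  rw [ENNReal.div_eq_inv_mul, ← ENNReal.ofReal_inv_of_pos (by positivity), one_div]
  gcongr

/-- a good node in an interval -/
theorem pick (F : ℝ → ℝ≥0∞) (a b c η τ : ℝ) (hη : 0 < η) (hτ : 0 < τ) (ha : a ≤ c)
    (hb : c + η / 2 ≤ b) (h : ∫⁻ E in Set.Icc a b, F E ≤ ENNReal.ofReal τ) :
    ∃ E, c ≤ E ∧ E ≤ c + η / 2 ∧ F E ≤ ENNReal.ofReal (4 / η * τ) := by
  by_contra hcon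
  push Not at hcon
  have h1 : ∫⁻ _E in Set.Icc c (c + η / 2), ENNReal.ofReal (4 / η * τ) ≤
      ∫⁻ E in Set.Icc c (c + η / 2), F E :=
    setLIntegral_mono' measurableSet_Icc fun E hE => (hcon E hE.1 hE.2).le
  have h2 : ∫⁻ E in Set.Icc c (c + η / 2), F E ≤ ∫⁻ E in Set.Icc a b, F E :=
    lintegral_mono_set (Set.Icc_subset_Icc ha hb)
  rw [setLIntegral_const, Real.volume_Icc, ← ENNReal.ofReal_mul (by positivity)] at h1
  have h3 := h1.trans (h2.trans h)
  rw [ENNReal.ofReal_le_ofReal_iff hτ.le] at h3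
  have h4 : 4 / η * τ * (c + η / 2 - c) = 2 * τ := by
    field_simp
    ring
  rw [h4] at h3
  linarith

/-- the initial scale with explicit parameters -/
theorem corej {d : ℕ} (hd : 1 ≤ d) (ν : Measure ℝ) [IsProbabilityMeasure ν] (C : ℝ≥0)
    (hC : ν ≤ C • volume) {ev : (Zd d → ℝ) → UG (L2 (Zd d))} (hev : ∀ V, IsGrp (-1) V (ev V))
    (T R a b b1 : ℝ) (hT : 0 < T) (n K : ℕ) (δ ε0 τ p : ℝ) (hδ : 0 < δ) (hε0 : 0 < ε0)
    (hτ : 0 < τ) (hR : 2 * R ≤ 2 ^ n)
    (hesc : esc ev ν (Set.Icc a b) T R ≤ ENNReal.ofReal τ)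
    (hb : b1 + K * (1 / (2 * T)) ≤ b) (hK : (K + 1) * (1 / (2 * T)) ≤ δ / 2)
    (h1 : 2 * d * ((2 * 2 ^ n + 1 : ℝ) ^ d) * ((4 * K + 5) ^ K *
      (ε0 + 2 * d * ((2 * 2 ^ n + 1 : ℝ) ^ d) * ε0 * (2 * T)) +
      1 / δ * (2 * ((K + 1) * (1 / (2 * T))) / δ) ^ K) ≤ eta d n)
    (h2 : 8 * C * δ * ((2 * 2 ^ n + 1 : ℝ) ^ d) + ((2 * (2 ^ n + 1) + 1 : ℝ) ^ d) ^ 2 *
      (K * (16 * Real.pi * T ^ 2 / ε0 ^ 2 * τ)) ≤ p) :
    ∃ B : Zd d → Set ((Zd d → ℝ) × ℝ), Bg d ν (Set.Icc a b1) (2 ^ n) (eta d n) p B := by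
  classical
  set l : ℕ := 2 ^ n with hl
  set η : ℝ := 1 / (2 * T) with hη
  have hη0 : 0 < η := by positivity
  have hpi := Real.pi_pos
  have hcard : ∀ x : Zd d, ((bx x l).card : ℝ) = (2 * 2 ^ n + 1 : ℝ) ^ d := by
    intro x
    rw [card_bx, hl]
    push_cast
    rfl
  set c : ℝ := (2 * 2 ^ n + 1 : ℝ) ^ d with hc
  have hc0 : 0 < c := by positivity
  have hd0 : (0 : ℝ) < d := by exact_mod_cast hd
  set ε : ℝ := eta d n / (2 * d * c) with hε
  have heta : 0 < eta d n := by unfold eta; positivity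
  have hε1 : 0 < ε := by positivity
  have hle : (4 * K + 5) ^ K * (ε0 + 2 * d * c * ε0 / η) + 1 / δ * (2 * ((K + 1) * η) / δ) ^ K ≤
      ε := by
    rw [hε, le_div_iff₀ (by positivity)]
    have : 2 * d * c * ε0 / η = 2 * d * c * ε0 * (2 * T) := by
      rw [hη, div_div_eq_mul_div, div_one]
    rw [this]
    linarith
  -- the integral over the energies
  have hint : ∫⁻ E in Set.Icc a b, Fe ev ν η R E ≤ ENNReal.ofReal (2 * Real.pi * T * τ) := by
    have h3 : ENNReal.ofReal (1 / (2 * Real.pi * T)) * ∫⁻ E in Set.Icc a b, Fe ev ν η R E ≤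
        ENNReal.ofReal τ := hesc
    have h4 : ENNReal.ofReal (2 * Real.pi * T) * (ENNReal.ofReal (1 / (2 * Real.pi * T)) *
        ∫⁻ E in Set.Icc a b, Fe ev ν η R E) ≤ ENNReal.ofReal (2 * Real.pi * T) *
          ENNReal.ofReal τ := by gcongr
    rw [← mul_assoc, ← ENNReal.ofReal_mul (by positivity), ← ENNReal.ofReal_mul (by positivity),
      mul_one_div_cancel (by positivity), ENNReal.ofReal_one, one_mul] at h4
    exact h4
  refine ⟨fun x => {p | ¬ Gd x l ε δ p.1 p.2}, fun x => Ini.gd_open x l ε δ, ?_, ?_, ?_⟩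
  · intro x V V' E hVV hp
    rw [Set.mem_ofPred_eq] at hp ⊢
    intro hG
    exact hp (Ini.gd_loc x l ε δ V' V E (fun y hy => (hVV y (by omega)).symm) hG)
  · intro x E hE
    -- the nodes
    have hnode : ∀ j : ℕ, ∃ E' : ℝ, j < K → (E + j * η ≤ E' ∧ E' ≤ E + j * η + η / 2 ∧
        Fe ev ν η R E' ≤ ENNReal.ofReal (4 / η * (2 * Real.pi * T * τ))) := by
      intro j
      by_cases hj : j < K
      · obtain ⟨E', h3, h4, h5⟩ := pick (Fe ev ν η R) a b (E + j * η) η (2 * Real.pi * T * τ) hη0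
          (by positivity) (by
            have : 0 ≤ j * η := by positivity
            linarith [hE.1]) (by
            have h6 : (j : ℝ) + 1 ≤ K := by exact_mod_cast hj
            have h7 : (j + 1) * η ≤ K * η := by gcongr
            have h8 := hE.2
            linarith) hint
        exact ⟨E', fun _ => ⟨h3, h4, h5⟩⟩
      · exact ⟨0, fun h => absurd h hj⟩
    choose E' hE' using hnode
    have hsub : {V : Zd d → ℝ | (V, E) ∈ {p : (Zd d → ℝ) × ℝ | ¬ Gd x l ε δ p.1 p.2}} ⊆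
        {V | ¬ ∀ f : Zd d → ℝ, (∀ y, l < dd x y → f y = 0) →
          δ ^ 2 * ∑ y ∈ bx x l, f y ^ 2 ≤ ∑ y ∈ bx x l, (Hr V f y - E * f y) ^ 2} ∪
        ⋃ q ∈ ((bx x (l + 1)) ×ˢ (bx x (l + 1))).filter
            (fun q => 2 * dd x q.1 ≤ l ∧ l ≤ dd x q.2),
          ⋃ j ∈ Finset.range K,
            {V | ε0 < ‖lap (ev V) ((E' j : ℂ) + (η : ℝ) * Complex.I) q.1 q.2‖} := by
      intro V hV
      rw [Set.mem_ofPred_eq, Set.mem_ofPred_eq] at hV
      by_contra hcon
      apply hV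
      rw [Set.mem_union, not_or] at hcon
      obtain ⟨ha, hb'⟩ := hcon
      rw [Set.mem_ofPred_eq, not_not] at ha
      have hdet := Detj.detj V (ev V) (hev V) x l η δ ε0 E K hη0 hδ hε0.le ha E'
        (by
          intro j hj
          have h3 := hE' j hj
          refine ⟨h3.1, ?_⟩
          have h4 : E + (j + 1 / 2) * η = E + j * η + η / 2 := by ring
          rw [h4]
          exact h3.2.1) hK
        (by
          intro j hj u w hu hw hw'
          by_contra hlt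
          rw [not_le] at hlt
          apply hb'
          rw [Set.mem_iUnion₂]
          refine ⟨(u, w), ?_, ?_⟩
          · rw [Finset.mem_filter, Finset.mem_product, mem_bx, mem_bx]
            exact ⟨⟨by simp only; omega, by simp only; omega⟩, hu, hw⟩
          · rw [Set.mem_iUnion₂]
            exact ⟨j, Finset.mem_range.2 hj, hlt⟩)
      rw [hcard x] at hdet
      exact Ini.gd_mono x l _ ε δ hle V E hdet
    refine (measure_mono hsub).trans ((measure_union_le _ _).trans ?_)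
    have hN := Ini.nr_prob ν C hC x l E δ hδ
    rw [hcard x] at hN
    have hA : (PP d ν) (⋃ q ∈ ((bx x (l + 1)) ×ˢ (bx x (l + 1))).filter
            (fun q => 2 * dd x q.1 ≤ l ∧ l ≤ dd x q.2),
          ⋃ j ∈ Finset.range K,
            {V | ε0 < ‖lap (ev V) ((E' j : ℂ) + (η : ℝ) * Complex.I) q.1 q.2‖}) ≤
        ENNReal.ofReal (((2 * (2 ^ n + 1) + 1 : ℝ) ^ d) ^ 2 *
          (K * (16 * Real.pi * T ^ 2 / ε0 ^ 2 * τ))) := by
      refine (measure_biUnion_finset_le _ _).trans ?_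
      have hq : ∀ q ∈ ((bx x (l + 1)) ×ˢ (bx x (l + 1))).filter
            (fun q => 2 * dd x q.1 ≤ l ∧ l ≤ dd x q.2),
          (PP d ν) (⋃ j ∈ Finset.range K,
            {V | ε0 < ‖lap (ev V) ((E' j : ℂ) + (η : ℝ) * Complex.I) q.1 q.2‖}) ≤
            ENNReal.ofReal (K * (16 * Real.pi * T ^ 2 / ε0 ^ 2 * τ)) := by
        intro q hq
        rw [Finset.mem_filter] at hq
        refine (measure_biUnion_finset_le _ _).trans ?_
        have hRq : R ≤ ‖q.2 - q.1‖ := by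
          have h4 := dd_tri x q.1 q.2
          have h5 : l ≤ 2 * dd q.1 q.2 := by omega
          have h6 : (l : ℝ) ≤ 2 * (dd q.1 q.2 : ℝ) := by exact_mod_cast h5
          rw [dd_norm, hl] at h6
          push_cast at h6
          rw [norm_sub_rev]
          linarith
        have hj : ∀ j ∈ Finset.range K,
            (PP d ν) {V | ε0 < ‖lap (ev V) ((E' j : ℂ) + (η : ℝ) * Complex.I) q.1 q.2‖} ≤
            ENNReal.ofReal (16 * Real.pi * T ^ 2 / ε0 ^ 2 * τ) := by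
          intro j hj
          have h3 := pr_lap ν hev η hη0 R (E' j) ε0 hε0 q.1 q.2 hRq
          have h4 := (hE' j (Finset.mem_range.1 hj)).2.2
          refine h3.trans ?_
          calc ENNReal.ofReal (1 / ε0 ^ 2) * Fe ev ν η R (E' j)
              ≤ ENNReal.ofReal (1 / ε0 ^ 2) *
                ENNReal.ofReal (4 / η * (2 * Real.pi * T * τ)) := by gcongr
            _ = ENNReal.ofReal (16 * Real.pi * T ^ 2 / ε0 ^ 2 * τ) := by
                rw [← ENNReal.ofReal_mul (by positivity)]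
                congr 1
                rw [hη]
                field_simp
                ring
        refine (Finset.sum_le_sum hj).trans ?_
        rw [Finset.sum_const, nsmul_eq_mul, Finset.card_range,
          ENNReal.ofReal_mul (p := (K : ℝ)) (by positivity), ENNReal.ofReal_natCast]
      refine (Finset.sum_le_sum hq).trans ?_
      rw [Finset.sum_const, nsmul_eq_mul]
      rw [ENNReal.ofReal_mul (p := ((2 * (2 ^ n + 1) + 1 : ℝ) ^ d) ^ 2) (by positivity)]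
      have h7 : (((bx x (l + 1)) ×ˢ (bx x (l + 1))).filter
            (fun q => 2 * dd x q.1 ≤ l ∧ l ≤ dd x q.2)).card ≤
          ((2 * (l + 1) + 1) ^ d) ^ 2 := by
        refine (Finset.card_filter_le _ _).trans ?_
        rw [Finset.card_product, card_bx, sq]
      have h8 : ENNReal.ofReal (((2 * (2 ^ n + 1) + 1 : ℝ) ^ d) ^ 2) =
          ((((2 * (l + 1) + 1) ^ d) ^ 2 : ℕ) : ℝ≥0∞) := by
        rw [← ENNReal.ofReal_natCast, hl]
        congr 1
        push_cast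
        rfl
      rw [h8]
      have h9 : (((((bx x (l + 1)) ×ˢ (bx x (l + 1))).filter
            (fun q => 2 * dd x q.1 ≤ l ∧ l ≤ dd x q.2)).card : ℕ) : ℝ≥0∞) ≤
          ((((2 * (l + 1) + 1) ^ d) ^ 2 : ℕ) : ℝ≥0∞) := by exact_mod_cast h7
      gcongr
    refine (add_le_add hN hA).trans ?_
    rw [← ENNReal.ofReal_add (by positivity) (by positivity)]
    exact ENNReal.ofReal_le_ofReal h2
  · intro x V E hV
    rw [Set.mem_ofPred_eq, not_not] at hV
    have h3 := Det.dc_of x l ε δ hε1.le V E hV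
    rw [hcard x] at h3
    have h4 : 2 * d * c * ε = eta d n := by
      rw [hε]
      field_simp
    rwa [h4] at h3

end Inj

end Pool.Agent.Helper28.Tg
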