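import Pool.Agent.Helper28.Tg.Dt2
import Pool.Agent.Helper28.Tg.Ini
import Pool.Agent.Helper8.Stp.Det

/-! # The first step: from square sums to polynomial decay (deterministic part) -/

set_option autoImplicit false

open MeasureTheory Filter Topology
open scoped BigOperators ENNReal NNReal InnerProductSpace ComplexConjugate

namespace Pool.Agent.Helper28.Tg

open Pool.Agent.H4R2.LO (Zd dd bx Hg L2f IsSpec PolyB IsGen Hm AL rs adj)
open Pool.Agent.H4R2.LO.Em (dd_le_iff le_dd dd_self dd_comm dd_tri mem_bx card_bx adj_symm adj_self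
  AL_symm em_count)
open Pool.Agent.H5R2.NB (UG L2 dl IsGrp PP)
open Pool.Agent.Helper8.Stp (gc gx gi gc_near gx_mem gi_dist gi_card)

namespace St0

open Det Dt2

/-- the boundary term, real version -/
theorem bterm_real {d : ℕ} (x : Zd d) (l : ℕ) (g : Zd d → ℝ) :
    ∑ y ∈ bx x l, (∑ i : Fin d,
      ((if dd x (y + Pi.single i 1) ≤ l then 0 else g (y + Pi.single i 1)) +
        (if dd x (y - Pi.single i 1) ≤ l then 0 else g (y - Pi.single i 1)))) ^ 2 ≤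
      4 * d ^ 2 * ∑ y ∈ bx x (l + 1), g y ^ 2 := by
  have h1 := bterm x l (fun y => (g y : ℂ))
  have h2 : ∀ y : Zd d, ‖∑ i : Fin d,
      ((if y + Pi.single i 1 ∈ bx x l then (0 : ℂ) else (g (y + Pi.single i 1) : ℂ)) +
        (if y - Pi.single i 1 ∈ bx x l then (0 : ℂ) else (g (y - Pi.single i 1) : ℂ)))‖ ^ 2 =
      (∑ i : Fin d,
      ((if dd x (y + Pi.single i 1) ≤ l then 0 else g (y + Pi.single i 1)) +
        (if dd x (y - Pi.single i 1) ≤ l then 0 else g (y - Pi.single i 1)))) ^ 2 := by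
    intro y
    have h3 : ∑ i : Fin d,
      ((if y + Pi.single i 1 ∈ bx x l then (0 : ℂ) else (g (y + Pi.single i 1) : ℂ)) +
        (if y - Pi.single i 1 ∈ bx x l then (0 : ℂ) else (g (y - Pi.single i 1) : ℂ))) =
      ((∑ i : Fin d,
      ((if dd x (y + Pi.single i 1) ≤ l then 0 else g (y + Pi.single i 1)) +
        (if dd x (y - Pi.single i 1) ≤ l then 0 else g (y - Pi.single i 1))) : ℝ) : ℂ) := by
      rw [Complex.ofReal_sum]
      refine Finset.sum_congr rfl fun i _ => ?_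
      rw [Complex.ofReal_add]
      simp only [mem_bx]
      congr 1 <;> split_ifs <;> simp
    rw [h3, Complex.norm_real, Real.norm_eq_abs, sq_abs]
  rw [Finset.sum_congr rfl fun y _ => h2 y] at h1
  refine h1.trans ?_
  refine mul_le_mul_of_nonneg_left ?_ (by positivity)
  refine (Finset.sum_le_sum_of_subset_of_nonneg (Finset.filter_subset _ _)
    fun _ _ _ => by positivity).trans (le_of_eq ?_)
  refine Finset.sum_congr rfl fun y _ => ?_
  rw [Complex.norm_real, Real.norm_eq_abs, sq_abs]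

/-- cutting a solution -/
theorem cut {d : ℕ} (x : Zd d) (l : ℕ) (V : Zd d → ℝ) (E : ℝ) (ψ : Zd d → ℝ)
    (hψ : ∀ y, dd x y ≤ l → Hr V ψ y = E * ψ y) (w : Zd d) (hw : dd x w ≤ l) :
    Hr V (fun y => if dd x y ≤ l then ψ y else 0) w - E * (if dd x w ≤ l then ψ w else 0) =
      ∑ i : Fin d, ((if dd x (w + Pi.single i 1) ≤ l then 0 else ψ (w + Pi.single i 1)) +
        (if dd x (w - Pi.single i 1) ≤ l then 0 else ψ (w - Pi.single i 1))) := by
  rw [if_pos hw]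
  have h3 : ∀ (y : Zd d), (if dd x y ≤ l then ψ y else 0) = ψ y - (if dd x y ≤ l then 0 else ψ y) := by
    intro y
    split_ifs <;> simp
  have h5 := hψ w hw
  unfold Hr at h5 ⊢
  simp only []
  rw [if_pos hw]
  have h6 : ∑ i : Fin d, ((if dd x (w + Pi.single i 1) ≤ l then ψ (w + Pi.single i 1) else 0) +
      (if dd x (w - Pi.single i 1) ≤ l then ψ (w - Pi.single i 1) else 0)) =
      ∑ i : Fin d, (ψ (w + Pi.single i 1) + ψ (w - Pi.single i 1)) -
      ∑ i : Fin d, ((if dd x (w + Pi.single i 1) ≤ l then 0 else ψ (w + Pi.single i 1)) +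
      (if dd x (w - Pi.single i 1) ≤ l then 0 else ψ (w - Pi.single i 1))) := by
    rw [← Finset.sum_sub_distrib]
    refine Finset.sum_congr rfl fun i _ => ?_
    rw [h3 (w + Pi.single i 1), h3 (w - Pi.single i 1)]
    ring
  rw [h6]
  linarith

/-- solutions in one good box -/
theorem loc1 {d : ℕ} (c : Zd d) (l : ℕ) (A : ℝ) (V : Zd d → ℝ) (E : ℝ)
    (h : G2 c l (qd d) A V E) (ψ : Zd d → ℝ) (hψ : ∀ y, dd c y ≤ l → Hr V ψ y = E * ψ y) :
    ∑ u ∈ (bx c l).filter (fun u => 2 * dd c u ≤ l), ψ u ^ 2 ≤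
      (2 * 100 ^ d : ℝ)⁻¹ * ∑ y ∈ bx c (l + 1), ψ y ^ 2 := by
  have h1 := h (fun y => if dd c y ≤ l then ψ y else 0) (fun y hy => if_neg (by omega))
  simp only [] at h1
  set S : ℝ := ∑ y ∈ bx c (l + 1), ψ y ^ 2 with hS
  have e1 : ∑ u ∈ (bx c l).filter (fun u => 2 * dd c u ≤ l),
      (if dd c u ≤ l then ψ u else 0) ^ 2 =
      ∑ u ∈ (bx c l).filter (fun u => 2 * dd c u ≤ l), ψ u ^ 2 := by
    refine Finset.sum_congr rfl fun u hu => ?_
    rw [Finset.mem_filter, mem_bx] at hu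
    rw [if_pos hu.1]
  have e2 : ∑ y ∈ bx c l, (if dd c y ≤ l then ψ y else 0) ^ 2 ≤ S := by
    have e3 : ∑ y ∈ bx c l, (if dd c y ≤ l then ψ y else 0) ^ 2 = ∑ y ∈ bx c l, ψ y ^ 2 := by
      refine Finset.sum_congr rfl fun u hu => ?_
      rw [mem_bx] at hu
      rw [if_pos hu]
    rw [e3]
    refine Finset.sum_le_sum_of_subset_of_nonneg ?_ fun _ _ _ => by positivity
    intro y hy
    rw [mem_bx] at hy ⊢
    omega
  have e4 : ∑ w ∈ (bx c l).filter (fun w => dd c w < l),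
      (Hr V (fun y => if dd c y ≤ l then ψ y else 0) w -
        E * (if dd c w ≤ l then ψ w else 0)) ^ 2 = 0 := by
    refine Finset.sum_eq_zero fun w hw => ?_
    rw [Finset.mem_filter, mem_bx] at hw
    rw [cut c l V E ψ hψ w hw.1]
    have e5 : ∑ i : Fin d, ((if dd c (w + Pi.single i 1) ≤ l then 0 else
        ψ (w + Pi.single i 1)) + (if dd c (w - Pi.single i 1) ≤ l then 0 else
        ψ (w - Pi.single i 1))) = 0 := by
      refine Finset.sum_eq_zero fun i _ => ?_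
      have h9 := dd_nb w i
      have h10 := dd_tri c w (w + Pi.single i 1)
      have h11 := dd_tri c w (w - Pi.single i 1)
      rw [if_pos (by omega), if_pos (by omega), add_zero]
    rw [e5]
    norm_num
  have e6 : ∑ w ∈ (bx c l).filter (fun w => dd c w = l),
      (Hr V (fun y => if dd c y ≤ l then ψ y else 0) w -
        E * (if dd c w ≤ l then ψ w else 0)) ^ 2 ≤ 4 * d ^ 2 * S := by
    refine le_trans ?_ (bterm_real c l ψ)
    refine (Finset.sum_le_sum_of_subset_of_nonneg (Finset.filter_subset _ _)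
      fun _ _ _ => by positivity).trans (le_of_eq ?_)
    refine Finset.sum_congr rfl fun w hw => ?_
    rw [mem_bx] at hw
    rw [cut c l V E ψ hψ w hw]
  rw [e1, e4, mul_zero, add_zero] at h1
  refine h1.trans ?_
  have hq : 0 < qd d := by unfold qd; positivity
  have hS0 : 0 ≤ S := Finset.sum_nonneg fun _ _ => by positivity
  calc _ ≤ qd d * (S + 4 * d ^ 2 * S) := mul_le_mul_of_nonneg_left (add_le_add e2 e6) hq.le
    _ ≤ qd d * ((4 * d ^ 2 + 4) * S) := by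
        refine mul_le_mul_of_nonneg_left ?_ hq.le
        nlinarith
    _ = (2 * 100 ^ d : ℝ)⁻¹ * S := by
        unfold qd
        field_simp
        ring

/-- the number of grid points near a point -/
theorem near_mem {d : ℕ} (g : ℕ) (hg : 0 < g) (z m : Zd d) (h : dd (gc g m) z ≤ 2 * g + 1) :
    m ∈ gi g 3 z := by
  unfold gi
  rw [Fintype.mem_piFinset]
  intro i
  have hg' : (0 : ℤ) < g := by exact_mod_cast hg
  have h0 := (dd_le_iff (gc g m) z _).1 h i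
  have h0' : |gc g m i - z i| ≤ 2 * (g : ℤ) + 1 := by
    have : ((gc g m i - z i).natAbs : ℤ) ≤ ((2 * g + 1 : ℕ) : ℤ) := by exact_mod_cast h0
    rw [Int.natCast_natAbs] at this
    push_cast at this
    exact this
  rw [abs_le] at h0'
  unfold gc at h0'
  rw [Finset.mem_Icc]
  have h1 := Int.mul_ediv_add_emod (z i) g
  have h2 := Int.emod_nonneg (z i) hg'.ne'
  have h3 := Int.emod_lt_of_pos (z i) hg'
  obtain ⟨q, hq⟩ : ∃ q, q = z i / (g : ℤ) := ⟨_, rfl⟩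
  rw [← hq] at h1 ⊢
  push_cast
  constructor
  · by_contra hlt
    push Not at hlt
    have h4 : m i ≤ q - 4 := by omega
    have h5 : (g : ℤ) * m i ≤ g * (q - 4) := mul_le_mul_of_nonneg_left h4 hg'.le
    nlinarith [h0'.1]
  · by_contra hlt
    push Not at hlt
    have h4 : q + 4 ≤ m i := by omega
    have h5 : (g : ℤ) * (q + 4) ≤ g * m i := mul_le_mul_of_nonneg_left h4 hg'.le
    nlinarith [h0'.2]

/-- one covering step -/
theorem cover {d : ℕ} (hd : 1 ≤ d) (g : ℕ) (hg : 0 < g) (ψ : Zd d → ℝ) (u : Zd d) (r : ℕ)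
    (h : ∀ m : Zd d, dd u (gc g m) ≤ r + g →
      ∑ y ∈ (bx (gc g m) (2 * g)).filter (fun y => 2 * dd (gc g m) y ≤ 2 * g), ψ y ^ 2 ≤
        (2 * 100 ^ d : ℝ)⁻¹ * ∑ y ∈ bx (gc g m) (2 * g + 1), ψ y ^ 2) :
    ∑ y ∈ bx u r, ψ y ^ 2 ≤ 1 / 4 * ∑ y ∈ bx u (r + 4 * g), ψ y ^ 2 := by
  classical
  set M : Finset (Zd d) := (bx u r).image (gx g) with hM
  have hMd : ∀ m ∈ M, dd u (gc g m) ≤ r + g := by
    intro m hm
    rw [hM, Finset.mem_image] at hm
    obtain ⟨y, hy, rfl⟩ := hm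
    rw [mem_bx] at hy
    have h1 := dd_tri u y (gc g (gx g y))
    have h2 := gc_near g hg y
    rw [dd_comm] at h2
    omega
  have h1 : ∑ y ∈ bx u r, ψ y ^ 2 ≤ ∑ m ∈ M,
      ∑ y ∈ (bx (gc g m) (2 * g)).filter (fun y => 2 * dd (gc g m) y ≤ 2 * g), ψ y ^ 2 := by
    rw [← Finset.sum_fiberwise_of_maps_to (s := bx u r) (t := M) (g := gx g)
      (fun y hy => Finset.mem_image_of_mem _ hy)]
    refine Finset.sum_le_sum fun m hm => ?_
    refine Finset.sum_le_sum_of_subset_of_nonneg ?_ fun _ _ _ => by positivity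
    intro y hy
    rw [Finset.mem_filter] at hy
    have h2 := gc_near g hg y
    rw [hy.2] at h2
    rw [Finset.mem_filter, mem_bx]
    constructor <;> omega
  have h2 : ∑ m ∈ M, ∑ y ∈ bx (gc g m) (2 * g + 1), ψ y ^ 2 ≤
      7 ^ d * ∑ y ∈ bx u (r + 4 * g), ψ y ^ 2 := by
    have h3 : ∀ m ∈ M, ∑ y ∈ bx (gc g m) (2 * g + 1), ψ y ^ 2 =
        ∑ y ∈ bx u (r + 4 * g), (if dd (gc g m) y ≤ 2 * g + 1 then ψ y ^ 2 else 0) := by
      intro m hm
      rw [← Finset.sum_filter]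
      refine Finset.sum_congr ?_ fun _ _ => rfl
      ext y
      rw [mem_bx, Finset.mem_filter, mem_bx]
      constructor
      · intro hy
        refine ⟨?_, hy⟩
        have h4 := hMd m hm
        have h5 := dd_tri u (gc g m) y
        omega
      · exact fun hy => hy.2
    rw [Finset.sum_congr rfl h3, Finset.sum_comm, Finset.mul_sum]
    refine Finset.sum_le_sum fun y _ => ?_
    rw [← Finset.sum_filter, Finset.sum_const, nsmul_eq_mul]
    refine mul_le_mul_of_nonneg_right ?_ (by positivity)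
    have h6 : (M.filter fun m => dd (gc g m) y ≤ 2 * g + 1) ⊆ gi g 3 y := by
      intro m hm
      rw [Finset.mem_filter] at hm
      exact near_mem g hg y m hm.2
    have h7 := Finset.card_le_card h6
    rw [gi_card] at h7
    have h8 : (2 * 3 + 1) ^ d = 7 ^ d := by norm_num
    rw [h8] at h7
    exact_mod_cast h7
  have h100 : (0 : ℝ) < 2 * 100 ^ d := by positivity
  have hS0 : 0 ≤ ∑ y ∈ bx u (r + 4 * g), ψ y ^ 2 := Finset.sum_nonneg fun _ _ => by positivity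
  have h9 : (2 * 100 ^ d : ℝ)⁻¹ * 7 ^ d ≤ 1 / 4 := by
    obtain ⟨e, rfl⟩ : ∃ e, d = e + 1 := ⟨d - 1, by omega⟩
    have h10 : (7 : ℝ) ^ e ≤ 100 ^ e := pow_le_pow_left₀ (by norm_num) (by norm_num) e
    have h11 : (0 : ℝ) < 100 ^ e := by positivity
    rw [inv_mul_le_iff₀ (by positivity), pow_succ, pow_succ]
    nlinarith
  calc ∑ y ∈ bx u r, ψ y ^ 2 ≤ ∑ m ∈ M,
        ∑ y ∈ (bx (gc g m) (2 * g)).filter (fun y => 2 * dd (gc g m) y ≤ 2 * g), ψ y ^ 2 := h1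
    _ ≤ ∑ m ∈ M, (2 * 100 ^ d : ℝ)⁻¹ * ∑ y ∈ bx (gc g m) (2 * g + 1), ψ y ^ 2 :=
        Finset.sum_le_sum fun m hm => h m (hMd m hm)
    _ = (2 * 100 ^ d : ℝ)⁻¹ * ∑ m ∈ M, ∑ y ∈ bx (gc g m) (2 * g + 1), ψ y ^ 2 := by
        rw [Finset.mul_sum]
    _ ≤ (2 * 100 ^ d : ℝ)⁻¹ * (7 ^ d * ∑ y ∈ bx u (r + 4 * g), ψ y ^ 2) := by gcongr
    _ = ((2 * 100 ^ d : ℝ)⁻¹ * 7 ^ d) * ∑ y ∈ bx u (r + 4 * g), ψ y ^ 2 := by ring
    _ ≤ 1 / 4 * ∑ y ∈ bx u (r + 4 * g), ψ y ^ 2 := mul_le_mul_of_nonneg_right h9 hS0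

/-- iteration -/
theorem iter {d : ℕ} (hd : 1 ≤ d) (g : ℕ) (hg : 0 < g) (ψ : Zd d → ℝ) (u : Zd d) (R : ℕ)
    (h : ∀ m : Zd d, dd u (gc g m) ≤ R →
      ∑ y ∈ (bx (gc g m) (2 * g)).filter (fun y => 2 * dd (gc g m) y ≤ 2 * g), ψ y ^ 2 ≤
        (2 * 100 ^ d : ℝ)⁻¹ * ∑ y ∈ bx (gc g m) (2 * g + 1), ψ y ^ 2) (k : ℕ)
    (hk : 4 * g * k ≤ R) :
    ψ u ^ 2 ≤ (1 / 4) ^ k * ∑ y ∈ bx u (4 * g * k), ψ y ^ 2 := by
  induction k with
  | zero =>
    rw [pow_zero, one_mul, mul_zero]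
    exact Finset.single_le_sum (f := fun y : Zd d => ψ y ^ 2) (s := bx u 0)
      (fun y _ => sq_nonneg (ψ y)) (by rw [mem_bx, dd_self])
  | succ k ih =>
    have h1 : 4 * g * (k + 1) = 4 * g * k + 4 * g := by ring
    have h2 : ∑ y ∈ bx u (4 * g * k), ψ y ^ 2 ≤ 1 / 4 * ∑ y ∈ bx u (4 * g * k + 4 * g), ψ y ^ 2 :=
      cover hd g hg ψ u (4 * g * k) fun m hm => h m (by nlinarith)
    rw [h1]
    calc ψ u ^ 2 ≤ (1 / 4) ^ k * ∑ y ∈ bx u (4 * g * k), ψ y ^ 2 := ih (by omega)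
      _ ≤ (1 / 4) ^ k * (1 / 4 * ∑ y ∈ bx u (4 * g * k + 4 * g), ψ y ^ 2) :=
          mul_le_mul_of_nonneg_left h2 (by positivity)
      _ = (1 / 4) ^ (k + 1) * ∑ y ∈ bx u (4 * g * k + 4 * g), ψ y ^ 2 := by ring

/-- decay in the big box -/
theorem big {d : ℕ} (hd : 1 ≤ d) (g N : ℕ) (hg : 0 < g) (A : ℝ)
    (V : Zd d → ℝ) (E : ℝ) (x : Zd d) (k : ℕ) (hk : 4 * k + 2 ≤ N)
    (h : ∀ m ∈ gi g (2 * N + 1) x, G2 (gc g m) (2 * g) (qd d) A V E) (ψ : Zd d → ℝ)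
    (hψ : ∀ y, dd x y ≤ 2 * (g * N) → Hr V ψ y = E * ψ y) (b : ℝ)
    (hb : ∀ y, dd x y ≤ 2 * (g * N) → |ψ y| ≤ b) (u : Zd d) (hu : dd x u ≤ g * N) :
    ψ u ^ 2 ≤ (1 / 4) ^ k * (((2 * (g * N) + 1 : ℕ) : ℝ) ^ d * b ^ 2) := by
  have hgk : 4 * (g * k) + 2 * g ≤ g * N := by nlinarith
  have hgk1 : 4 * g * k = 4 * (g * k) := by ring
  have h1 := iter hd g hg ψ u (4 * g * k) (fun m hm => by
    have h3 := dd_tri x u (gc g m)
    have hm' : m ∈ gi g (2 * N + 1) x := by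
      have h2 := gx_mem g (2 * N) hg x (gc g m) (by
        have h4 : g * (2 * N) = 2 * (g * N) := by ring
        omega)
      have h5 : gx g (gc g m) = m := by
        funext i
        unfold gx gc
        rw [Int.mul_ediv_cancel_left _ (by exact_mod_cast hg.ne')]
      rwa [h5] at h2
    refine loc1 (gc g m) (2 * g) A V E (h m hm') ψ fun y hy => hψ y ?_
    have h6 := dd_tri x (gc g m) y
    omega) k le_rfl
  refine h1.trans (mul_le_mul_of_nonneg_left ?_ (by positivity))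
  have h2 : ∀ y ∈ bx u (4 * g * k), ψ y ^ 2 ≤ b ^ 2 := by
    intro y hy
    rw [mem_bx] at hy
    have h3 := dd_tri x u y
    rw [← sq_abs]
    exact pow_le_pow_left₀ (abs_nonneg _) (hb y (by omega)) 2
  refine (Finset.sum_le_sum h2).trans ?_
  rw [Finset.sum_const, nsmul_eq_mul, card_bx]
  refine mul_le_mul_of_nonneg_right ?_ (sq_nonneg b)
  push_cast
  refine pow_le_pow_left₀ (by positivity) ?_ d
  have h4 : ((4 * g * k : ℕ) : ℝ) ≤ ((g * N : ℕ) : ℝ) := by exact_mod_cast (by omega)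
  push_cast at h4
  linarith

theorem g2_open {d : ℕ} (x : Zd d) (l : ℕ) (q A : ℝ) :
    IsOpen {p : (Zd d → ℝ) × ℝ | ¬ G2 x l q A p.1 p.2} := by
  have h1 : {p : (Zd d → ℝ) × ℝ | ¬ G2 x l q A p.1 p.2} =
      ⋃ (f : Zd d → ℝ) (_ : ∀ y, l < dd x y → f y = 0),
        {p | q * (∑ y ∈ bx x l, f y ^ 2 +
        ∑ w ∈ (bx x l).filter (fun w => dd x w = l), (Hr p.1 f w - p.2 * f w) ^ 2) +
      A * ∑ w ∈ (bx x l).filter (fun w => dd x w < l), (Hr p.1 f w - p.2 * f w) ^ 2 <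
        ∑ u ∈ (bx x l).filter (fun u => 2 * dd x u ≤ l), f u ^ 2} := by
    ext p
    simp only [Set.mem_ofPred_eq, G2, Set.mem_iUnion]
    push Not
    constructor
    · rintro ⟨f, hf, h⟩
      exact ⟨f, hf, h⟩
    · rintro ⟨f, hf, h⟩
      exact ⟨f, hf, h⟩
  rw [h1]
  refine isOpen_iUnion fun f => isOpen_iUnion fun _ => ?_
  refine isOpen_lt ?_ continuous_const
  refine Continuous.add (continuous_const.mul (continuous_const.add ?_)) (continuous_const.mul ?_)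
  · exact continuous_finsetSum _ fun w _ => (Ini.Hr_cont f w).pow 2
  · exact continuous_finsetSum _ fun w _ => (Ini.Hr_cont f w).pow 2

theorem g2_loc {d : ℕ} (x : Zd d) (l : ℕ) (q A : ℝ) (V V' : Zd d → ℝ) (E : ℝ)
    (h : ∀ y, dd x y ≤ l → V y = V' y) (hG : G2 x l q A V E) : G2 x l q A V' E := by
  intro f hf
  have h1 : ∀ w ∈ bx x l, Hr V' f w = Hr V f w := by
    intro w hw
    unfold Hr
    rw [h w ((mem_bx x w l).1 hw)]
  refine (hG f hf).trans (le_of_eq ?_)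
  congr 1
  · congr 1
    congr 1
    refine Finset.sum_congr rfl fun w hw => ?_
    rw [h1 w (Finset.mem_filter.1 hw).1]
  · congr 1
    refine Finset.sum_congr rfl fun w hw => ?_
    rw [h1 w (Finset.mem_filter.1 hw).1]

/-- numbers: the decay -/
theorem num1 (d : ℕ) (a : ℝ) (ha : 0 < a) : ∃ s0 : ℕ, ∀ s n : ℕ, s0 ≤ s → a * n ≤ s →
    8 ≤ (2 : ℕ) ^ s ∧ (6 * d + 6) * (n + s) + d + 4 ≤ 2 ^ s / 4 := by
  set C : ℝ := (6 * d + 6) * (1 / a + 1) + (d + 4) with hC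
  have hC0 : 0 < C := by positivity
  have h1 := tendsto_pow_const_div_const_pow_of_one_lt 1 (show (1 : ℝ) < 2 by norm_num)
  have h2 : ∀ᶠ s : ℕ in atTop, (s : ℝ) ^ 1 / 2 ^ s < 1 / (4 * C) :=
    h1.eventually_lt_const (by positivity)
  obtain ⟨s1, hs1⟩ := h2.exists_forall_of_atTop
  refine ⟨max s1 3, fun s n hs hn => ?_⟩
  have h3 := hs1 s ((le_max_left _ _).trans hs)
  have hs3 : 3 ≤ s := (le_max_right _ _).trans hs
  have hs3' : (1 : ℝ) ≤ s := by exact_mod_cast (by omega : 1 ≤ s)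
  refine ⟨?_, ?_⟩
  · calc 8 = 2 ^ 3 := by norm_num
      _ ≤ 2 ^ s := Nat.pow_le_pow_right (by norm_num) hs3
  · rw [Nat.le_div_iff_mul_le (by norm_num)]
    rw [pow_one, div_lt_div_iff₀ (by positivity) (by positivity), one_mul] at h3
    have hn' : (n : ℝ) ≤ s / a := by
      rw [le_div_iff₀ ha]
      linarith
    have h4 : ((6 * d + 6) * (n + s) + d + 4 : ℝ) ≤ C * s := by
      have h5 : (n : ℝ) + s ≤ (1 / a + 1) * s := by
        have : (1 / a + 1) * (s : ℝ) = s / a + s := by ring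
        rw [this]
        linarith
      have h6 : (6 * d + 6) * ((n : ℝ) + s) ≤ (6 * d + 6) * ((1 / a + 1) * s) := by gcongr
      have h7 : (d : ℝ) + 4 ≤ (d + 4) * s := by nlinarith [(Nat.cast_nonneg d : (0 : ℝ) ≤ d)]
      rw [hC]
      nlinarith
    have h8 : (((((6 * d + 6) * (n + s) + d + 4) * 4 : ℕ)) : ℝ) ≤ ((2 ^ s : ℕ) : ℝ) := by
      push_cast
      nlinarith
    exact_mod_cast h8

/-- numbers: the probability -/
theorem num2 (d : ℕ) (hd : 1 ≤ d) (κ : ℝ) (hκ : 0 < κ) (hκ4 : κ ≤ 1 / 4) (c1 : ℝ) (hc1 : 0 < c1) :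
    ∃ n0 : ℕ, ∀ n s : ℕ, n0 ≤ n → (s : ℝ) ≤ κ / (2 * d) * n →
    ((2 * (2 * 2 ^ s + 1) + 1 : ℕ) ^ d : ℝ) * (c1 * (2 : ℝ) ^ (-(2 * κ * n))) ≤ pro κ (n + s) := by
  have hd1 : (1 : ℝ) ≤ d := by exact_mod_cast hd
  obtain ⟨n0, hn0⟩ := exists_nat_ge (8 * (3 * d + |Real.logb 2 c1|) / (3 * κ))
  refine ⟨n0, fun n s hn hs => ?_⟩
  have hnn : (8 * (3 * d + |Real.logb 2 c1|) / (3 * κ) : ℝ) ≤ n :=
    hn0.trans (by exact_mod_cast hn)
  rw [div_le_iff₀ (by positivity)] at hnn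
  have h1 : ((2 * (2 * 2 ^ s + 1) + 1 : ℕ) : ℝ) ^ d ≤ (2 : ℝ) ^ (((s : ℝ) + 3) * d) := by
    have h2 : ((2 * (2 * 2 ^ s + 1) + 1 : ℕ) : ℝ) ≤ (2 : ℝ) ^ (s + 3) := by
      push_cast
      have h3 : (1 : ℝ) ≤ 2 ^ s := one_le_pow₀ (by norm_num)
      rw [pow_add]
      nlinarith
    calc ((2 * (2 * 2 ^ s + 1) + 1 : ℕ) : ℝ) ^ d ≤ ((2 : ℝ) ^ (s + 3)) ^ d :=
          pow_le_pow_left₀ (by positivity) h2 d
      _ = (2 : ℝ) ^ (((s : ℝ) + 3) * d) := by
          rw [← pow_mul, ← Real.rpow_natCast]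
          congr 1
          push_cast
          ring
  have h4 : c1 = (2 : ℝ) ^ Real.logb 2 c1 := by
    rw [Real.rpow_logb (by norm_num) (by norm_num) hc1]
  calc ((2 * (2 * 2 ^ s + 1) + 1 : ℕ) ^ d : ℝ) * (c1 * (2 : ℝ) ^ (-(2 * κ * n)))
      ≤ (2 : ℝ) ^ (((s : ℝ) + 3) * d) * ((2 : ℝ) ^ Real.logb 2 c1 * (2 : ℝ) ^ (-(2 * κ * n))) := by
        rw [← h4]
        gcongr
    _ = (2 : ℝ) ^ (((s : ℝ) + 3) * d + (Real.logb 2 c1 + -(2 * κ * n))) := by
        rw [← Real.rpow_add (by norm_num), ← Real.rpow_add (by norm_num)]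
    _ ≤ pro κ (n + s) := by
        unfold pro
        refine Real.rpow_le_rpow_of_exponent_le (by norm_num) ?_
        push_cast
        have h5 := le_abs_self (Real.logb 2 c1)
        have h6 : (s : ℝ) * d ≤ κ * n / 2 := by
          have : κ / (2 * d) * n * d = κ * n / 2 := by
            field_simp
          calc (s : ℝ) * d ≤ κ / (2 * d) * n * d := by gcongr
            _ = κ * n / 2 := this
        have hs0 : (0 : ℝ) ≤ s := Nat.cast_nonneg s
        have h7 : κ * s ≤ κ * n / 8 := by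
          have h8 : (s : ℝ) ≤ s * d := by nlinarith
          nlinarith
        nlinarith

/-- numbers: from the square to the bound -/
theorem num3 (d n s k : ℕ) (h : (n + s + 1) * d + 2 * ((2 * d + 2) * (n + s)) ≤ 2 * k) :
    (1 / 4 : ℝ) ^ k * ((2 ^ (n + s) + 1 : ℕ) : ℝ) ^ d ≤ (eta d (n + s)) ^ 2 := by
  have h1 : ((2 ^ (n + s) + 1 : ℕ) : ℝ) ^ d ≤ (2 : ℝ) ^ ((n + s + 1) * d) := by
    rw [pow_mul]
    refine pow_le_pow_left₀ (by positivity) ?_ d
    push_cast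
    have h3 : (1 : ℝ) ≤ 2 ^ (n + s) := one_le_pow₀ (by norm_num)
    rw [pow_succ]
    linarith
  have h2 : (1 / 4 : ℝ) ^ k = ((2 : ℝ) ^ (2 * k))⁻¹ := by
    rw [pow_mul, ← inv_pow]
    norm_num
  have h3 : (eta d (n + s)) ^ 2 = ((2 : ℝ) ^ (2 * ((2 * d + 2) * (n + s))))⁻¹ := by
    unfold eta
    rw [inv_pow, ← pow_mul]
    congr 2
    ring
  rw [h2, h3]
  have h4 : (2 : ℝ) ^ ((n + s + 1) * d) * 2 ^ (2 * ((2 * d + 2) * (n + s))) ≤ 2 ^ (2 * k) := by
    rw [← pow_add]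
    exact pow_le_pow_right₀ (by norm_num) h
  have h5 : (0 : ℝ) < 2 ^ (2 * ((2 * d + 2) * (n + s))) := by positivity
  have h6 : (0 : ℝ) < 2 ^ (2 * k) := by positivity
  rw [inv_mul_le_iff₀ h6, ← div_eq_mul_inv, le_div_iff₀ h5]
  calc _ ≤ (2 : ℝ) ^ ((n + s + 1) * d) * 2 ^ (2 * ((2 * d + 2) * (n + s))) := by gcongr
    _ ≤ _ := h4

end St0

open St0 in
theorem t_ST0 : St_ST0 := by
  intro d hd κ hκ hκ4 c1 hc1
  have hd0 : (0 : ℝ) < d := by exact_mod_cast hd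
  obtain ⟨s0, hs0⟩ := num1 d (κ / (4 * d)) (by positivity)
  obtain ⟨n1, hn1⟩ := num2 d hd κ hκ hκ4 c1 hc1
  obtain ⟨n2, hn2⟩ := exists_nat_ge (s0 * (4 * d) / κ)
  refine ⟨max (max n1 n2) 1, fun ν _ J n s hn hs1 hs2 A hA hP => ?_⟩
  have hnn1 : n1 ≤ n := (le_max_left _ _).trans ((le_max_left _ _).trans hn)
  have hnn2 : n2 ≤ n := (le_max_right _ _).trans ((le_max_left _ _).trans hn)
  have hn0 : 1 ≤ n := (le_max_right _ _).trans hn
  have hss : s0 ≤ s := by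
    have h1 : (s0 * (4 * d) / κ : ℝ) ≤ n := hn2.trans (by exact_mod_cast hnn2)
    rw [div_le_iff₀ hκ] at h1
    have h2 : (s0 : ℝ) ≤ s := by
      refine le_trans ?_ hs2
      rw [div_mul_eq_mul_div, le_div_iff₀ (by positivity)]
      linarith
    exact_mod_cast h2
  obtain ⟨h8, hnum⟩ := hs0 s n hss hs2
  set g : ℕ := 2 ^ (n - 1) with hg
  have hg0 : 0 < g := by positivity
  have hl : 2 ^ n = 2 * g := by
    rw [hg, ← pow_succ']
    congr 1
    omega
  set N : ℕ := 2 ^ s with hN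
  have hL : 2 ^ (n + s) = 2 * (g * N) := by
    rw [pow_add, hl, hN]
    ring
  refine ⟨fun x => ⋃ m ∈ gi g (2 * N + 1) x, {p | ¬ G2 (gc g m) (2 * g) (qd d) A p.1 p.2},
    ?_, ?_, ?_, ?_⟩
  · intro x
    exact isOpen_biUnion fun m _ => g2_open _ _ _ _
  · intro x V V' E hVV hp
    simp only [Set.mem_iUnion, exists_prop, Set.mem_ofPred_eq] at hp ⊢
    obtain ⟨m, hm, hp⟩ := hp
    refine ⟨m, hm, fun hG => hp (g2_loc _ _ _ _ V' V E (fun y hy => (hVV y ?_).symm) hG)⟩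
    have h1 := gi_dist g (2 * N + 1) hg0 x m hm
    have h2 := dd_tri x (gc g m) y
    have h3 : g * (2 * N + 1) = 2 * (g * N) + g := by ring
    have h4 : 8 * g ≤ g * N := by nlinarith
    rw [hL]
    omega
  · intro x E hE
    have h1 : {V : Zd d → ℝ | (V, E) ∈ ⋃ m ∈ gi g (2 * N + 1) x,
        {p : (Zd d → ℝ) × ℝ | ¬ G2 (gc g m) (2 * g) (qd d) A p.1 p.2}} =
        ⋃ m ∈ gi g (2 * N + 1) x, {V | ¬ G2 (gc g m) (2 * g) (qd d) A V E} := by
      ext V
      simp only [Set.mem_iUnion, exists_prop, Set.mem_ofPred_eq]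
    rw [h1]
    refine (measure_biUnion_finset_le _ _).trans ?_
    have h2 : ∀ m ∈ gi g (2 * N + 1) x, (PP d ν) {V | ¬ G2 (gc g m) (2 * g) (qd d) A V E} ≤
        ENNReal.ofReal (c1 * (2 : ℝ) ^ (-(2 * κ * n))) := by
      intro m _
      have h3 := hP (gc g m) E hE
      rwa [hl] at h3
    refine (Finset.sum_le_sum h2).trans ?_
    rw [Finset.sum_const, nsmul_eq_mul, gi_card]
    have h4 := hn1 n s hnn1 hs1
    rw [← ENNReal.ofReal_natCast, ← ENNReal.ofReal_mul (by positivity)]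
    refine ENNReal.ofReal_le_ofReal (le_trans (le_of_eq ?_) h4)
    rw [hN]
    push_cast
    rfl
  · intro x V E hVE
    simp only [Set.mem_iUnion, exists_prop, Set.mem_ofPred_eq, not_exists, not_and,
      not_not] at hVE
    intro ψ hψ b hb u hu
    rw [hL] at hψ hb hu
    have hk : 4 * (N / 8) + 2 ≤ N := by omega
    have h1 := big hd g N hg0 A V E x (N / 8) hk hVE ψ hψ b (fun y hy => hb y (by omega)) u
      (by omega)
    have hb0 : 0 ≤ b := (abs_nonneg _).trans (hb u (by omega))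
    have h2 := num3 d n s (N / 8) (by
      have h3 : N / 4 ≤ 2 * (N / 8) + 1 := by omega
      have h4 : (n + s + 1) * d + 2 * ((2 * d + 2) * (n + s)) =
          (5 * d + 4) * (n + s) + d := by ring
      have h5 : (6 * d + 6) * (n + s) = (5 * d + 4) * (n + s) + (d + 2) * (n + s) := by ring
      have h6 : 0 ≤ (d + 2) * (n + s) := Nat.zero_le _
      omega)
    rw [hL] at h2
    have h3 : ψ u ^ 2 ≤ (eta d (n + s) * b) ^ 2 := by
      refine h1.trans ?_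
      rw [← mul_assoc, mul_pow]
      exact mul_le_mul_of_nonneg_right h2 (sq_nonneg b)
    have heta : 0 ≤ eta d (n + s) := by unfold eta; positivity
    exact abs_le_of_sq_le_sq h3 (mul_nonneg heta hb0)

end Pool.Agent.Helper28.Tg
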